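import Pool.Agent.R925.Q.AfsN

/-! Sections with a nontrivial centraliser: superelliptic curves. -/

set_option autoImplicit false
set_option linter.all false

open Polynomial FF

namespace Pool.Agent.R925.Q

open Pool.Agent.Y157.PS

section main

variable {k F Ω : Type} [Field k] [CharZero k] [Field F] [Field Ω] [Algebra k F] [Algebra F Ω] [Algebra k Ω] [IsScalarTower k F Ω]
    [IsAlgClosed Ω] [Algebra.IsAlgebraic F Ω]

/-- the constants in the maximal geometrically pro-`ℓ` extension -/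
noncomputable def cst (ℓ : ℕ) (k F Ω : Type) [Field k] [Field F] [Field Ω] [Algebra k F]
    [Algebra F Ω] [Algebra k Ω] [IsScalarTower k F Ω] (c : algebraicClosure k Ω) :
    geomPro ℓ k F Ω := ⟨(c : Ω), const_geomPro ℓ k c⟩

/-- rigidity and inertia elements for all covers branched at the roots of `f` -/
def RR (ℓ : ℕ) [Fact ℓ.Prime] (k κ : Type) [Field k] [Field κ] [Algebra k κ] (f : k[X]) : Prop :=
  ∀ (R M : Type) [Field R] [Field M] [Algebra κ R] [Algebra R M] [Algebra κ M]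
    [IsScalarTower κ R M] (x : R) (B : Finset κ) (Y : M), (∀ θ, θ ∈ B ↔ aeval θ f = 0) →
    Cov ℓ κ R M x B Y → Rig k κ R M x Y ∧ Rot κ R M x B Y

theorem geoK {ℓ : ℕ} [Fact ℓ.Prime]
    (f : k[X]) (hs : f.Separable) (hdvd : ℓ ∣ f.natDegree)
    (h3 : 3 ≤ f.natDegree)
    (hRR : RR ℓ k (algebraicClosure k Ω) f) (d : k) (hd : d ≠ 0)
    (x y : F) (hx : Transcendental k x)
    (hxy : algebraMap k F d * y ^ ℓ = aeval x f)
    (hF : IntermediateField.adjoin k {x, y} = (⊤ : IntermediateField k F))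
    (S : (algebraicClosure k Ω ≃ₐ[k] algebraicClosure k Ω) →*
      (geomPro ℓ k F Ω ≃ₐ[F] geomPro ℓ k F Ω))
    (hcompat : ∀ σ (c : algebraicClosure k Ω) (z : geomPro ℓ k F Ω), (z : Ω) = (c : Ω) →
      (S σ z : Ω) = (σ c : Ω)) :
    (∀ (U : Subgroup (algebraicClosure k Ω ≃ₐ[k] algebraicClosure k Ω)), U.index ≠ 0 →
      ∀ γ : geomPro ℓ k F Ω ≃+* geomPro ℓ k F Ω, γ ≠ RingEquiv.refl _ →
      Com (cst ℓ k F Ω) x S U γ →
      ∃ W : ValuationSubring (geomPro ℓ k F Ω),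
        (∀ c, cst ℓ k F Ω c ∈ W) ∧
        (∀ z ∈ W, ∃ c : algebraicClosure k Ω, z - cst ℓ k F Ω c ∈ W.nonunits) ∧
        (∃ e : algebraicClosure k Ω, aeval e f = 0 ∧
          (∀ σ : algebraicClosure k Ω ≃ₐ[k] algebraicClosure k Ω, σ e = e) ∧
          algebraMap F (geomPro ℓ k F Ω) x - cst ℓ k F Ω e ∈ W.nonunits) ∧
        (∀ σ z, S σ z ∈ W ↔ z ∈ W) ∧ (∀ z, γ z ∈ W ↔ z ∈ W) ∧
        ∀ W' : ValuationSubring (geomPro ℓ k F Ω), (∀ c, cst ℓ k F Ω c ∈ W') → W' ≠ ⊤ →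
          (∀ z, γ z ∈ W' ↔ z ∈ W') → W' = W) ∧
    (∀ (U U' : Subgroup (algebraicClosure k Ω ≃ₐ[k] algebraicClosure k Ω)), U.index ≠ 0 →
      U'.index ≠ 0 → ∀ γ γ' : geomPro ℓ k F Ω ≃+* geomPro ℓ k F Ω,
      γ ≠ RingEquiv.refl _ → Com (cst ℓ k F Ω) x S U γ → Com (cst ℓ k F Ω) x S U' γ' →
      (∀ z, γ^[ℓ] z = z) ∧ ∃ i : ℕ, ∀ z, γ' z = γ^[i] z) ∧
    (∀ (U : Subgroup (algebraicClosure k Ω ≃ₐ[k] algebraicClosure k Ω)), U.index ≠ 0 →
      ∀ W : ValuationSubring (geomPro ℓ k F Ω), (∀ c, cst ℓ k F Ω c ∈ W) →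
      (∃ e : algebraicClosure k Ω, aeval e f = 0 ∧
        algebraMap F (geomPro ℓ k F Ω) x - cst ℓ k F Ω e ∈ W.nonunits) →
      (∀ σ ∈ U, ∀ z, S σ z ∈ W ↔ z ∈ W) →
      ∃ γ : geomPro ℓ k F Ω ≃+* geomPro ℓ k F Ω, γ ≠ RingEquiv.refl _ ∧
        (∀ z, γ z ∈ W ↔ z ∈ W) ∧
        ∃ U' : Subgroup (algebraicClosure k Ω ≃ₐ[k] algebraicClosure k Ω), U'.index ≠ 0 ∧
          Com (cst ℓ k F Ω) x S U' γ) := by
  classical
  have hℓp : ℓ.Prime := Fact.out
  have hac : IsAlgClosure k (algebraicClosure k Ω) := inferInstance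
  have hkb : IsAlgClosed (algebraicClosure k Ω) := hac.1
  have hch : CharZero (algebraicClosure k Ω) :=
    charZero_of_injective_algebraMap (algebraMap k (algebraicClosure k Ω)).injective
  have hf0 : f ≠ 0 := by rintro rfl; simp at h3
  have hlck0 : f.leadingCoeff ≠ 0 := leadingCoeff_ne_zero.2 hf0
  -- the element `δ`
  obtain ⟨δ, hδ⟩ : ∃ δ : algebraicClosure k Ω, δ ^ ℓ =
      algebraMap k (algebraicClosure k Ω) (d / f.leadingCoeff) :=
    IsAlgClosed.exists_pow_nat_eq _ hℓp.pos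
  have hδ0 : δ ≠ 0 := by
    rintro rfl
    rw [zero_pow hℓp.ne_zero] at hδ
    exact (_root_.map_ne_zero _).2 (div_ne_zero hd hlck0) hδ.symm
  -- the roots
  set P := f.map (algebraMap k (algebraicClosure k Ω)) with hP
  have hnd : P.roots.Nodup := nodup_roots hs.map
  have hlc0 : algebraMap k (algebraicClosure k Ω) f.leadingCoeff ≠ 0 :=
    (_root_.map_ne_zero _).2 hlck0
  have hP0 : P ≠ 0 := (Polynomial.map_ne_zero_iff (algebraMap k _).injective).2 hf0
  have hPdeg : P.natDegree = f.natDegree := natDegree_map_eq_of_injective (algebraMap k _).injective f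
  set B : Finset (algebraicClosure k Ω) := P.roots.toFinset with hBdef
  have hmemB : ∀ θ, θ ∈ B ↔ aeval θ f = 0 := by
    intro θ
    rw [hBdef, Multiset.mem_toFinset, mem_roots hP0, IsRoot.def, hP, eval_map]
    rfl
  have hcard : B.card = f.natDegree := by
    rw [hBdef, Multiset.toFinset_card_of_nodup hnd, ← hPdeg]
    exact (IsAlgClosed.splits P).natDegree_eq_card_roots.symm
  -- the product formula
  have hPx : ∀ z : Ω, P.eval₂ (algebraMap (algebraicClosure k Ω) Ω) z =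
      algebraMap (algebraicClosure k Ω) Ω (algebraMap k (algebraicClosure k Ω) f.leadingCoeff) *
        ∏ e ∈ B, (z - algebraMap (algebraicClosure k Ω) Ω e) := by
    intro z
    have h1 := (IsAlgClosed.splits P).eq_prod_roots
    have h5 : P.leadingCoeff = algebraMap k (algebraicClosure k Ω) f.leadingCoeff :=
      leadingCoeff_map_of_leadingCoeff_ne_zero _ hlc0
    rw [h5] at h1
    have h6 : ∏ e ∈ B, (z - algebraMap (algebraicClosure k Ω) Ω e) =
        (P.roots.map fun e => z - algebraMap (algebraicClosure k Ω) Ω e).prod := by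
      rw [hBdef, Finset.prod, Multiset.toFinset_val, Multiset.dedup_eq_self.2 hnd]
    rw [h6]
    conv_lhs => rw [h1]
    rw [eval₂_mul, eval₂_C, ← coe_eval₂RingHom, map_multiset_prod, Multiset.map_map]
    congr 2
    refine Multiset.map_congr rfl fun a _ => ?_
    simp
  have hfx : algebraMap F Ω (aeval x f) =
      P.eval₂ (algebraMap (algebraicClosure k Ω) Ω) (algebraMap F Ω x) := by
    rw [aeval_def, hom_eval₂, hP, eval₂_map, ← IsScalarTower.algebraMap_eq k F Ω,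
      ← IsScalarTower.algebraMap_eq k (algebraicClosure k Ω) Ω]
  set Y0 : Ω := (δ : Ω) * algebraMap F Ω y with hY0
  have hY : Y0 ^ ℓ = ∏ e ∈ B, (algebraMap F Ω x - algebraMap (algebraicClosure k Ω) Ω e) := by
    have h1 := congrArg (algebraMap F Ω) hxy
    rw [map_mul, map_pow, ← IsScalarTower.algebraMap_apply, hfx, hPx] at h1
    have h5 : algebraMap (algebraicClosure k Ω) Ω
        (algebraMap k (algebraicClosure k Ω) f.leadingCoeff) ≠ 0 := (_root_.map_ne_zero _).2 hlc0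
    have h6 : (δ : Ω) ^ ℓ = algebraMap k Ω d / algebraMap (algebraicClosure k Ω) Ω
        (algebraMap k (algebraicClosure k Ω) f.leadingCoeff) := by
      have h7 := congrArg (algebraMap (algebraicClosure k Ω) Ω) hδ
      rw [map_pow, map_div₀, map_div₀, ← IsScalarTower.algebraMap_apply] at h7
      exact h7
    rw [hY0, mul_pow, h6, div_mul_eq_mul_div, h1, mul_div_cancel_left₀ _ h5]
  -- the covering field
  have hX0 : Transcendental k (algebraMap F Ω x) :=
    (transcendental_algebraMap_iff (R := k) (algebraMap F Ω).injective (a := x)).2 hx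
  have hrat := ratF_adj (trans_up hX0)
  have hYR : Y0 ^ ℓ ∈ IntermediateField.adjoin (algebraicClosure k Ω) {algebraMap F Ω x} := by
    rw [hY]
    exact prod_mem fun e _ => sub_mem (IntermediateField.mem_adjoin_simple_self _ _)
      (IntermediateField.algebraMap_mem _ e)
  have hclR := closure_R hF δ hδ0 hℓp.pos hYR
  let R := IntermediateField.adjoin (algebraicClosure k Ω) {algebraMap F Ω x}
  let x' : R := ⟨algebraMap F Ω x, IntermediateField.mem_adjoin_simple_self _ _⟩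
  obtain ⟨M, hM⟩ : ∃ M : IntermediateField R Ω,
      ∀ z, z ∈ M ↔ z ∈ maxPro ℓ (algebraicClosure k Ω) (IntermediateField.adjoin R {Y0}) Ω :=
    ⟨(maxPro ℓ (algebraicClosure k Ω) (IntermediateField.adjoin R {Y0}) Ω).restrictScalars R,
      fun z => Iff.rfl⟩
  have hYM : Y0 ∈ M := by
    rw [hM]
    exact (maxPro ℓ (algebraicClosure k Ω) (IntermediateField.adjoin R {Y0}) Ω).algebraMap_mem
      ⟨Y0, IntermediateField.mem_adjoin_simple_self _ _⟩
  have hCov : Cov ℓ (algebraicClosure k Ω) R M x' B ⟨Y0, hYM⟩ :=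
    a_cov ℓ (algebraicClosure k Ω) R Ω x' hrat B (by rw [hcard]; exact hdvd)
      (by rw [hcard]; exact h3) Y0 hY M hM ⟨Y0, hYM⟩ rfl
  have hMN : ∀ z, z ∈ M ↔ z ∈ geomPro ℓ k F Ω := fun z =>
    (hM z).trans (maxPro_geom ℓ k hF δ hδ0 z)
  let eqv : M ≃+* geomPro ℓ k F Ω :=
    { toFun := fun w => ⟨w.1, (hMN _).1 w.2⟩
      invFun := fun w => ⟨w.1, (hMN _).2 w.2⟩
      left_inv := fun w => rfl
      right_inv := fun w => rfl
      map_mul' := fun w w' => rfl
      map_add' := fun w w' => rfl }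
  have hcst : cst ℓ k F Ω = fun c => eqv (algebraMap (algebraicClosure k Ω) M c) := rfl
  obtain ⟨hRig, hRot⟩ := hRR R M x' B ⟨Y0, hYM⟩ hmemB hCov
  obtain ⟨c1, c2, c3⟩ := absN (R := R) δ hδ0 x' B ⟨Y0, hYM⟩ hCov hRig hRot eqv x y
    (Subtype.ext rfl) (Subtype.ext rfl) S (fun σ c => Subtype.ext (hcompat σ c _ rfl))
  refine ⟨?_, c2, ?_⟩
  · intro U hU γ h1 hγ
    obtain ⟨W, a1, a2, ⟨e, heB, hfix, a3⟩, a4, a5, a6⟩ := c1 U hU γ h1 hγ
    exact ⟨W, a1, a2, ⟨e, (hmemB e).1 heB, hfix, a3⟩, a4, a5, a6⟩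
  · rintro U hU W h1 ⟨e, he, h2⟩ h3
    exact c3 U hU W h1 ⟨e, (hmemB e).2 he, h2⟩ h3

end main

end Pool.Agent.R925.Q
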