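import Pool.Agent.W132.AG.Conorm

/-! Action of semilinear automorphisms on places and divisors, and finiteness of the number of
invariant divisor classes. -/

set_option autoImplicit false
set_option linter.all false

open Module FF Pool.Agent.H525R3.FFp

namespace Pool.Agent.R925.Q

section
variable {k K : Type} [Field k] [Field K] [Algebra k K]

/-- the automorphism `ψ` of `K` induces the automorphism `σ` of the field of constants -/
def Semi (ψ : K ≃+* K) (σ : k ≃+* k) : Prop := ∀ c : k, ψ (algebraMap k K c) = algebraMap k K (σ c)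

theorem Semi.symm {ψ : K ≃+* K} {σ : k ≃+* k} (h : Semi ψ σ) : Semi ψ.symm σ.symm := by
  intro c
  rw [RingEquiv.symm_apply_eq, h, RingEquiv.apply_symm_apply]

theorem Semi.pow {ψ : K ≃+* K} {σ : k ≃+* k} (h : Semi ψ σ) (j : ℕ) : Semi (ψ ^ j) (σ ^ j) := by
  induction j with
  | zero => intro c; rfl
  | succ j ih =>
    intro c
    rw [pow_succ, pow_succ]
    show (ψ ^ j) (ψ _) = algebraMap k K ((σ ^ j) (σ c))
    rw [h, ih]

/-- the place `z ↦ ord_W (ψ z)` -/
noncomputable def pull {ψ : K ≃+* K} {σ : k ≃+* k} (h : Semi ψ σ) (W : Place k K) : Place k K where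
  ord f := W.ord (ψ f)
  ord_zero := by rw [map_zero, W.ord_zero]
  ord_mul := by
    intro f g hf hg
    rw [map_mul, W.ord_mul (by simpa using hf) (by simpa using hg)]
  ord_add := by
    intro f g hf hg hfg
    rw [map_add]
    exact W.ord_add (by simpa using hf) (by simpa using hg)
      (by rw [← map_add]; exact (map_ne_zero_iff _ ψ.injective).2 hfg)
  ord_const := by
    intro c hc
    rw [h, W.ord_const (by simpa using hc)]
  surj := by
    obtain ⟨t, h0, ht⟩ := W.surj
    exact ⟨ψ.symm t, by simpa using h0, by simpa using ht⟩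

theorem pull_ord {ψ : K ≃+* K} {σ : k ≃+* k} (h : Semi ψ σ) (W : Place k K) (z : K) :
    (pull h W).ord z = W.ord (ψ z) := rfl

/-- the permutation of the places -/
noncomputable def pullE {ψ : K ≃+* K} {σ : k ≃+* k} (h : Semi ψ σ) : Equiv.Perm (Place k K) where
  toFun := pull h
  invFun := pull h.symm
  left_inv W := by
    apply Place.ext
    funext z
    rw [pull_ord, pull_ord, RingEquiv.apply_symm_apply]
  right_inv W := by
    apply Place.ext
    funext z
    rw [pull_ord, pull_ord, RingEquiv.symm_apply_apply]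

theorem pullE_ord {ψ : K ≃+* K} {σ : k ≃+* k} (h : Semi ψ σ) (W : Place k K) (z : K) :
    (pullE h W).ord z = W.ord (ψ z) := rfl

theorem pullE_pow_ord {ψ : K ≃+* K} {σ : k ≃+* k} (h : Semi ψ σ) (j : ℕ) (W : Place k K) (z : K) :
    ((pullE h ^ j) W).ord z = W.ord ((ψ ^ j) z) := by
  induction j generalizing W with
  | zero => rfl
  | succ j ih =>
    rw [pow_succ, Equiv.Perm.mul_apply, ih, pullE_ord, pow_succ']
    rfl

/-- the action on divisors -/
noncomputable def act {ψ : K ≃+* K} {σ : k ≃+* k} (h : Semi ψ σ) :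
    (Place k K →₀ ℤ) ≃+ (Place k K →₀ ℤ) := Finsupp.domCongr (pullE h).symm

theorem act_apply {ψ : K ≃+* K} {σ : k ≃+* k} (h : Semi ψ σ) (D : Place k K →₀ ℤ) (W : Place k K) :
    act h D W = D (pullE h W) := rfl

end

section
variable {k K : Type} [Field k] [IsAlgClosed k] [Field K] [Algebra k K] [IsFF k K]

theorem bij_RF (W : Place k K) : Function.Bijective (algebraMap k W.RF) :=
  IsAlgClosed.algebraMap_bijective_of_isIntegral (k := k) (K := W.RF)

theorem deg_one (W : Place k K) : W.deg = 1 := by
  let e : k ≃ₐ[k] W.RF := AlgEquiv.ofBijective (Algebra.ofId k W.RF) (bij_RF W)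
  unfold Place.deg
  rw [← e.toLinearEquiv.finrank_eq, Module.finrank_self]

/-- the value of a regular function -/
theorem exists_val (W : Place k K) {u : K} (hu : W.Reg u) :
    ∃ c : k, u - algebraMap k K c = 0 ∨ 0 < W.ord (u - algebraMap k K c) := by
  obtain ⟨c, hc⟩ := (bij_RF W).2 (W.red u)
  refine ⟨c, ?_⟩
  have h1 : W.Reg (u - algebraMap k K c) := by
    rw [sub_eq_add_neg]
    exact W.reg_add hu (W.reg_neg (W.reg_const c))
  rw [← W.red_eq_zero_iff h1, W.red_sub hu (W.reg_const c), sub_eq_zero, ← hc]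
  rfl

theorem ddeg_eq (D : Place k K →₀ ℤ) : ddeg D = D.sum fun _ n => n := by
  unfold ddeg
  refine Finsupp.sum_congr fun P _ => ?_
  rw [deg_one]; simp

theorem act_divisor {ψ : K ≃+* K} {σ : k ≃+* k} (h : Semi ψ σ) (z : K) :
    act h (divisor k z) = divisor k (ψ z) := by
  ext W
  rw [act_apply, divisor_apply, divisor_apply, pullE_ord]

theorem ddeg_act {ψ : K ≃+* K} {σ : k ≃+* k} (h : Semi ψ σ) (D : Place k K →₀ ℤ) :
    ddeg (act h D) = ddeg D := by
  rw [ddeg_eq, ddeg_eq]
  unfold act
  rw [Finsupp.domCongr_apply, Finsupp.equivMapDomain_eq_mapDomain, Finsupp.sum_mapDomain_index]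
  · intro; rfl
  · intro _ _ _; rfl

theorem act_single {ψ : K ≃+* K} {σ : k ≃+* k} (h : Semi ψ σ) (W : Place k K) (n : ℤ) :
    act h (Finsupp.single W n) = Finsupp.single ((pullE h).symm W) n := by
  unfold act
  rw [Finsupp.domCongr_apply, Finsupp.equivMapDomain_single]

theorem act_single_fix {ψ : K ≃+* K} {σ : k ≃+* k} (h : Semi ψ σ) {W : Place k K}
    (hW : pullE h W = W) (n : ℤ) : act h (Finsupp.single W n) = Finsupp.single W n := by
  rw [act_single]
  congr 1
  rw [Equiv.symm_apply_eq, hW]

theorem divisor_eq_zero {z : K} (hz : z ≠ 0) (h : divisor k z = 0) :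
    ∃ c : k, c ≠ 0 ∧ z = algebraMap k K c := by
  classical
  obtain ⟨W, -⟩ := exists_place (k := k) (K := K)
  have hreg : ∀ P : Place k K, P.ord z = 0 := fun P => by rw [← divisor_apply, h]; rfl
  obtain ⟨c, hc⟩ := exists_val W (u := z) (Or.inr (hreg W).ge)
  by_cases h0 : z - algebraMap k K c = 0
  · refine ⟨c, ?_, sub_eq_zero.1 h0⟩
    rintro rfl
    rw [map_zero, sub_zero] at h0
    exact hz h0
  · exfalso
    have h1 : 0 < W.ord (z - algebraMap k K c) := hc.resolve_left h0
    have h2 : ∀ P : Place k K, 0 ≤ P.ord (z - algebraMap k K c) := by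
      intro P
      have h3 : P.Reg (z - algebraMap k K c) := by
        rw [sub_eq_add_neg]
        exact P.reg_add (Or.inr (hreg P).ge) (P.reg_neg (P.reg_const c))
      exact (P.reg_iff h0).1 h3
    have h4 : Finsupp.single W 1 ≤ divisor k (z - algebraMap k K c) := by
      intro P
      rw [divisor_apply, Finsupp.single_apply]
      split_ifs with hP
      · subst hP; omega
      · exact h2 P
    have h5 := ddeg_mono h4
    rw [ddeg_divisor, ddeg_single, deg_one] at h5
    norm_num at h5

theorem divisor_injective {z z' : K} (hz : z ≠ 0) (hz' : z' ≠ 0) (h : divisor k z = divisor k z') :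
    ∃ c : k, c ≠ 0 ∧ z = algebraMap k K c * z' := by
  have h1 : divisor k (z * z'⁻¹) = 0 := by
    rw [divisor_mul hz (inv_ne_zero hz'), divisor_inv, h]; exact add_neg_cancel _
  obtain ⟨c, hc, h2⟩ := divisor_eq_zero (mul_ne_zero hz (inv_ne_zero hz')) h1
  exact ⟨c, hc, by rw [← h2, inv_mul_cancel_right₀ hz']⟩

end

section
variable {k K : Type} [Field k] [IsAlgClosed k] [Field K] [Algebra k K] [IsFF k K]
  {ψ : K ≃+* K} {σ : k ≃+* k}

theorem finite_fix (h : Semi ψ σ) {j : ℕ} (hσ : {c : k | (σ ^ j) c = c}.Finite) {x : K}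
    (hx : Transcendental k x) (hψx : ψ x = x) :
    {W : Place k K | (pullE h ^ j) W = W}.Finite := by
  have hψj : ∀ j, (ψ ^ j) x = x := by
    intro j
    induction j with
    | zero => rfl
    | succ j ih =>
      rw [pow_succ]
      show (ψ ^ j) (ψ x) = x
      rw [hψx, ih]
  refine ((finite_support (k := k) x).union (Set.Finite.biUnion hσ
    (fun c _ => finite_support (k := k) (x - algebraMap k K c)))).subset ?_
  intro W hW
  by_cases h0 : W.ord x = 0
  · right
    have hx0 : x ≠ 0 := by rintro rfl; exact hx isAlgebraic_zero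
    obtain ⟨c, hc⟩ := exists_val W (u := x) (Or.inr h0.ge)
    have hxc : ∀ c : k, x - algebraMap k K c ≠ 0 := by
      intro c hc
      rw [sub_eq_zero] at hc
      rw [hc] at hx
      exact hx (isAlgebraic_algebraMap c)
    have h1 := hc.resolve_left (hxc c)
    have h2 : W.ord (x - algebraMap k K ((σ ^ j) c)) = W.ord (x - algebraMap k K c) := by
      have h3 := pullE_pow_ord h j W (x - algebraMap k K c)
      rw [hW, map_sub, hψj, h.pow j] at h3
      exact h3.symm
    have h3 : (σ ^ j) c = c := by
      by_contra hne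
      have h4 : (σ ^ j) c - c ≠ 0 := sub_ne_zero.2 hne
      have h5 := W.ord_const h4
      have h6 : algebraMap k K ((σ ^ j) c - c) =
          (x - algebraMap k K c) - (x - algebraMap k K ((σ ^ j) c)) := by
        rw [map_sub]; ring
      have h7 := W.ord_sub (hxc c) (hxc ((σ ^ j) c)) (by
        rw [← h6]; exact (map_ne_zero_iff _ (algebraMap k K).injective).2 h4)
      rw [← h6, h5, h2, min_self] at h7
      omega
    exact Set.mem_biUnion (show c ∈ {c : k | (σ ^ j) c = c} from h3) h1.ne'
  · exact Or.inl h0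

/-- the effective invariant divisors of bounded degree are finite in number -/
theorem finite_inv_eff (h : Semi ψ σ) (hσ : ∀ j : ℕ, 0 < j → {c : k | (σ ^ j) c = c}.Finite) {x : K}
    (hx : Transcendental k x) (hψx : ψ x = x) (m : ℕ) :
    {E : Place k K →₀ ℤ | 0 ≤ E ∧ act h E = E ∧ ddeg E ≤ m}.Finite := by
  classical
  have hfin : (⋃ j ∈ Finset.Icc 1 m, {W : Place k K | (pullE h ^ j) W = W}).Finite := by
    refine Set.Finite.biUnion (Finset.finite_toSet _) ?_
    intro j hj
    rw [Finset.mem_coe, Finset.mem_Icc] at hj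
    exact finite_fix h (hσ j (by omega)) hx hψx
  refine (hfin.toFinset.finsupp fun _ => Finset.Icc (0 : ℤ) m).finite_toSet.subset ?_
  rintro E ⟨hE, hact, hd⟩
  have hEP : ∀ P, 0 ≤ E P := fun P => hE P
  have hdeg : ddeg E = ∑ P ∈ E.support, E P := by rw [ddeg_eq]; rfl
  have hcard : (E.support.card : ℤ) ≤ m := by
    refine le_trans ?_ hd
    rw [hdeg, Finset.card_eq_sum_ones, Nat.cast_sum]
    refine Finset.sum_le_sum fun P hP => ?_
    rw [Finsupp.mem_support_iff] at hP
    have := hEP P
    push_cast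
    omega
  have hle : ∀ P, E P ≤ m := by
    intro P
    by_cases hP : P ∈ E.support
    · refine le_trans ?_ hd
      rw [hdeg]
      exact Finset.single_le_sum (fun Q _ => hEP Q) hP
    · rw [Finsupp.notMem_support_iff] at hP
      rw [hP]; positivity
  have hsupp : ∀ (i : ℕ) (P : Place k K), P ∈ E.support → (pullE h ^ i) P ∈ E.support := by
    intro i
    induction i with
    | zero => intro P hP; exact hP
    | succ i ih =>
      intro P hP
      rw [pow_succ, Equiv.Perm.mul_apply]
      apply ih
      rw [Finsupp.mem_support_iff, ← act_apply, hact]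
      exact Finsupp.mem_support_iff.1 hP
  rw [Finset.mem_coe, Finset.mem_finsupp_iff]
  constructor
  · intro P hP
    rw [Set.Finite.mem_toFinset]
    have h1 : E.support.card < (Finset.range (m + 1)).card := by
      rw [Finset.card_range]
      have : E.support.card ≤ m := by exact_mod_cast hcard
      omega
    obtain ⟨i, hi, j, hj, hij, heq⟩ := Finset.exists_ne_map_eq_of_card_lt_of_maps_to h1
      (f := fun i => (pullE h ^ i) P) (fun i _ => hsupp i P hP)
    have key : ∀ i j : ℕ, i ∈ Finset.range (m + 1) → j ∈ Finset.range (m + 1) → i < j →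
        (pullE h ^ i) P = (pullE h ^ j) P →
        P ∈ (⋃ j ∈ Finset.Icc 1 m, {W : Place k K | (pullE h ^ j) W = W}) := by
      intro i j hi hj hlt heq
      rw [Finset.mem_range] at hi hj
      refine Set.mem_biUnion (show j - i ∈ Finset.Icc 1 m from ?_) ?_
      · rw [Finset.mem_Icc]; omega
      · show (pullE h ^ (j - i)) P = P
        have h2 : (pullE h ^ j) = (pullE h ^ i) * (pullE h ^ (j - i)) := by
          rw [← pow_add]; congr 1; omega
        rw [h2, Equiv.Perm.mul_apply] at heq
        exact ((pullE h ^ i).injective heq).symm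
    rcases Nat.lt_or_ge i j with hlt | hge
    · exact key i j hi hj hlt heq
    · exact key j i hj hi (by omega) heq.symm
  · intro P _
    rw [Finset.mem_Icc]
    exact ⟨hEP P, hle P⟩

/-- **finiteness of the number of invariant divisor classes** of degree zero -/
theorem cls_fin (h : Semi ψ σ) (hσ : ∀ j : ℕ, 0 < j → {c : k | (σ ^ j) c = c}.Finite) {x : K}
    (hx : Transcendental k x) (hψx : ψ x = x) {W₁ : Place k K} (hW₁ : pullE h W₁ = W₁) :
    ∃ C : ℕ, ∀ T : Finset (Place k K →₀ ℤ),
      (∀ D ∈ T, ddeg D = 0 ∧ ∃ u : K, u ≠ 0 ∧ act h D - D = divisor k u) → C < T.card →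
      ∃ D ∈ T, ∃ D' ∈ T, D ≠ D' ∧ ∃ z : K, z ≠ 0 ∧ D - D' = divisor k z := by
  classical
  obtain ⟨γ, N, hγ, -⟩ := riemann k K
  set m₀ : ℕ := (γ + 1).toNat with hm₀
  have hfin := finite_inv_eff h hσ hx hψx m₀
  refine ⟨hfin.toFinset.card, fun T hT hcard => ?_⟩
  have key : ∀ D : Place k K →₀ ℤ, ∃ (f : K) (E : Place k K →₀ ℤ), D ∈ T →
      f ≠ 0 ∧ E ∈ hfin.toFinset ∧ E = divisor k f + D + Finsupp.single W₁ (ddeg E) := by
    intro D
    by_cases hD : D ∈ T
    swap
    · exact ⟨0, 0, fun h' => absurd h' hD⟩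
    obtain ⟨hdeg, u, hu, hDu⟩ := hT D hD
    have hex : ∃ m : ℕ, 0 < ell (D + Finsupp.single W₁ (m : ℤ)) := by
      refine ⟨m₀, ?_⟩
      have h1 := hγ (D + Finsupp.single W₁ (m₀ : ℤ))
      rw [ddeg_add, hdeg, ddeg_single, deg_one] at h1
      have h2 : γ + 1 ≤ (m₀ : ℤ) := Int.self_le_toNat _
      push_cast at h1
      omega
    have hm1 := Nat.find_spec hex
    have hm2 : ∀ m' < Nat.find hex, ¬ 0 < ell (D + Finsupp.single W₁ (m' : ℤ)) :=
      fun m' hm' => Nat.find_min hex hm'
    have hm3 : Nat.find hex ≤ m₀ := Nat.find_min' hex (by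
      have h1 := hγ (D + Finsupp.single W₁ (m₀ : ℤ))
      rw [ddeg_add, hdeg, ddeg_single, deg_one] at h1
      have h2 : γ + 1 ≤ (m₀ : ℤ) := Int.self_le_toNat _
      push_cast at h1
      omega)
    set m := Nat.find hex with hm
    set A : Place k K →₀ ℤ := D + Finsupp.single W₁ (m : ℤ) with hA
    have hAdeg : ddeg A = m := by
      rw [hA, ddeg_add, hdeg, ddeg_single, deg_one]; push_cast; ring
    -- dimension one
    have hone : ell A ≤ 1 := by
      set A' : Place k K →₀ ℤ := D + Finsupp.single W₁ ((m : ℤ) - 1) with hA'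
      have hle : A' ≤ A := by
        intro P
        rw [hA, hA', Finsupp.add_apply, Finsupp.add_apply, Finsupp.single_apply,
          Finsupp.single_apply]
        split_ifs <;> omega
      have h1 := ell_le hle
      have hA'deg : ddeg A' = m - 1 := by
        rw [hA', ddeg_add, hdeg, ddeg_single, deg_one]; push_cast; ring
      have h2 : ell A' = 0 := by
        rcases Nat.eq_zero_or_pos m with h0 | h0
        · have : LL A' = ⊥ := LL_eq_bot (by rw [hA'deg, h0]; norm_num)
          unfold ell
          rw [this, finrank_bot]; rfl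
        · have h3 := hm2 (m - 1) (by omega)
          have h4 : ((m - 1 : ℕ) : ℤ) = (m : ℤ) - 1 := by omega
          rw [h4, ← hA'] at h3
          have h5 := ell_nonneg A'
          omega
      rw [h2, hAdeg, hA'deg] at h1
      omega
    obtain ⟨f, hf, hf0⟩ := exists_ne_zero_of_ell_pos hm1
    have hfr : finrank k (LL A) = 1 := by
      have h1 : (finrank k (LL A) : ℤ) ≤ 1 := hone
      have h2 : (0 : ℤ) < finrank k (LL A) := hm1
      omega
    refine ⟨f, divisor k f + A, fun _ => ⟨hf0, ?_, ?_⟩⟩
    · rw [Set.Finite.mem_toFinset]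
      refine ⟨(mem_LL' hf0).1 hf, ?_, ?_⟩
      · -- invariance
        have hψf : ψ f * u ≠ 0 := mul_ne_zero (by simpa using hf0) hu
        have h1 : act h (divisor k f + A) = divisor k (ψ f * u) + A := by
          have h2 : act h D = D + divisor k u := by rw [← hDu]; abel
          rw [map_add, act_divisor, hA, map_add, h2, act_single_fix h hW₁,
            divisor_mul (by simpa using hf0) hu]
          abel
        have h2 : ψ f * u ∈ LL A := by
          rw [mem_LL' hψf, ← h1]
          have h3 := (mem_LL' hf0).1 hf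
          intro W
          rw [act_apply]
          exact h3 _
        obtain ⟨c, hc⟩ := (finrank_eq_one_iff_of_nonzero' (⟨f, hf⟩ : LL A)
          (fun h0 => hf0 (congrArg Subtype.val h0))).1 hfr ⟨_, h2⟩
        have h3 : c • f = ψ f * u := congrArg Subtype.val hc
        have hc0 : c ≠ 0 := by
          rintro rfl
          rw [zero_smul] at h3
          exact hψf h3.symm
        rw [h1, ← h3]
        congr 1
        ext W
        rw [divisor_apply, divisor_apply, Algebra.smul_def,
          W.ord_mul ((map_ne_zero_iff _ (algebraMap k K).injective).2 hc0) hf0, W.ord_const hc0,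
          zero_add]
      · rw [ddeg_add, ddeg_divisor, hAdeg, zero_add]
        exact_mod_cast hm3
    · rw [ddeg_add, ddeg_divisor, hAdeg, zero_add, hA]
      abel
  choose f E hfE using key
  obtain ⟨D, hD, D', hD', hne, heq⟩ := Finset.exists_ne_map_eq_of_card_lt_of_maps_to hcard
    (f := E) (fun D hD => (hfE D hD).2.1)
  obtain ⟨h1, -, h3⟩ := hfE D hD
  obtain ⟨h1', -, h3'⟩ := hfE D' hD'
  refine ⟨D, hD, D', hD', hne, f D' * (f D)⁻¹, mul_ne_zero h1' (inv_ne_zero h1), ?_⟩
  rw [divisor_mul h1' (inv_ne_zero h1), divisor_inv]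
  rw [heq] at h3
  have h4 := h3.symm.trans h3'
  have h5 : divisor k (f D) + D = divisor k (f D') + D' := by
    have := add_right_cancel h4
    exact this
  rw [← sub_eq_add_neg, sub_eq_sub_iff_add_eq_add, add_comm D, h5]

end

end Pool.Agent.R925.Q
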