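import Pool.Agent.R925.Q.Rig
import Pool.Agent.Y157.PS.All

/-! Sections with a nontrivial centraliser: the abstract theorem. -/

set_option autoImplicit false
set_option linter.all false

open Polynomial FF

namespace Pool.Agent.R925.Q

open Pool.Agent.Y157.PS

theorem a_rig : S_RIG := rig a_prol a_divs a_fins (fixq clfq a_g2 a_g4 a_g5)

theorem dec_one {k κ : Type} [Field k] [Field κ] [Algebra k κ] {V : ValuationSubring κ} :
    Dec V (1 : κ ≃ₐ[k] κ) := fun z => Iff.rfl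

/-- powers of Frobenius elements -/
theorem fro_pow {k κ : Type} [Field k] [Field κ] [Algebra k κ] {V : ValuationSubring κ} {q : ℕ}
    {φ : κ ≃ₐ[k] κ} (h : Fro V q φ) (m : ℕ) : Fro V (q ^ m) (φ ^ m) := by
  have hdec : ∀ m : ℕ, Dec V (φ ^ m) := by
    intro m
    induction m with
    | zero => exact dec_one
    | succ m ih => rw [pow_succ]; exact ih.mul h.1
  have hres : ∀ (τ : κ ≃ₐ[k] κ) (hτ : Dec V τ) (n : ℕ), (∀ z ∈ V, τ z - z ^ n ∈ V.nonunits) ↔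
      ∀ z : V, IsLocalRing.residue V ⟨τ z, (hτ z).2 z.2⟩ = IsLocalRing.residue V z ^ n := by
    intro τ hτ n
    have key : ∀ z : V, (τ z - (z : κ) ^ n ∈ V.nonunits) ↔
        IsLocalRing.residue V ⟨τ z, (hτ z).2 z.2⟩ = IsLocalRing.residue V z ^ n := by
      intro z
      rw [← map_pow, ← sub_eq_zero, ← map_sub, residue_zero_iff]
      rfl
    exact ⟨fun h z => (key z).1 (h z z.2), fun h z hz => (key ⟨z, hz⟩).2 (h ⟨z, hz⟩)⟩
  refine ⟨hdec m, (hres _ (hdec m) _).2 ?_⟩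
  have h1 := (hres _ h.1 _).1 h.2
  induction m with
  | zero =>
    intro z
    have h0 : q ^ 0 = 1 := pow_zero q
    rw [h0, pow_one]
    rfl
  | succ m ih =>
    intro z
    have h2 := ih ⟨φ z, (h.1 z).2 z.2⟩
    have h3 := h1 z
    have h4 : (⟨(φ ^ (m + 1)) z, (hdec (m + 1) z).2 z.2⟩ : V) =
        ⟨(φ ^ m) (φ z), (hdec m _).2 ((h.1 z).2 z.2)⟩ := by
      apply Subtype.ext
      show (φ ^ (m + 1)) (z : κ) = _
      rw [pow_succ]
      rfl
    rw [h4]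
    have h5 : IsLocalRing.residue V ⟨(φ ^ m) (φ z), (hdec m _).2 ((h.1 z).2 z.2)⟩ =
        IsLocalRing.residue V ⟨φ z, (h.1 z).2 z.2⟩ ^ (q ^ m) := h2
    rw [h5, h3, ← pow_mul, ← pow_succ']

section

variable {A k κ R M : Type} [CommRing A] [IsDomain A] [IsDiscreteValuationRing A]
    [Finite (IsLocalRing.ResidueField A)] [Field k] [CharZero k] [Algebra A k] [IsFractionRing A k]
    [Field κ] [Algebra k κ] [Algebra A κ] [IsScalarTower A k κ] [IsAlgClosure k κ]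
    [Field R] [Field M] [Algebra κ R] [Algebra R M] [Algebra κ M] [IsScalarTower κ R M]
    {ℓ : ℕ} [Fact ℓ.Prime] {V : ValuationSubring κ} {x : R} {B : Finset κ} {Y : M}

/-- rigidity over a field with a discrete valuation -/
theorem rigA (hVa : ∀ a : A, algebraMap A κ a ∈ V)
    (hVm : ∀ a ∈ IsLocalRing.maximalIdeal A, algebraMap A κ a ∈ V.nonunits)
    (hℓA : IsUnit (ℓ : A)) (hC : Cov ℓ κ R M x B Y) (hG : Good V B) {φ₀ : κ ≃ₐ[k] κ} {n : ℕ}
    (hn : 0 < n) (hφ₀ : Fro V (Nat.card (IsLocalRing.ResidueField A) ^ n) φ₀)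
    {φ : M ≃+* M} (hL : Lift κ M (algebraMap R M x) φ (φ₀ : κ ≃+* κ))
    (δ : M ≃ₐ[R] M) (hδ : ∀ z, δ (φ z) = φ (δ z)) (hY : δ Y = Y) : δ = 1 := by
  classical
  haveI : IsAlgClosed κ := IsAlgClosure.isAlgClosed k
  haveI : CharZero κ := charZero_of_injective_algebraMap (algebraMap k κ).injective
  haveI : Algebra.IsAlgebraic k κ := IsAlgClosure.isAlgebraic
  obtain ⟨F0, iF0, r, hr, ⟨D⟩⟩ := a_ndisc A k κ V hVa hVm ℓ hℓA
  obtain ⟨ϖ, hϖ⟩ := IsDiscreteValuationRing.exists_irreducible A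
  obtain ⟨δ₀, hδ₀⟩ := IsAlgClosed.exists_pow_nat_eq (algebraMap A κ ϖ) (Fact.out : ℓ.Prime).pos
  have hϖ0 : algebraMap A κ ϖ ≠ 0 := by
    rw [IsScalarTower.algebraMap_apply A k κ]
    refine (_root_.map_ne_zero _).2 ?_
    rw [Ne, map_eq_zero_iff _ (IsFractionRing.injective A k)]
    exact hϖ.ne_zero
  have hBase : Base ℓ A k κ V ϖ δ₀ 1 := by
    refine ⟨hℓA, hVa, hVm, hϖ, ?_, ⟨algebraMap A k ϖ, ?_⟩, ?_⟩
    · intro h
      have h1 := Int.natCast_dvd_natCast.1 (by exact_mod_cast h : (ℓ : ℤ) ∣ ((1 : ℕ) : ℤ))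
      exact (Fact.out : ℓ.Prime).one_lt.ne' (Nat.dvd_one.1 h1)
    · rw [hδ₀, IsScalarTower.algebraMap_apply A k κ]
    · rw [hδ₀, zpow_one, div_self hϖ0]
      exact isU_one
  obtain ⟨p, a, hp, hchar, ha, hq, hF, hcop⟩ := Pool.Agent.Y748.PS.res_facts hBase hr
  haveI : Fact p.Prime := ⟨hp⟩
  obtain ⟨e0, he0⟩ : B.Nonempty := by
    rw [← Finset.card_pos]
    have := hC.three
    omega
  have hRot := a_gex ℓ κ R M x B Y hC F0 V r hr hG D
  obtain ⟨O, -, -, hO, -⟩ := hRot e0 he0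
  have hun : ∀ O' : ValuationSubring M, Gauss V (algebraMap R M x) O' → O' = O :=
    fun O' h => a_gun ℓ κ R M x B Y hC V hRot O' O h hO
  have hF' : ∀ c : F0, ∃ m : ℕ, 0 < m ∧
      c ^ ((Nat.card (IsLocalRing.ResidueField A) ^ n) ^ m) = c := by
    intro c
    obtain ⟨m, hm, hmc⟩ := hF c
    refine ⟨m, hm, ?_⟩
    rw [← pow_mul, mul_comm n m]
    exact Pool.Agent.Y732.PS.pow_orbit hmc n
  exact a_rig ℓ k κ R M x B Y hC F0 V r hr hG hBase.isU D p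
    (Nat.card (IsLocalRing.ResidueField A) ^ n) (a * n) (Nat.mul_pos ha hn)
    (by rw [hq, pow_mul]) hF' O hO hun φ φ₀ hL hφ₀.1 hφ₀.2 δ hδ hY

omit [IsAlgClosure k κ] [CharZero k] in
theorem exists_frob {φ₀ : κ ≃ₐ[k] κ} (hφ₀ : Fro V (Nat.card (IsLocalRing.ResidueField A)) φ₀)
    (U : Subgroup (κ ≃ₐ[k] κ)) (hU : U.index ≠ 0) :
    ∃ n : ℕ, 0 < n ∧ φ₀ ^ n ∈ U ∧
      Fro V (Nat.card (IsLocalRing.ResidueField A) ^ n) (φ₀ ^ n) := by
  obtain ⟨n, hn, -, hn'⟩ := Subgroup.exists_pow_mem_of_index_ne_zero hU φ₀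
  exact ⟨n, hn, hn', fro_pow hφ₀ n⟩

end

/-- every subgroup of finite index contains an element which is rigid: the automorphisms of `M` over
`κ(x, Y)` which commute with a lift of it are trivial -/
def Rig (k κ R M : Type) [Field k] [Field κ] [Field R] [Field M] [Algebra k κ]
    [Algebra κ R] [Algebra R M] [Algebra κ M] (x : R) (Y : M) : Prop :=
  ∀ U : Subgroup (κ ≃ₐ[k] κ), U.index ≠ 0 → ∃ φ₀ ∈ U, ∀ φ : M ≃+* M,
    Lift κ M (algebraMap R M x) φ (φ₀ : κ ≃+* κ) → ∀ δ : M ≃ₐ[R] M, (∀ z, δ (φ z) = φ (δ z)) →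
      δ Y = Y → δ = 1

/-- inertia elements -/
def Rot (κ R M : Type) [Field κ] [Field R] [Field M] [Algebra κ R] [Algebra R M] [Algebra κ M]
    (x : R) (B : Finset κ) (Y : M) : Prop :=
  ∀ e ∈ B, ∃ (c : M ≃ₐ[R] M) (W : Place κ M), Fixes W c ∧
    0 < W.ord (algebraMap R M x - algebraMap κ M e) ∧ c Y ≠ Y

/-- a semilinear action of `Gal(κ/k)` on `M` which fixes `x` -/
structure SecR (k κ R M : Type) [Field k] [Field κ] [Field R] [Field M] [Algebra k κ]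
    [Algebra κ R] [Algebra R M] [Algebra κ M] (x : R) (s : (κ ≃ₐ[k] κ) →* RingAut M) : Prop where
  const : ∀ σ c, s σ (algebraMap κ M c) = algebraMap κ M (σ c)
  fixx : ∀ σ, s σ (algebraMap R M x) = algebraMap R M x

section dvr

variable {A k κ R M : Type} [CommRing A] [IsDomain A] [IsDiscreteValuationRing A]
    [Finite (IsLocalRing.ResidueField A)] [Field k] [CharZero k] [Algebra A k] [IsFractionRing A k]
    [Field κ] [Algebra k κ] [Algebra A κ] [IsScalarTower A k κ] [IsAlgClosure k κ]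
    [Field R] [Field M] [Algebra κ R] [Algebra R M] [Algebra κ M] [IsScalarTower κ R M]
    {ℓ : ℕ} [Fact ℓ.Prime] {V : ValuationSubring κ} {x : R} {B : Finset κ} {Y : M}

theorem rig_of_dvr (hVa : ∀ a : A, algebraMap A κ a ∈ V)
    (hVm : ∀ a ∈ IsLocalRing.maximalIdeal A, algebraMap A κ a ∈ V.nonunits)
    (hℓA : IsUnit (ℓ : A)) (hC : Cov ℓ κ R M x B Y) (hG : Good V B) : Rig k κ R M x Y := by
  haveI : IsAlgClosed κ := IsAlgClosure.isAlgClosed k
  haveI : Algebra.IsAlgebraic k κ := IsAlgClosure.isAlgebraic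
  intro U hU
  obtain ⟨φ₀, hφ₀⟩ := Pool.Agent.Y183.PS.fro A k κ V hVa hVm
  obtain ⟨n, hn, hnU, hfro⟩ := exists_frob hφ₀ U hU
  exact ⟨φ₀ ^ n, hnU, fun φ hL δ => rigA hVa hVm hℓA hC hG hn hfro hL δ⟩

include k in
theorem rot_of_dvr (hVa : ∀ a : A, algebraMap A κ a ∈ V)
    (hVm : ∀ a ∈ IsLocalRing.maximalIdeal A, algebraMap A κ a ∈ V.nonunits)
    (hℓA : IsUnit (ℓ : A)) (hC : Cov ℓ κ R M x B Y) (hG : Good V B) : Rot κ R M x B Y := by
  haveI : IsAlgClosed κ := IsAlgClosure.isAlgClosed k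
  haveI : CharZero κ := charZero_of_injective_algebraMap (algebraMap k κ).injective
  obtain ⟨F0, iF0, r, hr, ⟨D⟩⟩ := a_ndisc A k κ V hVa hVm ℓ hℓA
  have hRot := a_gex ℓ κ R M x B Y hC F0 V r hr hG D
  intro e he
  obtain ⟨-, c, W, -, -, h1, h2, h3⟩ := hRot e he
  exact ⟨c, W, h1, h2, h3⟩

end dvr

/-- rigidity over an algebraic extension -/
theorem rig_up {k κ R M : Type} [Field k] [Field κ] [Algebra k κ] [Field R] [Field M]
    [Algebra κ R] [Algebra R M] [Algebra κ M] {x : R} {Y : M} (k₁ : IntermediateField k κ)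
    (h : Rig k₁ κ R M x Y) : Rig k κ R M x Y := by
  intro U hU
  let f : (κ ≃ₐ[k₁] κ) →* (κ ≃ₐ[k] κ) :=
    { toFun := AlgEquiv.restrictScalars k
      map_one' := rfl
      map_mul' := fun _ _ => rfl }
  obtain ⟨φ₀, hφ₀, h1⟩ := h (U.comap f) (by
    rw [Subgroup.index_comap]
    exact fun h0 => hU (Subgroup.index_eq_zero_of_relIndex_eq_zero h0))
  exact ⟨f φ₀, hφ₀, fun φ hL => h1 φ ⟨hL.con, hL.fix⟩⟩

section

variable {k κ R M : Type} [Field k] [CharZero k]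
    [Field κ] [Algebra k κ] [IsAlgClosure k κ]
    [Field R] [Field M] [Algebra κ R] [Algebra R M] [Algebra κ M] [IsScalarTower κ R M]
    {ℓ : ℕ} [Fact ℓ.Prime] {x : R} {B : Finset κ} {Y : M}

/-- two elements which commute with the image of an open subgroup -/
theorem cent_zpow (hR : Rig k κ R M x Y) (hC : Cov ℓ κ R M x B Y)
    {s : (κ ≃ₐ[k] κ) →* RingAut M} (hs : SecR k κ R M x s) (U U' : Subgroup (κ ≃ₐ[k] κ))
    (hU : U.index ≠ 0) (hU' : U'.index ≠ 0) (γ γ' : M ≃ₐ[R] M) (h1 : γ ≠ 1)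
    (hγ : ∀ σ ∈ U, ∀ z, γ (s σ z) = s σ (γ z)) (hγ' : ∀ σ ∈ U', ∀ z, γ' (s σ z) = s σ (γ' z)) :
    γ ^ ℓ = 1 ∧ γ Y ≠ Y ∧ ∃ i : ℕ, γ' = γ ^ i := by
  haveI : IsAlgClosed κ := IsAlgClosure.isAlgClosed k
  haveI : CharZero κ := charZero_of_injective_algebraMap (algebraMap k κ).injective
  haveI : Algebra.IsAlgebraic k κ := IsAlgClosure.isAlgebraic
  have hp := (Fact.out : ℓ.Prime).pos
  obtain ⟨φ₀, ⟨hnU, hnU'⟩, hrig⟩ := hR (U ⊓ U') (Subgroup.index_inf_ne_zero hU hU')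
  have hL : Lift κ M (algebraMap R M x) (s φ₀) (φ₀ : κ ≃+* κ) :=
    ⟨fun c => hs.const _ c, hs.fixx _⟩
  have rg : ∀ δ : M ≃ₐ[R] M, (∀ z, δ (s φ₀ z) = s φ₀ (δ z)) → δ Y = Y → δ = 1 :=
    fun δ => hrig (s φ₀) hL δ
  have hY0 : Y ≠ 0 := by
    intro h
    have h2 := hC.eqn
    rw [h, zero_pow hp.ne'] at h2
    have h3 := Finset.prod_eq_zero_iff.1 h2.symm
    obtain ⟨e, -, he⟩ := h3
    have h4 : Transcendental κ (algebraMap R M x) :=
      (transcendental_algebraMap_iff (algebraMap R M).injective).2 hC.rat.trans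
    apply h4
    rw [sub_eq_zero.1 he]
    exact isAlgebraic_algebraMap _
  have hconst : ∀ (γ : M ≃ₐ[R] M) (c : κ), γ (algebraMap κ M c) = algebraMap κ M c := by
    intro γ c
    rw [IsScalarTower.algebraMap_apply κ R M, γ.commutes]
  have hγY : γ Y ≠ Y := fun h => h1 (rg γ (hγ _ hnU) h)
  obtain ⟨ζ, hζ, hζY⟩ := hC.actY hY0 γ
  obtain ⟨ζ', hζ', hζY'⟩ := hC.actY hY0 γ'
  have hζ1 : ζ ≠ 1 := by
    rintro rfl
    apply hγY
    rw [hζY, map_one, one_mul]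
  have hpowY : ∀ n : ℕ, (γ ^ n) Y = algebraMap κ M (ζ ^ n) * Y := by
    intro n
    induction n with
    | zero => rw [pow_zero, pow_zero, map_one, one_mul]; rfl
    | succ n ih =>
      rw [pow_succ, pow_succ]
      change (γ ^ n) (γ Y) = _
      rw [hζY, map_mul, hconst, ih, map_mul]
      ring
  have hcp : ∀ m : ℕ, ∀ z, (γ ^ m) (s φ₀ z) = s φ₀ ((γ ^ m) z) := by
    intro m
    induction m with
    | zero => intro z; rfl
    | succ m ih =>
      intro z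
      rw [pow_succ]
      change (γ ^ m) (γ (s φ₀ z)) = s φ₀ ((γ ^ m) (γ z))
      rw [hγ _ hnU, ih]
  have hγℓ : γ ^ ℓ = 1 := by
    apply rg _ (hcp ℓ)
    rw [hpowY, hζ, map_one, one_mul]
  refine ⟨hγℓ, hγY, ?_⟩
  have hprim : IsPrimitiveRoot ζ ℓ := by
    have h1 : orderOf ζ = ℓ := orderOf_eq_prime hζ hζ1
    rw [← h1]
    exact IsPrimitiveRoot.orderOf ζ
  obtain ⟨i, -, hi⟩ := hprim.eq_pow_of_pow_eq_one hζ'
  refine ⟨i, ?_⟩
  have hinv : ∀ z, ((γ ^ i)⁻¹ : M ≃ₐ[R] M) (s φ₀ z) = s φ₀ (((γ ^ i)⁻¹ : M ≃ₐ[R] M) z) := by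
    intro z
    apply (γ ^ i).injective
    rw [hcp]
    have h5 : ∀ w, (γ ^ i) (((γ ^ i)⁻¹ : M ≃ₐ[R] M) w) = w := fun w => (γ ^ i).apply_symm_apply w
    rw [h5, h5]
  have h6 : (γ ^ i)⁻¹ * γ' = 1 := by
    apply rg
    · intro z
      change ((γ ^ i)⁻¹ : M ≃ₐ[R] M) (γ' (s φ₀ z)) = s φ₀ (((γ ^ i)⁻¹ : M ≃ₐ[R] M) (γ' z))
      rw [hγ' _ hnU', hinv]
    · change (γ ^ i).symm (γ' Y) = Y
      rw [AlgEquiv.symm_apply_eq, hpowY, hi, hζY']
  exact (inv_mul_eq_one.1 h6).symm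

/-- **sections with a nontrivial centraliser** -/
theorem afs (hR : Rig k κ R M x Y) (hC : Cov ℓ κ R M x B Y)
    {s : (κ ≃ₐ[k] κ) →* RingAut M} (hs : SecR k κ R M x s) (U : Subgroup (κ ≃ₐ[k] κ))
    (hU : U.index ≠ 0) (γ : M ≃ₐ[R] M) (h1 : γ ≠ 1)
    (hγ : ∀ σ ∈ U, ∀ z, γ (s σ z) = s σ (γ z)) :
    ∃ W : Place κ M, Fixes W γ ∧ (∀ W' : Place κ M, Fixes W' γ → W' = W) ∧
      (∀ σ, Fixes W (s σ)) ∧ ∃ e ∈ B, 0 < W.ord (algebraMap R M x - algebraMap κ M e) ∧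
        ∀ σ : κ ≃ₐ[k] κ, σ e = e := by
  haveI : IsAlgClosed κ := IsAlgClosure.isAlgClosed k
  haveI : CharZero κ := charZero_of_injective_algebraMap (algebraMap k κ).injective
  obtain ⟨hγℓ, hγY, -⟩ := cent_zpow hR hC hs U U hU hU γ γ h1 hγ hγ
  obtain ⟨W, hW⟩ := a_exf ℓ κ R M x B Y hC γ hγℓ h1
  obtain ⟨-, e, he, hWe, hWY⟩ := hC.fixed a_stab W γ hW h1
  have hun : ∀ W' : Place κ M, Fixes W' γ → W' = W := fun W' hW' =>
    a_unq ℓ κ R M x B Y hC γ hγℓ h1 W' W hW' hW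
  have smul : ∀ (σ σ' : κ ≃ₐ[k] κ) z, s (σ * σ') z = s σ (s σ' z) := by
    intro σ σ' z
    rw [map_mul]; rfl
  have sinv' : ∀ (σ : κ ≃ₐ[k] κ) z, s σ (s σ⁻¹ z) = z := by
    intro σ z
    rw [← smul, mul_inv_cancel, map_one]; rfl
  -- the image of the section fixes `W`
  have hfix : ∀ σ : κ ≃ₐ[k] κ, Fixes W (s σ) := by
    intro σ
    obtain ⟨η, hη⟩ := conjR hC.rat (s σ) (σ : κ ≃+* κ) (hs.const σ) (hs.fixx σ) γ
    have hη' : ∀ z, s σ (η z) = γ (s σ z) := by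
      intro z
      rw [hη, RingEquiv.apply_symm_apply]
    have hηc : ∀ τ ∈ U.normalCore, ∀ z, η (s τ z) = s τ (η z) := by
      intro τ hτ z
      have h2 : σ * τ * σ⁻¹ ∈ U :=
        Subgroup.normalCore_le U ((Subgroup.normalCore_normal U).conj_mem τ hτ σ)
      apply (s σ).injective
      rw [hη', ← smul]
      have h3 : σ * τ = (σ * τ * σ⁻¹) * σ := by group
      rw [h3, smul, hγ _ h2, ← hη', ← smul, ← smul, ← h3]
    have hcore : U.normalCore.index ≠ 0 := by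
      haveI : U.FiniteIndex := ⟨hU⟩
      exact (Subgroup.finiteIndex_normalCore U).index_ne_zero
    obtain ⟨-, -, i, hi⟩ := cent_zpow hR hC hs U U.normalCore hU hcore γ η h1 hγ hηc
    have hη1 : η ≠ 1 := by
      intro h
      apply h1
      ext z
      have h4 := hη' (s σ⁻¹ z)
      rw [h, sinv'] at h4
      change s σ (s σ⁻¹ z) = _ at h4
      rw [sinv'] at h4
      exact h4.symm
    have hηℓ : η ^ ℓ = 1 := by rw [hi, ← pow_mul, mul_comm, pow_mul, hγℓ, one_pow]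
    let Wσ := Place.comapEquiv W (s σ) (σ : κ ≃+* κ) (hs.const σ)
    have h5 : Wσ = W := by
      refine a_unq ℓ κ R M x B Y hC η hηℓ hη1 Wσ W ?_ ?_
      · intro z
        change W.ord (s σ (η z)) = W.ord (s σ z)
        rw [hη', hW]
      · rw [hi]; exact hW.pow i
    intro z
    change Wσ.ord z = W.ord z
    rw [h5]
  refine ⟨W, hW, hun, hfix, e, he, hWe, ?_⟩
  intro σ
  by_contra hne
  have h2 := hfix σ (algebraMap R M x - algebraMap κ M e)
  rw [map_sub, hs.fixx, hs.const] at h2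
  have h3 := ord_sub_const hWe (Ne.symm hne)
  omega

/-- sections at a branch point have a nontrivial centraliser -/
theorem cusp (hRot : Rot κ R M x B Y) (hC : Cov ℓ κ R M x B Y)
    {s : (κ ≃ₐ[k] κ) →* RingAut M} (hs : SecR k κ R M x s)
    (hsY : ∀ σ, ∃ c : κ, s σ Y = algebraMap κ M c * Y) (U : Subgroup (κ ≃ₐ[k] κ))
    (hU : U.index ≠ 0) (W : Place κ M) {e : κ} (he : e ∈ B)
    (hWe : 0 < W.ord (algebraMap R M x - algebraMap κ M e)) (hfix : ∀ σ ∈ U, Fixes W (s σ)) :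
    ∃ γ : M ≃ₐ[R] M, γ ≠ 1 ∧ Fixes W γ ∧ ∃ U' : Subgroup (κ ≃ₐ[k] κ), U'.index ≠ 0 ∧
      ∀ σ ∈ U', ∀ z, γ (s σ z) = s σ (γ z) := by
  classical
  haveI : IsAlgClosed κ := IsAlgClosure.isAlgClosed k
  haveI : CharZero κ := charZero_of_injective_algebraMap (algebraMap k κ).injective
  haveI : Algebra.IsAlgebraic k κ := IsAlgClosure.isAlgebraic
  have hp := (Fact.out : ℓ.Prime).pos
  have hY0 : Y ≠ 0 := by
    intro h
    have h2 := hC.ordY W he hWe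
    rw [h, W.ord_zero] at h2
    exact zero_ne_one h2
  have hconst : ∀ (γ : M ≃ₐ[R] M) (c : κ), γ (algebraMap κ M c) = algebraMap κ M c := by
    intro γ c
    rw [IsScalarTower.algebraMap_apply κ R M, γ.commutes]
  obtain ⟨c, We, hc, hWc, hcY⟩ := hRot e he
  have hnor : Normal R M := by
    have := hC.gal
    infer_instance
  obtain ⟨g, hg⟩ := a_conj R M W.O We.O (trace_eq hC.rat e hWe hWc)
  have hgW : ∀ z, We.ord z = W.ord (g z) := by
    let W1 := Place.comapEquiv W (g : M ≃+* M) (RingEquiv.refl κ) (hconst g)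
    have h1 : We = W1 := by
      apply Place.ext_O
      ext z
      rw [hg, Place.mem_O, Place.mem_O]
      unfold Place.Reg
      change g z = 0 ∨ _ ↔ z = 0 ∨ _
      rw [map_eq_zero_iff g g.injective]
      rfl
    intro z
    rw [h1]; rfl
  let c' : M ≃ₐ[R] M := g * c * g⁻¹
  have hc'z : ∀ z, c' z = g (c (g⁻¹ z)) := fun z => rfl
  have hginv : ∀ z, g (g⁻¹ z) = z := fun z => g.apply_symm_apply z
  have hc' : Fixes W c' := by
    intro z
    rw [hc'z, ← hgW, hc, hgW, hginv]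
  have hY' : W.ord Y = 1 := hC.ordY W he hWe
  have hc'Y : c' Y ≠ Y := by
    intro h
    obtain ⟨ξ, hξ, h1⟩ := hC.actY hY0 g⁻¹
    rw [hc'z, h1, map_mul, hconst, map_mul, hconst] at h
    have h2 : g (g⁻¹ Y) = Y := hginv Y
    rw [h1, map_mul, hconst] at h2
    have hξ0 : algebraMap κ M ξ ≠ 0 := by
      intro h0
      rw [h0, zero_mul] at h2
      exact hY0 h2.symm
    have h3 : g (c Y) = g Y := mul_left_cancel₀ hξ0 (h.trans h2.symm)
    exact hcY (g.injective h3)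
  obtain ⟨ζ, hζ, hζY⟩ := hC.actY hY0 c'
  have smul : ∀ (σ σ' : κ ≃ₐ[k] κ) z, s (σ * σ') z = s σ (s σ' z) := by
    intro σ σ' z
    rw [map_mul]; rfl
  refine ⟨c', ?_, hc', U ⊓ MulAction.stabilizer (κ ≃ₐ[k] κ) ζ, ?_, ?_⟩
  · intro h
    rw [h] at hc'Y
    exact hc'Y rfl
  · refine Subgroup.index_inf_ne_zero hU ?_
    rw [MulAction.index_stabilizer]
    have hfin : (MulAction.orbit (κ ≃ₐ[k] κ) ζ).Finite := by
      refine ((X ^ ℓ - C (1 : κ)).roots.toFinset.finite_toSet).subset ?_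
      rintro _ ⟨σ, rfl⟩
      show σ ζ ∈ _
      rw [Finset.mem_coe, Multiset.mem_toFinset, mem_roots (X_pow_sub_C_ne_zero hp 1)]
      simp only [IsRoot.def, eval_sub, eval_pow, eval_X, eval_C]
      rw [← map_pow, hζ, map_one, sub_self]
    haveI : Finite (MulAction.orbit (κ ≃ₐ[k] κ) ζ) := hfin.to_subtype
    haveI : Nonempty (MulAction.orbit (κ ≃ₐ[k] κ) ζ) := ⟨⟨ζ, MulAction.mem_orbit_self ζ⟩⟩
    rw [Set.ncard]
    exact (Nat.card_pos (α := MulAction.orbit (κ ≃ₐ[k] κ) ζ)).ne'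
  · rintro σ ⟨hσU, hσζ⟩ z
    have hσζ' : σ ζ = ζ := hσζ
    obtain ⟨η, hη⟩ := conjR hC.rat (s σ) (σ : κ ≃+* κ) (hs.const σ) (hs.fixx σ) c'
    have hη' : ∀ z, s σ (η z) = c' (s σ z) := by
      intro z
      rw [hη, RingEquiv.apply_symm_apply]
    obtain ⟨b, hb⟩ := hsY σ
    have hηY : η Y = algebraMap κ M ζ * Y := by
      apply (s σ).injective
      rw [hη', map_mul, hs.const, hσζ', hb, map_mul, hconst, hζY]
      ring
    have hηW : Fixes W η := by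
      intro z
      have h1 : W.ord (s σ (η z)) = W.ord (η z) := hfix σ hσU _
      rw [← h1, hη', hc', hfix σ hσU]
    have h1 : c'⁻¹ * η = 1 := by
      refine hC.stabR a_stab W _ (hc'.inv.mul hηW) Y hY' ?_
      change c'.symm (η Y) = Y
      rw [AlgEquiv.symm_apply_eq, hηY, hζY]
    have h2 : η = c' := (inv_mul_eq_one.1 h1).symm
    rw [← hη', h2]

end

end Pool.Agent.R925.Q
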