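import Pool.Agent.R925.Q.Afs

/-! Sections with a nontrivial centraliser: transfer to Galois groups of function fields. -/

set_option autoImplicit false
set_option linter.all false

open Polynomial FF

namespace Pool.Agent.R925.Q

open Pool.Agent.Y157.PS

/-- `γ` fixes the constants and `x`, and commutes with `S σ` for `σ ∈ U` -/
structure Com {κ' G F N : Type} [Group G] [Field F] [Field N] [Algebra F N] (cst : κ' → N) (x : F)
    (S : G →* (N ≃ₐ[F] N)) (U : Subgroup G) (γ : N ≃+* N) : Prop where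
  con : ∀ c, γ (cst c) = cst c
  fix : γ (algebraMap F N x) = algebraMap F N x
  com : ∀ σ ∈ U, ∀ z, γ (S σ z) = S σ (γ z)

section absM

variable {k κ R F M N : Type} [Field k] [CharZero k]
    [Field κ] [Algebra k κ] [IsAlgClosure k κ]
    [Field R] [Field F] [Field M] [Field N] [Algebra κ R] [Algebra R M] [Algebra κ M]
    [IsScalarTower κ R M] [Algebra F N]

omit [Field k] [CharZero k] [IsAlgClosure k κ] [Algebra k κ] in
/-- an automorphism of `N` over `κ(x)` gives an element of `Gal(M/R)` -/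
theorem exists_gal {x' : R} (hrat : RatF κ x') (eqv : M ≃+* N) {x : F}
    (hx : eqv (algebraMap R M x') = algebraMap F N x) (γ : N ≃+* N)
    (h1 : ∀ c : κ, γ (eqv (algebraMap κ M c)) = eqv (algebraMap κ M c))
    (h2 : γ (algebraMap F N x) = algebraMap F N x) :
    ∃ g : M ≃ₐ[R] M, ∀ z, eqv (g z) = γ (eqv z) := by
  let g0 : M ≃+* M := (eqv.trans γ).trans eqv.symm
  have hg0 : ∀ z, eqv (g0 z) = γ (eqv z) := fun z => eqv.apply_symm_apply _
  have hR : ∀ t : R, g0 (algebraMap R M t) = algebraMap R M t := by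
    intro t
    have ht : t ∈ IntermediateField.adjoin κ {x'} := by rw [hrat.gen]; trivial
    induction ht using IntermediateField.adjoin_induction with
    | mem y hy =>
      rw [Set.mem_singleton_iff] at hy
      subst hy
      apply eqv.injective
      rw [hg0, hx, h2]
    | algebraMap c =>
      apply eqv.injective
      rw [hg0, ← IsScalarTower.algebraMap_apply, h1]
    | add a b _ _ ha hb => rw [map_add, map_add, ha, hb]
    | inv a _ ha => rw [map_inv₀, map_inv₀, ha]
    | mul a b _ _ ha hb => rw [map_mul, map_mul, ha, hb]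
  exact ⟨AlgEquiv.ofRingEquiv (f := g0) hR, hg0⟩

/-- the abstract form -/
theorem absN {ℓ : ℕ} [Fact ℓ.Prime] (δ : κ) (hδ0 : δ ≠ 0)
    (x' : R) (B : Finset κ) (Y' : M)
    (hCov : Cov ℓ κ R M x' B Y') (hRig : Rig k κ R M x' Y') (hRot : Rot κ R M x' B Y') (eqv : M ≃+* N) (x y : F)
    (hx : eqv (algebraMap R M x') = algebraMap F N x)
    (hy : eqv Y' = eqv (algebraMap κ M δ) * algebraMap F N y)
    (S : (κ ≃ₐ[k] κ) →* (N ≃ₐ[F] N))
    (hcompat : ∀ σ c, S σ (eqv (algebraMap κ M c)) = eqv (algebraMap κ M (σ c))) :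
    (∀ (U : Subgroup (κ ≃ₐ[k] κ)), U.index ≠ 0 → ∀ γ : N ≃+* N, γ ≠ RingEquiv.refl N →
      Com (fun c : κ => eqv (algebraMap κ M c)) x S U γ →
      ∃ W : ValuationSubring N,
        (∀ c : κ, eqv (algebraMap κ M c) ∈ W) ∧
        (∀ z ∈ W, ∃ c : κ, z - eqv (algebraMap κ M c) ∈ W.nonunits) ∧
        (∃ e ∈ B, (∀ σ : κ ≃ₐ[k] κ, σ e = e) ∧
          algebraMap F N x - eqv (algebraMap κ M e) ∈ W.nonunits) ∧
        (∀ (σ : κ ≃ₐ[k] κ) z, S σ z ∈ W ↔ z ∈ W) ∧ (∀ z, γ z ∈ W ↔ z ∈ W) ∧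
        ∀ W' : ValuationSubring N, (∀ c : κ, eqv (algebraMap κ M c) ∈ W') → W' ≠ ⊤ →
          (∀ z, γ z ∈ W' ↔ z ∈ W') → W' = W) ∧
    (∀ (U U' : Subgroup (κ ≃ₐ[k] κ)), U.index ≠ 0 → U'.index ≠ 0 → ∀ γ γ' : N ≃+* N,
      γ ≠ RingEquiv.refl N → Com (fun c : κ => eqv (algebraMap κ M c)) x S U γ →
      Com (fun c : κ => eqv (algebraMap κ M c)) x S U' γ' →
      (∀ z, γ^[ℓ] z = z) ∧ ∃ i : ℕ, ∀ z, γ' z = γ^[i] z) ∧
    (∀ (U : Subgroup (κ ≃ₐ[k] κ)), U.index ≠ 0 → ∀ W : ValuationSubring N,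
      (∀ c : κ, eqv (algebraMap κ M c) ∈ W) →
      (∃ e ∈ B, algebraMap F N x - eqv (algebraMap κ M e) ∈ W.nonunits) →
      (∀ σ ∈ U, ∀ z, S σ z ∈ W ↔ z ∈ W) →
      ∃ γ : N ≃+* N, γ ≠ RingEquiv.refl N ∧ (∀ z, γ z ∈ W ↔ z ∈ W) ∧
        ∃ U' : Subgroup (κ ≃ₐ[k] κ), U'.index ≠ 0 ∧
          Com (fun c : κ => eqv (algebraMap κ M c)) x S U' γ) := by
  classical
  have hkb : IsAlgClosed κ := IsAlgClosure.isAlgClosed k
  have hch : CharZero κ := charZero_of_injective_algebraMap (algebraMap k κ).injective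
  let s' : (κ ≃ₐ[k] κ) →* RingAut M := conjSec eqv S
  have hs' : ∀ σ z, eqv (s' σ z) = S σ (eqv z) := fun σ z => conjSec_apply eqv S σ z
  have hconst : ∀ σ c, s' σ (algebraMap κ M c) = algebraMap κ M (σ c) := by
    intro σ c
    apply eqv.injective
    rw [hs', hcompat]
  have hbase : ∀ σ (z : F) (w : M), eqv w = algebraMap F N z → s' σ w = w := by
    intro σ z w hw
    apply eqv.injective
    rw [hs', hw]
    exact (S σ).commutes z
  have hyY : Y' = algebraMap κ M δ * eqv.symm (algebraMap F N y) := by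
    apply eqv.injective
    rw [hy, map_mul, eqv.apply_symm_apply]
  have hSec : SecR k κ R M x' s' := ⟨hconst, fun σ => hbase σ x _ hx⟩
  have hsY : ∀ σ, ∃ c : κ, s' σ Y' = algebraMap κ M c * Y' := by
    intro σ
    refine ⟨σ δ / δ, ?_⟩
    have h2 : algebraMap κ M (σ δ / δ) * Y' =
        algebraMap κ M (σ δ) * eqv.symm (algebraMap F N y) := by
      rw [hyY, ← mul_assoc, ← map_mul, div_mul_cancel₀ _ hδ0]
    rw [h2]
    conv_lhs => rw [hyY]
    rw [map_mul, hconst, hbase σ y _ (eqv.apply_symm_apply _)]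
  have hgal : ∀ γ : N ≃+* N, ∀ U : Subgroup (κ ≃ₐ[k] κ),
      Com (fun c : κ => eqv (algebraMap κ M c)) x S U γ →
      ∃ g : M ≃ₐ[R] M, (∀ z, eqv (g z) = γ (eqv z)) ∧ ∀ σ ∈ U, ∀ z, g (s' σ z) = s' σ (g z) := by
    intro γ U h
    obtain ⟨g, hg⟩ := exists_gal hCov.rat eqv hx γ h.con h.fix
    refine ⟨g, hg, fun σ hσ z => ?_⟩
    apply eqv.injective
    rw [hg, hs', hs', hg, h.com σ hσ]
  have hne : ∀ (γ : N ≃+* N) (g : M ≃ₐ[R] M), (∀ z, eqv (g z) = γ (eqv z)) →
      γ ≠ RingEquiv.refl N → g ≠ 1 := by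
    intro γ g hg h1 h2
    apply h1
    ext z
    have h3 := hg (eqv.symm z)
    rw [h2, eqv.apply_symm_apply] at h3
    rw [← h3]
    exact eqv.apply_symm_apply z
  have hmem : ∀ (Q : Place κ M) (z : N), z ∈ Q.O.comap (eqv.symm : N →+* M) ↔ eqv.symm z ∈ Q.O :=
    fun Q z => Iff.rfl
  -- valuation rings of `N` and places of `M`
  have hplace : ∀ W' : ValuationSubring N, (∀ c : κ, eqv (algebraMap κ M c) ∈ W') → W' ≠ ⊤ →
      ∃ Q : Place κ M, Q.O = W'.comap (eqv : M →+* N) := by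
    intro W' hW'1 hW'2
    have htop : W'.comap (eqv : M →+* N) ≠ ⊤ := by
      intro h0
      apply hW'2
      ext z
      refine ⟨fun _ => trivial, fun _ => ?_⟩
      have h1 : eqv.symm z ∈ W'.comap (eqv : M →+* N) := by rw [h0]; trivial
      have h2 : eqv (eqv.symm z) ∈ W' := h1
      rwa [eqv.apply_symm_apply] at h2
    obtain ⟨Q, hQ, -⟩ := hCov.loc _ (fun c => hW'1 c) htop
    exact ⟨Q, hQ⟩
  have hback : ∀ (W' : ValuationSubring N) (Q : Place κ M), Q.O = W'.comap (eqv : M →+* N) →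
      W' = Q.O.comap (eqv.symm : N →+* M) := by
    intro W' Q hQ
    ext z
    rw [hmem, hQ]
    show z ∈ W' ↔ eqv (eqv.symm z) ∈ W'
    rw [eqv.apply_symm_apply]
  refine ⟨?_, ?_, ?_⟩
  · intro U hU γ h1 hγ
    obtain ⟨g, hg, hgc⟩ := hgal γ U hγ
    obtain ⟨Q, hQg, hQun, hQfix, e, heB, hQe, hfix⟩ :=
      afs hRig hCov hSec U hU g (hne γ g hg h1) hgc
    refine ⟨Q.O.comap (eqv.symm : N →+* M), ?_, ?_, ?_, ?_, ?_, ?_⟩
    · intro c
      rw [hmem, eqv.symm_apply_apply, Place.mem_O]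
      exact Q.reg_const c
    · intro z hz
      rw [hmem] at hz
      by_cases hz0 : z = 0
      · refine ⟨0, ?_⟩
        rw [comap_non, hz0, map_zero, map_zero, sub_zero, map_zero]
        exact nonunits_iff.2 ⟨zero_mem _, Or.inl rfl⟩
      have hz0' : eqv.symm z ≠ 0 := (map_ne_zero_iff _ eqv.symm.injective).2 hz0
      rw [O_iff Q hz0'] at hz
      obtain ⟨c, hc⟩ := Pool.Agent.Y536.PS.res_const κ M (algebraMap R M x') hCov.alg Q _ hz
      refine ⟨c, ?_⟩
      rw [comap_non, map_sub, eqv.symm_apply_apply]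
      rcases hc with hc | hc
      · rw [hc, sub_self]
        exact nonunits_iff.2 ⟨zero_mem _, Or.inl rfl⟩
      · have h0 : eqv.symm z - algebraMap κ M c ≠ 0 := by
          intro h0
          rw [h0, Q.ord_zero] at hc
          exact lt_irrefl _ hc
        exact (O_non_iff Q h0).2 hc
    · refine ⟨e, heB, hfix, ?_⟩
      rw [comap_non, map_sub, eqv.symm_apply_apply, ← hx, eqv.symm_apply_apply]
      have h0 : algebraMap R M x' - algebraMap κ M e ≠ 0 := by
        intro h0
        rw [h0, Q.ord_zero] at hQe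
        exact lt_irrefl _ hQe
      exact (O_non_iff Q h0).2 hQe
    · intro σ z
      rw [hmem, hmem]
      have h1 : eqv.symm (S σ z) = s' σ (eqv.symm z) := by
        apply eqv.injective
        rw [hs', eqv.apply_symm_apply, eqv.apply_symm_apply]
      rw [h1]
      exact O_of_fixes Q (s' σ) (hQfix σ) _
    · intro z
      rw [hmem, hmem]
      have h1 : eqv.symm (γ z) = g (eqv.symm z) := by
        apply eqv.injective
        rw [hg, eqv.apply_symm_apply, eqv.apply_symm_apply]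
      rw [h1]
      exact O_of_fixes Q (g : M ≃+* M) hQg _
    · intro W' hW'1 hW'2 hW'3
      obtain ⟨Q', hQ'⟩ := hplace W' hW'1 hW'2
      have h2 : Q' = Q := by
        apply hQun
        refine fixes_of_O Q' (g : M ≃+* M) (RingEquiv.refl κ) (fun c => ?_) fun z => ?_
        · show g (algebraMap κ M c) = algebraMap κ M c
          rw [IsScalarTower.algebraMap_apply κ R M, g.commutes]
        · rw [hQ']
          show eqv (g z) ∈ W' ↔ eqv z ∈ W'
          rw [hg]
          exact hW'3 _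
      rw [hback W' Q' hQ', h2]
  · intro U U' hU hU' γ γ' h1 hγ hγ'
    obtain ⟨g, hg, hgc⟩ := hgal γ U hγ
    obtain ⟨g', hg', hgc'⟩ := hgal γ' U' hγ'
    obtain ⟨hℓg, -, i, hi⟩ := cent_zpow hRig hCov hSec U U' hU hU' g g'
      (hne γ g hg h1) hgc hgc'
    have hit : ∀ (n : ℕ) (z : M), eqv ((g ^ n) z) = γ^[n] (eqv z) := by
      intro n
      induction n with
      | zero => intro z; rfl
      | succ n ih =>
        intro z
        rw [pow_succ, Function.iterate_succ_apply, ← hg]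
        exact ih (g z)
    refine ⟨fun z => ?_, i, fun z => ?_⟩
    · have h3 := hit ℓ (eqv.symm z)
      rw [hℓg, eqv.apply_symm_apply] at h3
      rw [← h3]
      exact eqv.apply_symm_apply z
    · have h3 := hit i (eqv.symm z)
      rw [← hi, hg', eqv.apply_symm_apply] at h3
      exact h3
  · rintro U hU W hW1 ⟨e, heB, hWe⟩ hW3
    have hne0 : algebraMap R M x' - algebraMap κ M e ≠ 0 := by
      intro h0
      have h2 : Transcendental κ (algebraMap R M x') :=
        (transcendental_algebraMap_iff (algebraMap R M).injective).2 hCov.rat.trans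
      apply h2
      rw [sub_eq_zero.1 h0]
      exact isAlgebraic_algebraMap _
    have hnon' : ∀ z : M, z ∈ (W.comap (eqv : M →+* N)).nonunits ↔ eqv z ∈ W.nonunits :=
      fun z => comap_non eqv W z
    have h1 : algebraMap R M x' - algebraMap κ M e ∈ (W.comap (eqv : M →+* N)).nonunits := by
      rw [hnon', map_sub, hx]
      exact hWe
    have htop : W ≠ ⊤ := by
      intro h0
      rw [h0] at hWe
      rw [nonunits_iff] at hWe
      rcases hWe.2 with h2 | h2
      · rw [← hx, ← map_sub, map_eq_zero_iff eqv eqv.injective] at h2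
        exact hne0 h2
      · exact h2 trivial
    obtain ⟨Q, hQ⟩ := hplace W hW1 htop
    obtain ⟨g, hg1, hgQ, U', hU', hgc⟩ := cusp hRot hCov hSec hsY U hU Q heB
      ((O_non_iff Q hne0).1 (by rw [hQ]; exact h1)) (fun σ hσ => by
        refine fixes_of_O Q (s' σ) (σ : κ ≃+* κ) (fun c => hconst σ c) fun z => ?_
        rw [hQ]
        show eqv (s' σ z) ∈ W ↔ eqv z ∈ W
        rw [hs']
        exact hW3 σ hσ _)
    let γ : N ≃+* N := (eqv.symm.trans (g : M ≃+* M)).trans eqv
    have hγ : ∀ z, γ z = eqv (g (eqv.symm z)) := fun z => rfl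
    refine ⟨γ, ?_, ?_, U', hU', ?_, ?_, ?_⟩
    · intro h
      apply hg1
      ext z
      have h2 : γ (eqv z) = eqv z := by rw [h]; rfl
      rw [hγ, eqv.symm_apply_apply] at h2
      exact eqv.injective h2
    · intro z
      have h2 : ∀ w : N, w ∈ W ↔ eqv.symm w ∈ Q.O := by
        intro w
        rw [hQ]
        show w ∈ W ↔ eqv (eqv.symm w) ∈ W
        rw [eqv.apply_symm_apply]
      rw [h2, h2, hγ, eqv.symm_apply_apply]
      exact O_of_fixes Q (g : M ≃+* M) hgQ _
    · intro c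
      show γ (eqv (algebraMap κ M c)) = eqv (algebraMap κ M c)
      rw [hγ, eqv.symm_apply_apply, IsScalarTower.algebraMap_apply κ R M, g.commutes]
    · rw [hγ, ← hx, eqv.symm_apply_apply, g.commutes]
    · intro σ hσ z
      rw [hγ, hγ]
      have h1 : eqv.symm (S σ z) = s' σ (eqv.symm z) := by
        apply eqv.injective
        rw [hs', eqv.apply_symm_apply, eqv.apply_symm_apply]
      rw [h1, hgc σ hσ, hs']

end absM

end Pool.Agent.R925.Q
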