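import Mathlib

/-! Maximal extensions of partial sections with trivial centralisers. -/

set_option autoImplicit false
set_option linter.all false

namespace Pool.Agent.R925.Q

/-- a semilinear action of the subgroup `H` of `G` on `N`, which fixes `x` -/
structure PSec {G κ N : Type} [Group G] [Field κ] [MulSemiringAction G κ] [Field N] (cst : κ → N)
    (x : N) (H : Subgroup G) (s : H →* RingAut N) : Prop where
  const : ∀ (σ : H) c, s σ (cst c) = cst ((σ : G) • c)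
  fixx : ∀ σ, s σ x = x

/-- no nontrivial automorphism over the constants and `x` commutes with `s(U ∩ S)`, `U` of finite
index -/
def Triv {G κ N : Type} [Group G] [Field N] (cst : κ → N) (x : N) (H : Subgroup G)
    (s : H →* RingAut N) (S : Subgroup G) : Prop :=
  ∀ U : Subgroup G, U.index ≠ 0 → ∀ γ : RingAut N, (∀ c, γ (cst c) = cst c) → γ x = x →
    (∀ σ : H, (σ : G) ∈ U → (σ : G) ∈ S → ∀ z, γ (s σ z) = s σ (γ z)) → γ = 1

/-- `γ` lies over `σ` and conjugates `s` into itself on `U ∩ S`, `U` of finite index -/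
structure Nm {G κ N : Type} [Group G] [Field κ] [MulSemiringAction G κ] [Field N] (cst : κ → N)
    (x : N) {H : Subgroup G} (s : H →* RingAut N) (S : Subgroup G) (σ : G) (γ : RingAut N) :
    Prop where
  con : ∀ c, γ (cst c) = cst (σ • c)
  fx : γ x = x
  nm : ∃ U : Subgroup G, U.index ≠ 0 ∧ ∀ τ ∈ U, τ ∈ S → ∃ (h1 : τ ∈ H) (h2 : σ * τ * σ⁻¹ ∈ H),
    ∀ z, γ (s ⟨τ, h1⟩ z) = s ⟨σ * τ * σ⁻¹, h2⟩ (γ z)

section

variable {G κ N : Type} [Group G] [Field κ] [MulSemiringAction G κ] [Field N] {cst : κ → N}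
    {x : N} {H : Subgroup G} {s : H →* RingAut N} {S : Subgroup G}

theorem conj_index (σ : G) {U : Subgroup G} (hU : U.index ≠ 0) :
    (U.comap (MulAut.conj σ).toMonoidHom).index ≠ 0 := by
  rw [Subgroup.index_comap_of_surjective _ (MulAut.conj σ).surjective]
  exact hU

theorem mul_app (a b : RingAut N) (z : N) : (a * b) z = a (b z) := rfl

theorem s_mul (σ τ : H) (z : N) : s (σ * τ) z = s σ (s τ z) := by rw [map_mul]; rfl

/-- elements of `G` over which `s` extends, from a section which agrees with `s` on `U ∩ S` -/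
theorem nm_of_agree (hSn : S.Normal) {H' : Subgroup G} {s' : H' →* RingAut N}
    (hs' : PSec cst x H' s') (U : Subgroup G) (hU : U.index ≠ 0)
    (hag : ∀ τ ∈ U, τ ∈ S → ∃ (h1 : τ ∈ H) (h2 : τ ∈ H'), s ⟨τ, h1⟩ = s' ⟨τ, h2⟩) (σ : H') :
    Nm cst x s S (σ : G) (s' σ) := by
  refine ⟨fun c => hs'.const σ c, hs'.fixx σ, U ⊓ U.comap (MulAut.conj (σ : G)).toMonoidHom,
    Subgroup.index_inf_ne_zero hU (conj_index _ hU), ?_⟩
  rintro τ ⟨h1, h2⟩ hτS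
  have h2' : (σ : G) * τ * (σ : G)⁻¹ ∈ U := h2
  obtain ⟨a1, a2, a3⟩ := hag τ h1 hτS
  obtain ⟨b1, b2, b3⟩ := hag _ h2' (hSn.conj_mem τ hτS σ)
  refine ⟨a1, b1, fun z => ?_⟩
  rw [a3, b3, ← s_mul, ← s_mul]
  congr 2
  apply Subtype.ext
  show (σ : G) * τ = (σ : G) * τ * (σ : G)⁻¹ * σ
  group

theorem nm_self (hSn : S.Normal) (hs : PSec cst x H s) (hH : H.index ≠ 0) (σ : H) :
    Nm cst x s S (σ : G) (s σ) :=
  nm_of_agree hSn hs H hH (fun τ h _ => ⟨h, h, rfl⟩) σ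

theorem nm_one (hH : H.index ≠ 0) : Nm cst x s S (1 : G) (1 : RingAut N) := by
  refine ⟨fun c => ?_, rfl, H, hH, fun τ h _ => ⟨h, ?_, fun z => ?_⟩⟩
  · rw [one_smul]; rfl
  · simpa using h
  · show s ⟨τ, _⟩ z = s _ z
    congr 2
    apply Subtype.ext
    simp

theorem nm_mul (hSn : S.Normal) {σ σ' : G} {γ γ' : RingAut N} (h : Nm cst x s S σ γ)
    (h' : Nm cst x s S σ' γ') : Nm cst x s S (σ * σ') (γ * γ') := by
  obtain ⟨U, hU, hn⟩ := h.nm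
  obtain ⟨U', hU', hn'⟩ := h'.nm
  refine ⟨fun c => ?_, ?_, U' ⊓ U.comap (MulAut.conj σ').toMonoidHom,
    Subgroup.index_inf_ne_zero hU' (conj_index _ hU), ?_⟩
  · rw [mul_app, h'.con, h.con, smul_smul]
  · rw [mul_app, h'.fx, h.fx]
  rintro τ ⟨h1, h2⟩ hτS
  have h2' : σ' * τ * σ'⁻¹ ∈ U := h2
  obtain ⟨a1, a2, a3⟩ := hn' τ h1 hτS
  obtain ⟨b1, b2, b3⟩ := hn _ h2' (hSn.conj_mem τ hτS σ')
  have heq : σ * (σ' * τ * σ'⁻¹) * σ⁻¹ = σ * σ' * τ * (σ * σ')⁻¹ := by group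
  refine ⟨a1, heq ▸ b2, fun z => ?_⟩
  rw [mul_app, mul_app, a3, b3]
  congr 2
  apply Subtype.ext
  exact heq

theorem nm_inv (hSn : S.Normal) {σ : G} {γ : RingAut N} (h : Nm cst x s S σ γ) :
    Nm cst x s S σ⁻¹ γ⁻¹ := by
  obtain ⟨U, hU, hn⟩ := h.nm
  have hi : ∀ z, γ⁻¹ (γ z) = z := fun z => γ.symm_apply_apply z
  have hi' : ∀ z, γ (γ⁻¹ z) = z := fun z => γ.apply_symm_apply z
  refine ⟨fun c => ?_, ?_, U.comap (MulAut.conj σ⁻¹).toMonoidHom, conj_index _ hU, ?_⟩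
  · have h1 := h.con (σ⁻¹ • c)
    rw [smul_smul, mul_inv_cancel, one_smul] at h1
    rw [← h1, hi]
  · conv_lhs => rw [← h.fx]
    rw [hi]
  intro τ h2 hτS
  have h2' : σ⁻¹ * τ * (σ⁻¹)⁻¹ ∈ U := h2
  obtain ⟨a1, a2, a3⟩ := hn _ h2' (hSn.conj_mem τ hτS σ⁻¹)
  have heq : σ * (σ⁻¹ * τ * (σ⁻¹)⁻¹) * σ⁻¹ = τ := by group
  refine ⟨heq ▸ a2, a1, fun z => ?_⟩
  apply γ.injective
  rw [hi', a3, hi']
  congr 2
  apply Subtype.ext
  exact heq.symm

theorem nm_uniq (hSn : S.Normal) (ht : Triv cst x H s S) {σ : G} {γ γ' : RingAut N}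
    (h : Nm cst x s S σ γ) (h' : Nm cst x s S σ γ') : γ = γ' := by
  have hm := nm_mul hSn (nm_inv hSn h') h
  obtain ⟨U, hU, hn⟩ := hm.nm
  have h1 : γ'⁻¹ * γ = 1 := by
    refine ht U hU _ (fun c => ?_) hm.fx fun τ hτ hτS z => ?_
    · have := hm.con c
      rwa [inv_mul_cancel, one_smul] at this
    · obtain ⟨a1, a2, a3⟩ := hn (τ : G) hτ hτS
      have h3 := a3 z
      have h4 : (⟨σ⁻¹ * σ * (τ : G) * (σ⁻¹ * σ)⁻¹, a2⟩ : H) = τ := by
        apply Subtype.ext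
        show σ⁻¹ * σ * (τ : G) * (σ⁻¹ * σ)⁻¹ = τ
        group
      rw [h4] at h3
      exact h3
  exact (inv_mul_eq_one.1 h1).symm

/-- the largest subgroup to which `s` extends -/
def Hmax (cst : κ → N) (x : N) (H : Subgroup G) (hH : H.index ≠ 0) (s : H →* RingAut N)
    (S : Subgroup G) (hSn : S.Normal) : Subgroup G where
  carrier := {σ | ∃ γ, Nm cst x s S σ γ}
  one_mem' := ⟨1, nm_one hH⟩
  mul_mem' := by
    rintro σ σ' ⟨γ, h⟩ ⟨γ', h'⟩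
    exact ⟨γ * γ', nm_mul hSn h h'⟩
  inv_mem' := by
    rintro σ ⟨γ, h⟩
    exact ⟨γ⁻¹, nm_inv hSn h⟩

theorem exists_max (hSn : S.Normal) (hs : PSec cst x H s) (hH : H.index ≠ 0)
    (ht : Triv cst x H s S) :
    ∃ s₀ : Hmax cst x H hH s S hSn →* RingAut N,
      (∀ σ : Hmax cst x H hH s S hSn, Nm cst x s S (σ : G) (s₀ σ)) ∧
      PSec cst x (Hmax cst x H hH s S hSn) s₀ ∧
      (∀ σ (h : σ ∈ H), ∃ h0 : σ ∈ Hmax cst x H hH s S hSn, s₀ ⟨σ, h0⟩ = s ⟨σ, h⟩) := by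
  choose g hg using fun σ : Hmax cst x H hH s S hSn => σ.2
  refine ⟨{ toFun := g, map_one' := nm_uniq hSn ht (hg 1) (nm_one hH),
            map_mul' := fun σ τ => nm_uniq hSn ht (hg _) (nm_mul hSn (hg σ) (hg τ)) }, hg,
    ⟨fun σ c => (hg σ).con c, fun σ => (hg σ).fx⟩, fun σ h => ?_⟩
  exact ⟨⟨_, nm_self hSn hs hH ⟨σ, h⟩⟩, nm_uniq hSn ht (hg _) (nm_self hSn hs hH ⟨σ, h⟩)⟩

/-- The largest extension does not depend on `S`: if `γ` over `σ` conjugates `s` into itself on `U ∩ S`,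
then it does so on a subgroup of finite index. -/
theorem nm_top (hSn : S.Normal) (hs : PSec cst x H s) (hH : H.index ≠ 0)
    (ht : Triv cst x H s S) {σ : G} {γ : RingAut N} (h : Nm cst x s S σ γ) :
    Nm cst x s ⊤ σ γ := by
  obtain ⟨s₀, h1, h2, h4⟩ := exists_max hSn hs hH ht
  have hσ : σ ∈ Hmax cst x H hH s S hSn := ⟨γ, h⟩
  have hγ : s₀ ⟨σ, hσ⟩ = γ := nm_uniq hSn ht (h1 ⟨σ, hσ⟩) h
  rw [← hγ]
  exact nm_of_agree inferInstance h2 H hH (fun τ hτ _ => by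
    obtain ⟨h0, h5⟩ := h4 τ hτ
    exact ⟨hτ, h0, h5.symm⟩) ⟨σ, hσ⟩

end

end Pool.Agent.R925.Q
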