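import Pool.Agent.R925.Q.AfsN
import Pool.Agent.R925.Q.Desc

/-! Partial sections with a nontrivial centraliser over a large extension. -/

set_option autoImplicit false
set_option linter.all false

open Polynomial FF

namespace Pool.Agent.R925.Q

open Pool.Agent.Y157.PS

/-- every subgroup of finite index contains a rigid element which belongs to `S` -/
def RigS (k κ R M : Type) [Field k] [Field κ] [Field R] [Field M] [Algebra k κ]
    [Algebra κ R] [Algebra R M] [Algebra κ M] (x : R) (Y : M) (S : Subgroup (κ ≃ₐ[k] κ)) : Prop :=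
  ∀ U : Subgroup (κ ≃ₐ[k] κ), U.index ≠ 0 → ∃ φ₀ ∈ U, φ₀ ∈ S ∧ ∀ φ : M ≃+* M,
    Lift κ M (algebraMap R M x) φ (φ₀ : κ ≃+* κ) → ∀ δ : M ≃ₐ[R] M, (∀ z, δ (φ z) = φ (δ z)) →
      δ Y = Y → δ = 1

theorem root_cst {κ M : Type} [Field κ] [IsAlgClosed κ] [Field M] [Algebra κ M] {y : M} {n : ℕ}
    (hn : 0 < n) (hy : y ^ n = 1) : ∃ c : κ, algebraMap κ M c = y := by
  have h1 : IsIntegral κ y := by
    refine ⟨X ^ n - C 1, monic_X_pow_sub_C 1 hn.ne', ?_⟩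
    simp [hy]
  exact minpoly.mem_range_of_degree_eq_one κ y
    (IsAlgClosed.degree_eq_one_of_irreducible κ (minpoly.irreducible h1))

section

variable {k κ R M : Type} [Field k] [CharZero k]
    [Field κ] [Algebra k κ] [IsAlgClosure k κ]
    [Field R] [Field M] [Algebra κ R] [Algebra R M] [Algebra κ M] [IsScalarTower κ R M]
    {ℓ : ℕ} [Fact ℓ.Prime] {x : R} {B : Finset κ} {Y : M} {S : Subgroup (κ ≃ₐ[k] κ)}
    {H : Subgroup (κ ≃ₐ[k] κ)} {s : H →* RingAut M}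

theorem cent_zpowP (hR : RigS k κ R M x Y S) (hC : Cov ℓ κ R M x B Y) (hHi : H.index ≠ 0)
    (hs : PSec (algebraMap κ M) (algebraMap R M x) H s) (U U' : Subgroup (κ ≃ₐ[k] κ))
    (hU : U.index ≠ 0) (hU' : U'.index ≠ 0) (γ γ' : M ≃ₐ[R] M) (h1 : γ ≠ 1)
    (hγ : ∀ σ : H, (σ : κ ≃ₐ[k] κ) ∈ U → (σ : κ ≃ₐ[k] κ) ∈ S → ∀ z, γ (s σ z) = s σ (γ z))
    (hγ' : ∀ σ : H, (σ : κ ≃ₐ[k] κ) ∈ U' → (σ : κ ≃ₐ[k] κ) ∈ S → ∀ z, γ' (s σ z) = s σ (γ' z)) :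
    γ ^ ℓ = 1 ∧ γ Y ≠ Y ∧ ∃ i : ℕ, γ' = γ ^ i := by
  haveI : IsAlgClosed κ := IsAlgClosure.isAlgClosed k
  haveI : CharZero κ := charZero_of_injective_algebraMap (algebraMap k κ).injective
  haveI : Algebra.IsAlgebraic k κ := IsAlgClosure.isAlgebraic
  have hp := (Fact.out : ℓ.Prime).pos
  obtain ⟨φ₀, ⟨⟨hnU, hnU'⟩, hnH⟩, hnS, hrig⟩ := hR ((U ⊓ U') ⊓ H)
    (Subgroup.index_inf_ne_zero (Subgroup.index_inf_ne_zero hU hU') hHi)
  have hL : Lift κ M (algebraMap R M x) (s ⟨φ₀, hnH⟩) (φ₀ : κ ≃+* κ) :=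
    ⟨fun c => hs.const _ c, hs.fixx _⟩
  have rg : ∀ δ : M ≃ₐ[R] M, (∀ z, δ (s ⟨φ₀, hnH⟩ z) = s ⟨φ₀, hnH⟩ (δ z)) → δ Y = Y → δ = 1 :=
    fun δ => hrig (s ⟨φ₀, hnH⟩) hL δ
  have hY0 : Y ≠ 0 := by
    intro h
    have h2 := hC.eqn
    rw [h, zero_pow hp.ne'] at h2
    have h3 := Finset.prod_eq_zero_iff.1 h2.symm
    obtain ⟨e, -, he⟩ := h3
    have h4 : Transcendental κ (algebraMap R M x) :=
      (transcendental_algebraMap_iff (algebraMap R M).injective).2 hC.rat.trans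
    apply h4
    rw [sub_eq_zero.1 he]
    exact isAlgebraic_algebraMap _
  have hconst : ∀ (γ : M ≃ₐ[R] M) (c : κ), γ (algebraMap κ M c) = algebraMap κ M c := by
    intro γ c
    rw [IsScalarTower.algebraMap_apply κ R M, γ.commutes]
  have hγY : γ Y ≠ Y := fun h => h1 (rg γ (hγ ⟨φ₀, hnH⟩ hnU hnS) h)
  obtain ⟨ζ, hζ, hζY⟩ := hC.actY hY0 γ
  obtain ⟨ζ', hζ', hζY'⟩ := hC.actY hY0 γ'
  have hζ1 : ζ ≠ 1 := by
    rintro rfl
    apply hγY
    rw [hζY, map_one, one_mul]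
  have hpowY : ∀ n : ℕ, (γ ^ n) Y = algebraMap κ M (ζ ^ n) * Y := by
    intro n
    induction n with
    | zero => rw [pow_zero, pow_zero, map_one, one_mul]; rfl
    | succ n ih =>
      rw [pow_succ, pow_succ]
      change (γ ^ n) (γ Y) = _
      rw [hζY, map_mul, hconst, ih, map_mul]
      ring
  have hcp : ∀ m : ℕ, ∀ z, (γ ^ m) (s ⟨φ₀, hnH⟩ z) = s ⟨φ₀, hnH⟩ ((γ ^ m) z) := by
    intro m
    induction m with
    | zero => intro z; rfl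
    | succ m ih =>
      intro z
      rw [pow_succ]
      change (γ ^ m) (γ (s ⟨φ₀, hnH⟩ z)) = s ⟨φ₀, hnH⟩ ((γ ^ m) (γ z))
      rw [hγ ⟨φ₀, hnH⟩ hnU hnS, ih]
  have hγℓ : γ ^ ℓ = 1 := by
    apply rg _ (hcp ℓ)
    rw [hpowY, hζ, map_one, one_mul]
  refine ⟨hγℓ, hγY, ?_⟩
  have hprim : IsPrimitiveRoot ζ ℓ := by
    have h1 : orderOf ζ = ℓ := orderOf_eq_prime hζ hζ1
    rw [← h1]
    exact IsPrimitiveRoot.orderOf ζ
  obtain ⟨i, -, hi⟩ := hprim.eq_pow_of_pow_eq_one hζ'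
  refine ⟨i, ?_⟩
  have hinv : ∀ z, ((γ ^ i)⁻¹ : M ≃ₐ[R] M) (s ⟨φ₀, hnH⟩ z) =
      s ⟨φ₀, hnH⟩ (((γ ^ i)⁻¹ : M ≃ₐ[R] M) z) := by
    intro z
    apply (γ ^ i).injective
    rw [hcp]
    have h5 : ∀ w, (γ ^ i) (((γ ^ i)⁻¹ : M ≃ₐ[R] M) w) = w := fun w => (γ ^ i).apply_symm_apply w
    rw [h5, h5]
  have h6 : (γ ^ i)⁻¹ * γ' = 1 := by
    apply rg
    · intro z
      change ((γ ^ i)⁻¹ : M ≃ₐ[R] M) (γ' (s ⟨φ₀, hnH⟩ z)) =
        s ⟨φ₀, hnH⟩ (((γ ^ i)⁻¹ : M ≃ₐ[R] M) (γ' z))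
      rw [hγ' ⟨φ₀, hnH⟩ hnU' hnS, hinv]
    · change (γ ^ i).symm (γ' Y) = Y
      rw [AlgEquiv.symm_apply_eq, hpowY, hi, hζY']
  exact (inv_mul_eq_one.1 h6).symm

/-- **partial sections with a nontrivial centraliser over a large extension** -/
theorem afsP (hSn : S.Normal) (hR : RigS k κ R M x Y S) (hC : Cov ℓ κ R M x B Y)
    (hHi : H.index ≠ 0) (hs : PSec (algebraMap κ M) (algebraMap R M x) H s)
    (U : Subgroup (κ ≃ₐ[k] κ)) (hU : U.index ≠ 0) (γ : M ≃ₐ[R] M) (h1 : γ ≠ 1)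
    (hγ : ∀ σ : H, (σ : κ ≃ₐ[k] κ) ∈ U → (σ : κ ≃ₐ[k] κ) ∈ S → ∀ z, γ (s σ z) = s σ (γ z)) :
    ∃ W : Place κ M, Fixes W γ ∧ (∀ W' : Place κ M, Fixes W' γ → W' = W) ∧
      (∀ σ : H, Fixes W (s σ)) ∧ ∃ e ∈ B, 0 < W.ord (algebraMap R M x - algebraMap κ M e) := by
  haveI : IsAlgClosed κ := IsAlgClosure.isAlgClosed k
  haveI : CharZero κ := charZero_of_injective_algebraMap (algebraMap k κ).injective
  obtain ⟨hγℓ, hγY, -⟩ := cent_zpowP hR hC hHi hs U U hU hU γ γ h1 hγ hγ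
  obtain ⟨W, hW⟩ := a_exf ℓ κ R M x B Y hC γ hγℓ h1
  obtain ⟨-, e, he, hWe, hWY⟩ := hC.fixed a_stab W γ hW h1
  have hun : ∀ W' : Place κ M, Fixes W' γ → W' = W := fun W' hW' =>
    a_unq ℓ κ R M x B Y hC γ hγℓ h1 W' W hW' hW
  have sinv' : ∀ (σ : H) z, s σ (s σ⁻¹ z) = z := by
    intro σ z
    rw [← s_mul, mul_inv_cancel, map_one]; rfl
  -- the image of the section fixes `W`
  have hfix : ∀ σ : H, Fixes W (s σ) := by
    intro σ
    obtain ⟨η, hη⟩ := conjR hC.rat (s σ) ((σ : κ ≃ₐ[k] κ) : κ ≃+* κ) (fun c => hs.const σ c)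
      (hs.fixx σ) γ
    have hη' : ∀ z, s σ (η z) = γ (s σ z) := by
      intro z
      rw [hη, RingEquiv.apply_symm_apply]
    let U1 : Subgroup (κ ≃ₐ[k] κ) := U.comap (MulAut.conj (σ : κ ≃ₐ[k] κ)).toMonoidHom
    have hηc : ∀ τ : H, (τ : κ ≃ₐ[k] κ) ∈ U1 → (τ : κ ≃ₐ[k] κ) ∈ S →
        ∀ z, η (s τ z) = s τ (η z) := by
      intro τ hτ hτS z
      have h2 : ((σ * τ * σ⁻¹ : H) : κ ≃ₐ[k] κ) ∈ U := hτ
      have h2S : ((σ * τ * σ⁻¹ : H) : κ ≃ₐ[k] κ) ∈ S := hSn.conj_mem _ hτS _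
      apply (s σ).injective
      rw [hη', ← s_mul]
      have h3 : σ * τ = (σ * τ * σ⁻¹) * σ := by group
      rw [h3, s_mul, hγ _ h2 h2S, ← hη', ← s_mul, ← s_mul, ← h3]
    obtain ⟨-, -, i, hi⟩ := cent_zpowP hR hC hHi hs U U1 hU (conj_index _ hU) γ η h1 hγ hηc
    have hη1 : η ≠ 1 := by
      intro h
      apply h1
      ext z
      have h4 := hη' (s σ⁻¹ z)
      rw [h, sinv'] at h4
      change s σ (s σ⁻¹ z) = _ at h4
      rw [sinv'] at h4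
      exact h4.symm
    have hηℓ : η ^ ℓ = 1 := by rw [hi, ← pow_mul, mul_comm, pow_mul, hγℓ, one_pow]
    let Wσ := Place.comapEquiv W (s σ) ((σ : κ ≃ₐ[k] κ) : κ ≃+* κ) (fun c => hs.const σ c)
    have h5 : Wσ = W := by
      refine a_unq ℓ κ R M x B Y hC η hηℓ hη1 Wσ W ?_ ?_
      · intro z
        change W.ord (s σ (η z)) = W.ord (s σ z)
        rw [hη', hW]
      · rw [hi]; exact hW.pow i
    intro z
    change Wσ.ord z = W.ord z
    rw [h5]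
  exact ⟨W, hW, hun, hfix, e, he, hWe⟩

include ℓ in
omit [CharZero k] in
/-- the action on `Y` -/
theorem actYP (hC : Cov ℓ κ R M x B Y) (hB : ∀ (σ : κ ≃ₐ[k] κ), ∀ e ∈ B, σ e ∈ B)
    (hs : PSec (algebraMap κ M) (algebraMap R M x) H s) (σ : H) :
    ∃ c : κ, s σ Y = algebraMap κ M c * Y := by
  classical
  haveI : IsAlgClosed κ := IsAlgClosure.isAlgClosed k
  have hp := (Fact.out : ℓ.Prime).pos
  have hY0 : Y ≠ 0 := by
    intro h
    have h2 := hC.eqn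
    rw [h, zero_pow hp.ne'] at h2
    have h3 := Finset.prod_eq_zero_iff.1 h2.symm
    obtain ⟨e, -, he⟩ := h3
    have h4 : Transcendental κ (algebraMap R M x) :=
      (transcendental_algebraMap_iff (algebraMap R M).injective).2 hC.rat.trans
    apply h4
    rw [sub_eq_zero.1 he]
    exact isAlgebraic_algebraMap _
  have h1 : (s σ Y) ^ ℓ = Y ^ ℓ := by
    rw [← map_pow, hC.eqn, map_prod]
    have h2 : ∀ e ∈ B, s σ (algebraMap R M x - algebraMap κ M e) =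
        algebraMap R M x - algebraMap κ M ((σ : κ ≃ₐ[k] κ) e) := by
      intro e _
      rw [map_sub, hs.fixx, hs.const]
      rfl
    rw [Finset.prod_congr rfl h2]
    refine Finset.prod_bij (fun e _ => (σ : κ ≃ₐ[k] κ) e) (fun e he => hB _ e he)
      (fun a _ b _ h => (σ : κ ≃ₐ[k] κ).injective h) (fun e he => ?_) (fun e _ => rfl)
    exact ⟨(σ : κ ≃ₐ[k] κ)⁻¹ e, hB _ e he, (σ : κ ≃ₐ[k] κ).apply_symm_apply e⟩
  have h2 : (s σ Y / Y) ^ ℓ = 1 := by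
    rw [div_pow, h1, div_self (pow_ne_zero _ hY0)]
  obtain ⟨c, hc⟩ := root_cst (κ := κ) hp h2
  exact ⟨c, by rw [hc, div_mul_cancel₀ _ hY0]⟩

omit [CharZero k] in
/-- partial sections at a branch point have a nontrivial centraliser -/
theorem cuspP (hRot : Rot κ R M x B Y) (hC : Cov ℓ κ R M x B Y) (hk0 : CharZero κ)
    (hs : PSec (algebraMap κ M) (algebraMap R M x) H s)
    (hsY : ∀ σ, ∃ c : κ, s σ Y = algebraMap κ M c * Y) (U : Subgroup (κ ≃ₐ[k] κ))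
    (hU : U.index ≠ 0) (W : Place κ M) {e : κ} (he : e ∈ B)
    (hWe : 0 < W.ord (algebraMap R M x - algebraMap κ M e))
    (hfix : ∀ σ : H, (σ : κ ≃ₐ[k] κ) ∈ U → (σ : κ ≃ₐ[k] κ) ∈ S → Fixes W (s σ)) :
    ∃ γ : M ≃ₐ[R] M, γ ≠ 1 ∧ Fixes W γ ∧ ∃ U' : Subgroup (κ ≃ₐ[k] κ), U'.index ≠ 0 ∧
      ∀ σ : H, (σ : κ ≃ₐ[k] κ) ∈ U' → (σ : κ ≃ₐ[k] κ) ∈ S → ∀ z, γ (s σ z) = s σ (γ z) := by
  classical
  haveI : IsAlgClosed κ := IsAlgClosure.isAlgClosed k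
  haveI : Algebra.IsAlgebraic k κ := IsAlgClosure.isAlgebraic
  have hp := (Fact.out : ℓ.Prime).pos
  have hY0 : Y ≠ 0 := by
    intro h
    have h2 := hC.ordY W he hWe
    rw [h, W.ord_zero] at h2
    exact zero_ne_one h2
  have hconst : ∀ (γ : M ≃ₐ[R] M) (c : κ), γ (algebraMap κ M c) = algebraMap κ M c := by
    intro γ c
    rw [IsScalarTower.algebraMap_apply κ R M, γ.commutes]
  obtain ⟨c, We, hc, hWc, hcY⟩ := hRot e he
  have hnor : Normal R M := by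
    have := hC.gal
    infer_instance
  obtain ⟨g, hg⟩ := a_conj R M W.O We.O (trace_eq hC.rat e hWe hWc)
  have hgW : ∀ z, We.ord z = W.ord (g z) := by
    let W1 := Place.comapEquiv W (g : M ≃+* M) (RingEquiv.refl κ) (hconst g)
    have h1 : We = W1 := by
      apply Place.ext_O
      ext z
      rw [hg, Place.mem_O, Place.mem_O]
      unfold Place.Reg
      change g z = 0 ∨ _ ↔ z = 0 ∨ _
      rw [map_eq_zero_iff g g.injective]
      rfl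
    intro z
    rw [h1]; rfl
  let c' : M ≃ₐ[R] M := g * c * g⁻¹
  have hc'z : ∀ z, c' z = g (c (g⁻¹ z)) := fun z => rfl
  have hginv : ∀ z, g (g⁻¹ z) = z := fun z => g.apply_symm_apply z
  have hc' : Fixes W c' := by
    intro z
    rw [hc'z, ← hgW, hc, hgW, hginv]
  have hY' : W.ord Y = 1 := hC.ordY W he hWe
  have hc'Y : c' Y ≠ Y := by
    intro h
    obtain ⟨ξ, hξ, h1⟩ := hC.actY hY0 g⁻¹
    rw [hc'z, h1, map_mul, hconst, map_mul, hconst] at h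
    have h2 : g (g⁻¹ Y) = Y := hginv Y
    rw [h1, map_mul, hconst] at h2
    have hξ0 : algebraMap κ M ξ ≠ 0 := by
      intro h0
      rw [h0, zero_mul] at h2
      exact hY0 h2.symm
    have h3 : g (c Y) = g Y := mul_left_cancel₀ hξ0 (h.trans h2.symm)
    exact hcY (g.injective h3)
  obtain ⟨ζ, hζ, hζY⟩ := hC.actY hY0 c'
  refine ⟨c', ?_, hc', U ⊓ MulAction.stabilizer (κ ≃ₐ[k] κ) ζ, ?_, ?_⟩
  · intro h
    rw [h] at hc'Y
    exact hc'Y rfl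
  · refine Subgroup.index_inf_ne_zero hU ?_
    rw [MulAction.index_stabilizer]
    have hfin : (MulAction.orbit (κ ≃ₐ[k] κ) ζ).Finite := by
      refine ((X ^ ℓ - C (1 : κ)).roots.toFinset.finite_toSet).subset ?_
      rintro _ ⟨σ, rfl⟩
      show σ ζ ∈ _
      rw [Finset.mem_coe, Multiset.mem_toFinset, mem_roots (X_pow_sub_C_ne_zero hp 1)]
      simp only [IsRoot.def, eval_sub, eval_pow, eval_X, eval_C]
      rw [← map_pow, hζ, map_one, sub_self]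
    haveI : Finite (MulAction.orbit (κ ≃ₐ[k] κ) ζ) := hfin.to_subtype
    haveI : Nonempty (MulAction.orbit (κ ≃ₐ[k] κ) ζ) := ⟨⟨ζ, MulAction.mem_orbit_self ζ⟩⟩
    rw [Set.ncard]
    exact (Nat.card_pos (α := MulAction.orbit (κ ≃ₐ[k] κ) ζ)).ne'
  · rintro σ ⟨hσU, hσζ⟩ hσS z
    have hσζ' : (σ : κ ≃ₐ[k] κ) ζ = ζ := hσζ
    obtain ⟨η, hη⟩ := conjR hC.rat (s σ) ((σ : κ ≃ₐ[k] κ) : κ ≃+* κ) (fun c => hs.const σ c)
      (hs.fixx σ) c'
    have hη' : ∀ z, s σ (η z) = c' (s σ z) := by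
      intro z
      rw [hη, RingEquiv.apply_symm_apply]
    obtain ⟨b, hb⟩ := hsY σ
    have hsc : s σ (algebraMap κ M ζ) = algebraMap κ M ζ := by
      rw [hs.const]
      exact congrArg _ hσζ'
    have hηY : η Y = algebraMap κ M ζ * Y := by
      apply (s σ).injective
      rw [hη', map_mul, hsc, hb, map_mul, hconst, hζY]
      ring
    have hηW : Fixes W η := by
      intro z
      have h1 : W.ord (s σ (η z)) = W.ord (η z) := hfix σ hσU hσS _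
      rw [← h1, hη', hc', hfix σ hσU hσS]
    have h1 : c'⁻¹ * η = 1 := by
      refine hC.stabR a_stab W _ (hc'.inv.mul hηW) Y hY' ?_
      change c'.symm (η Y) = Y
      rw [AlgEquiv.symm_apply_eq, hηY, hζY]
    have h2 : η = c' := (inv_mul_eq_one.1 h1).symm
    rw [← hη', h2]

end

end Pool.Agent.R925.Q
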