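import Pool.Agent.R925.Q.Kum2
import Pool.Agent.Y732.PS.CLF

/-! Bounded exponent for the classes of weight one. -/

set_option autoImplicit false
set_option linter.all false

open Module Pool.Agent.H525R3.FFp Pool.Agent.W132.AG Polynomial
open FF (Place IsFF Over)

namespace Pool.Agent.R925.Q

theorem adjoin_gen_top {N K : Type} [Field N] [Field K] [Algebra N K] (h : K) :
    IntermediateField.adjoin N {IntermediateField.AdjoinSimple.gen N h} =
      (⊤ : IntermediateField N (IntermediateField.adjoin N {h})) := by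
  apply IntermediateField.map_injective (IntermediateField.val (IntermediateField.adjoin N {h}))
  rw [IntermediateField.adjoin_map, ← AlgHom.fieldRange_eq_map, IntermediateField.fieldRange_val,
    Set.image_singleton]
  rfl

/-- the elements with `Φ h / h ^ q ∈ N` have bounded exponent -/
def S_CLFQ : Prop :=
  ∀ (ℓ q : ℕ) [Fact ℓ.Prime] (F K : Type) [Field F] [IsAlgClosed F] [Field K] [Algebra F K]
    (p : ℕ) [Fact p.Prime] [CharP F p] (a : ℕ), 0 < a → q = p ^ a → ℓ ≠ p →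
    (∀ c : F, ∃ m : ℕ, 0 < m ∧ c ^ (q ^ m) = c) →
    ∀ (x : K), Transcendental F x →
    ∀ N : IntermediateField F K, x ∈ N →
      (∃ b : Finset K, ∀ z ∈ N, z ∈ Submodule.span (IntermediateField.adjoin F {x}) (b : Set K)) →
    ∀ Φ : K ≃+* K, (∀ c : F, Φ (algebraMap F K c) = algebraMap F K (c ^ q)) → Φ x = x →
      (∀ z, Φ z ∈ N ↔ z ∈ N) →
      ∃ m : ℕ, ∀ h : K, h ≠ 0 → (∃ (n : ℕ) (hn : h ^ (ℓ ^ n) ∈ N),
        ∀ w : Place F N, ((ℓ : ℤ) ^ n) ∣ w.ord ⟨_, hn⟩) → Φ h / h ^ q ∈ N → h ^ (ℓ ^ m) ∈ N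

theorem clfq : S_CLFQ := by
  classical
  intro ℓ q _ F K _ _ _ _ p _ _ a ha hq hℓp htor x hx N hxN hb Φ hconst hΦx hN
  obtain ⟨bs, hbs⟩ := hb
  have hp := (Fact.out : p.Prime)
  have hℓ := (Fact.out : ℓ.Prime)
  have hq1 : 1 < q := by
    rw [hq]; exact Nat.one_lt_pow ha.ne' hp.one_lt
  haveI hFF : IsFF F N := Pool.Agent.Y732.PS.isFF_of_span x hx N hxN bs hbs
  -- the restriction of Φ
  let ΦN : N ≃+* N :=
    { toFun := fun z => ⟨Φ z, (hN z).2 z.2⟩
      invFun := fun z => ⟨Φ.symm z, (hN _).1 (by rw [RingEquiv.apply_symm_apply]; exact z.2)⟩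
      left_inv := fun z => Subtype.ext (Φ.symm_apply_apply _)
      right_inv := fun z => Subtype.ext (Φ.apply_symm_apply _)
      map_mul' := fun z z' => Subtype.ext (map_mul Φ _ _)
      map_add' := fun z z' => Subtype.ext (map_add Φ _ _) }
  have hΦN : ∀ (i : ℕ) (z : N), (((ΦN ^ i) z : N) : K) = (Φ ^ i) (z : K) := by
    intro i z
    induction i with
    | zero => simp
    | succ i ih =>
      rw [pow_succ', pow_succ', RingAut.mul_apply, RingAut.mul_apply, ← ih]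
      rfl
  -- Frobenius
  let σ : F ≃+* F := iterateFrobeniusEquiv F p a
  have hσ : ∀ c : F, σ c = c ^ q := by
    intro c
    rw [hq]
    exact iterateFrobeniusEquiv_def F p a c
  have hσi : ∀ (i : ℕ) (c : F), (σ ^ i) c = c ^ (q ^ i) := by
    intro i c
    induction i with
    | zero => simp
    | succ i ih =>
      rw [pow_succ', RingAut.mul_apply, ih, hσ, ← pow_mul, ← pow_succ]
  have hsemi : Semi ΦN σ := by
    intro c
    apply Subtype.ext
    show Φ (algebraMap F K c) = algebraMap F K (σ c)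
    rw [hconst, hσ]
  let xN : N := ⟨x, hxN⟩
  have hxN' : Transcendental F xN := by
    rw [← transcendental_algebraMap_iff (R := F) (S := N) (A := K) (algebraMap N K).injective]
    exact hx
  have hΦxN : ΦN xN = xN := Subtype.ext hΦx
  have hΦxNi : ∀ i : ℕ, (ΦN ^ i) xN = xN := by
    intro i
    induction i with
    | zero => rfl
    | succ i ih => rw [pow_succ', RingAut.mul_apply, ih, hΦxN]
  obtain ⟨r, hr, w₀, hw₀⟩ := exists_fix_place hsemi (fun c => by
    obtain ⟨m, hm, hmc⟩ := htor c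
    exact ⟨m, hm, by rw [hσi, hmc]⟩) hxN' hΦxN
  set Q : ℕ := q ^ r with hQ
  have hQ1 : 1 < Q := Nat.one_lt_pow hr.ne' hq1
  have hpow : ∀ {m : ℕ}, 1 < m → {c : F | c ^ m = c}.Finite := by
    intro m hm
    have h1 : ((X ^ m - X : F[X]).roots.toFinset : Set F).Finite := Finset.finite_toSet _
    refine h1.subset ?_
    intro c hc
    rw [Finset.mem_coe, Multiset.mem_toFinset,
      mem_roots (FiniteField.X_pow_card_sub_X_ne_zero F hm)]
    have hc' : c ^ m = c := hc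
    simp [IsRoot, hc']
  have hsemir : Semi (ΦN ^ r) (σ ^ r) := hsemi.pow r
  have hw₀' : pullE hsemir w₀ = w₀ := by
    conv_rhs => rw [← hw₀]
    apply FF.Place.ext
    funext z
    rw [pullE_ord, pullE_pow_ord]
  have hσf : ∀ j : ℕ, 0 < j → {c : F | ((σ ^ r) ^ j) c = c}.Finite := by
    intro j hj
    have h1 : {c : F | ((σ ^ r) ^ j) c = c} = {c : F | c ^ (q ^ (r * j)) = c} := by
      ext c
      rw [Set.mem_setOf_eq, Set.mem_setOf_eq, ← pow_mul, hσi]
    rw [h1]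
    exact hpow (Nat.one_lt_pow (by positivity) hq1)
  let S : Finset F := (hpow hQ1).toFinset
  have hS : ∀ c : F, c ≠ 0 → (σ ^ r) c = c → c ∈ S := by
    intro c _ hc
    rw [hσi] at hc
    exact (Set.Finite.mem_toFinset _).2 hc
  obtain ⟨C, hC⟩ := cls_fin hsemir hσf hxN' (hΦxNi r) hw₀'
  refine ⟨S.card * C, ?_⟩
  rintro h h0 ⟨n, hn, hdiv⟩ hh
  have hL : (((ℓ ^ n : ℕ) : ℕ) : F) ≠ 0 := by
    rw [Nat.cast_pow]
    apply pow_ne_zero
    intro h1
    rw [CharP.cast_eq_zero_iff F p] at h1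
    exact hℓp ((Nat.prime_dvd_prime_iff_eq hp hℓ).1 h1).symm
  have hint : IsIntegral N h := by
    refine ⟨X ^ (ℓ ^ n) - Polynomial.C (⟨_, hn⟩ : N), monic_X_pow_sub_C _ (pow_pos hℓ.pos n).ne', ?_⟩
    simp
  let E : IntermediateField N K := IntermediateField.adjoin N {h}
  haveI : FiniteDimensional N E := IntermediateField.adjoin.finiteDimensional hint
  haveI : IsFF F E := isFF_ext F N E
  have hhE : h ∈ E := IntermediateField.mem_adjoin_simple_self N h
  have hNE : ∀ z : K, z ∈ N → z ∈ E := fun z hz => E.algebraMap_mem (⟨z, hz⟩ : N)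
  -- the iterates
  have hiter : ∀ i : ℕ, ∃ u ∈ N, (Φ ^ i) h = u * h ^ (q ^ i) := by
    intro i
    induction i with
    | zero => exact ⟨1, one_mem _, by simp⟩
    | succ i ih =>
      obtain ⟨u, hu, hu'⟩ := ih
      refine ⟨Φ u * (Φ h / h ^ q) ^ (q ^ i), mul_mem ((hN _).2 hu) (pow_mem hh _), ?_⟩
      rw [pow_succ', RingAut.mul_apply, hu', map_mul, map_pow, div_pow, ← pow_mul, ← pow_succ']
      have : h ^ (q ^ (i + 1)) ≠ 0 := pow_ne_zero _ h0
      field_simp
  obtain ⟨u, hu, hu'⟩ := hiter r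
  rw [← hQ] at hu'
  have hu0 : u ≠ 0 := by
    rintro rfl
    rw [zero_mul] at hu'
    have : (Φ ^ r) h ≠ 0 := (map_ne_zero_iff _ (Φ ^ r).injective).2 h0
    exact this hu'
  have hNr : ∀ z : K, z ∈ N → (Φ ^ r) z ∈ N := by
    intro z hz
    have := hΦN r ⟨z, hz⟩
    rw [← this]
    exact SetLike.coe_mem _
  have hNr' : ∀ z : K, z ∈ N → (Φ ^ r).symm z ∈ N := by
    intro z hz
    have h1 := hΦN r ((ΦN ^ r).symm ⟨z, hz⟩)
    rw [RingEquiv.apply_symm_apply] at h1
    have h2 : (Φ ^ r).symm z = (((ΦN ^ r).symm ⟨z, hz⟩ : N) : K) := by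
      rw [RingEquiv.symm_apply_eq]; exact h1
    rw [h2]
    exact SetLike.coe_mem _
  have hmaps : ∀ (Θ : K ≃+* K), (∀ z ∈ N, Θ z ∈ N) → Θ h ∈ E → ∀ z ∈ E, Θ z ∈ E := by
    intro Θ hΘ hΘh
    let E' : IntermediateField N K := (E.toSubfield.comap (Θ : K →+* K)).toIntermediateField (by
      intro z
      show Θ (z : K) ∈ E
      exact hNE _ (hΘ _ z.2))
    have h1 : E ≤ E' := by
      show IntermediateField.adjoin N {h} ≤ E'
      rw [IntermediateField.adjoin_simple_le_iff]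
      exact hΘh
    exact fun z hz => h1 hz
  have hm1 : ∀ z ∈ E, (Φ ^ r) z ∈ E := hmaps (Φ ^ r) hNr (by
    rw [hu']
    exact mul_mem (hNE _ hu) (pow_mem hhE _))
  have hm2 : ∀ z ∈ E, (Φ ^ r).symm z ∈ E := hmaps (Φ ^ r).symm hNr' (by
    have hQn : (Φ ^ r).symm (h ^ Q) = h * (Φ ^ r).symm u⁻¹ := by
      rw [RingEquiv.symm_apply_eq, map_mul, RingEquiv.apply_symm_apply, hu']
      field_simp
    have hcop : Nat.Coprime Q (ℓ ^ n) := by
      rw [hQ, hq, ← pow_mul]
      exact Nat.Coprime.pow _ _ ((Nat.coprime_primes hp hℓ).2 (Ne.symm hℓp))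
    have hbez := Nat.gcd_eq_gcd_ab Q (ℓ ^ n)
    rw [Nat.Coprime.gcd_eq_one hcop] at hbez
    have h1 : h = (h ^ Q) ^ (Nat.gcdA Q (ℓ ^ n)) * (h ^ (ℓ ^ n)) ^ (Nat.gcdB Q (ℓ ^ n)) := by
      rw [← zpow_natCast, ← zpow_natCast, ← zpow_mul, ← zpow_mul, ← zpow_add₀ h0, ← hbez]
      simp
    rw [h1, map_mul, map_zpow₀, map_zpow₀, hQn]
    exact mul_mem (zpow_mem (mul_mem hhE (hNE _ (hNr' _ (inv_mem hu)))) _)
      (zpow_mem (hNE _ (hNr' _ hn)) _))
  let Ψ : E ≃+* E :=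
    { toFun := fun z => ⟨(Φ ^ r) z, hm1 z z.2⟩
      invFun := fun z => ⟨(Φ ^ r).symm z, hm2 z z.2⟩
      left_inv := fun z => Subtype.ext ((Φ ^ r).symm_apply_apply _)
      right_inv := fun z => Subtype.ext ((Φ ^ r).apply_symm_apply _)
      map_mul' := fun z z' => Subtype.ext (map_mul (Φ ^ r) _ _)
      map_add' := fun z z' => Subtype.ext (map_add (Φ ^ r) _ _) }
  have hΨ : Semi Ψ (σ ^ r) := by
    intro c
    apply Subtype.ext
    show (Φ ^ r) (algebraMap F K c) = algebraMap F K ((σ ^ r) c)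
    rw [Pool.Agent.Y732.PS.iter_const hconst, hσi]
  let h' : E := IntermediateField.AdjoinSimple.gen N h
  have hh' : (h' : K) = h := rfl
  have hbE : h' ^ (ℓ ^ n) = algebraMap N E (⟨_, hn⟩ : N) := by
    apply Subtype.ext
    rfl
  have h'0 : h' ≠ 0 := fun h1 => h0 (congrArg Subtype.val h1)
  have hdiv' : ∀ w : Place F N, ((ℓ ^ n : ℕ) : ℤ) ∣ w.ord ⟨_, hn⟩ := by
    intro w
    rw [Nat.cast_pow]
    exact hdiv w
  have hbound : finrank N E ≤ S.card * C :=
    kum_bound hL h'0 hbE (adjoin_gen_top h) hdiv' hΨ hsemir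
      (fun z => Subtype.ext (hΦN r z).symm) hQ1 (fun c => by rw [hσi]) ⟨u, hu⟩
      (Subtype.ext hu') hσf S hS hxN' (hΦxNi r) hw₀' C hC
  obtain ⟨z, hz⟩ := kum_pow (k := F) hℓ hL h'0 hbE (adjoin_gen_top h) hbound
  have h1 := congrArg Subtype.val hz
  have h2 : h ^ (ℓ ^ (S.card * C)) = (z : K) := by
    rw [← hh']
    exact h1.symm
  rw [h2]
  exact z.2

end Pool.Agent.R925.Q
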