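import Pool.Agent.R925.Q.Geo
import Pool.Agent.Y157.PS.Padic
import Pool.Agent.Y157.PS.Ind2

/-! Sections with a nontrivial centraliser: statements for arbitrary extensions `N` of `M`. -/

set_option autoImplicit false
set_option linter.all false

open Polynomial FF

namespace Pool.Agent.R925.Q

open Pool.Agent.Y157.PS

/-- `γ` is a nontrivial automorphism of `M` over the constants and `x`, which commutes with `S σ`
for `σ ∈ H` -/
def Sy (k : Type) {F Ω : Type} [Field k] [Field F] [Field Ω] [Algebra k Ω] [Algebra F Ω]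
    (x : F) (M N : IntermediateField F Ω) {G : Type} [Group G] (S : G →* (N ≃ₐ[F] N))
    (H : Subgroup G) (γ : M ≃+* M) : Prop :=
  γ ≠ RingEquiv.refl M ∧ (∀ z : M, IsAlgebraic k (z : Ω) → γ z = z) ∧
    γ (algebraMap F M x) = algebraMap F M x ∧
    ∀ σ ∈ H, ∀ (z w : M) (a b : N), (a : Ω) = z → (b : Ω) = (γ z : Ω) → (S σ a : Ω) = w →
      (S σ b : Ω) = (γ w : Ω)

/-- exactly one branch point -/
def FB (k : Type) {F Ω : Type} [Field k] [Field F] [Field Ω] [Algebra k F] [Algebra F Ω]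
    (f : k[X]) (x : F) (M N : IntermediateField F Ω) {G : Type} [Group G]
    (S : G →* (N ≃ₐ[F] N)) : Prop :=
  ∃ W : ValuationSubring N,
    (((∀ c : k, algebraMap F N (algebraMap k F c) ∈ W) ∧
      (∃ e : k, aeval e f = 0 ∧ algebraMap F N (x - algebraMap k F e) ∈ W.nonunits) ∧
      (∀ z : F, algebraMap F N z ∈ W →
        ∃ c : k, algebraMap F N (z - algebraMap k F c) ∈ W.nonunits)) ∧
      ∀ σ, ∀ z : N, (z : Ω) ∈ M → (S σ z ∈ W ↔ z ∈ W)) ∧
    ∀ W' : ValuationSubring N, (∀ c : k, algebraMap F N (algebraMap k F c) ∈ W') →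
      algebraMap F N (aeval x f) ∈ W'.nonunits →
      (∀ σ, ∀ z : N, (z : Ω) ∈ M → (S σ z ∈ W' ↔ z ∈ W')) →
      ∀ z : N, (z : Ω) ∈ M → (z ∈ W' ↔ z ∈ W)

section main

variable {k F Ω : Type} [Field k] [CharZero k] [Field F] [Field Ω] [Algebra k F] [Algebra F Ω]
    [Algebra k Ω] [IsScalarTower k F Ω] [IsAlgClosed Ω] [Algebra.IsAlgebraic F Ω]

theorem finN {ℓ : ℕ} [Fact ℓ.Prime] (f : k[X]) (hs : f.Separable) (hdvd : ℓ ∣ f.natDegree)
    (h3 : 3 ≤ f.natDegree) (hRR : RR ℓ k (algebraicClosure k Ω) f) (d : k) (hd : d ≠ 0)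
    (x y : F) (hx : Transcendental k x)
    (hxy : algebraMap k F d * y ^ ℓ = aeval x f)
    (hF : IntermediateField.adjoin k {x, y} = (⊤ : IntermediateField k F))
    (N : IntermediateField F Ω) (hN : geomPro ℓ k F Ω ≤ N)
    (S : (algebraicClosure k Ω ≃ₐ[k] algebraicClosure k Ω) →* (N ≃ₐ[F] N)) (hcont : Continuous S)
    (hcompat : ∀ σ (c : algebraicClosure k Ω) (z : N), (z : Ω) = (c : Ω) →
      (S σ z : Ω) = (σ c : Ω)) :
    (∀ H : Subgroup (algebraicClosure k Ω ≃ₐ[k] algebraicClosure k Ω), H.index ≠ 0 → ∀ γ,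
      Sy k x (geomPro ℓ k F Ω) N S H γ → FB k f x (geomPro ℓ k F Ω) N S) ∧
    (∀ (H : Subgroup (algebraicClosure k Ω ≃ₐ[k] algebraicClosure k Ω)), H.index ≠ 0 →
      ∀ W : ValuationSubring N, (∀ c : k, algebraMap F N (algebraMap k F c) ∈ W) →
      algebraMap F N (aeval x f) ∈ W.nonunits →
      (∀ σ ∈ H, ∀ z : N, (z : Ω) ∈ geomPro ℓ k F Ω → (S σ z ∈ W ↔ z ∈ W)) →
      ∃ H' : Subgroup (algebraicClosure k Ω ≃ₐ[k] algebraicClosure k Ω), H'.index ≠ 0 ∧
        ∃ γ, Sy k x (geomPro ℓ k F Ω) N S H' γ) ∧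
    (∀ (H H' : Subgroup (algebraicClosure k Ω ≃ₐ[k] algebraicClosure k Ω)), H.index ≠ 0 →
      H'.index ≠ 0 → ∀ γ γ', Sy k x (geomPro ℓ k F Ω) N S H γ →
      Sy k x (geomPro ℓ k F Ω) N S H' γ' →
      (∀ z, γ^[ℓ] z = z) ∧ ∃ i : ℕ, ∀ z, γ' z = γ^[i] z) := by
  classical
  have hac : IsAlgClosure k (algebraicClosure k Ω) := inferInstance
  have : Normal k (algebraicClosure k Ω) := IsAlgClosure.normal k _
  have hGal : IsGalois k (algebraicClosure k Ω) := ⟨⟩
  have halg := alg_of_eqn (Fact.out : ℓ.Prime).pos f d hd x y hxy hF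
  obtain ⟨T, hTc, hT⟩ := a_ind2 ℓ k F Ω x hx halg N hN _ S hcont
  have hTcompat : ∀ σ (c : algebraicClosure k Ω) (z : geomPro ℓ k F Ω), (z : Ω) = (c : Ω) →
      (T σ z : Ω) = (σ c : Ω) := by
    intro σ c z hz
    rw [hT σ ⟨(z : Ω), hN z.2⟩ z rfl]
    exact hcompat σ c _ hz
  obtain ⟨c1, c2, c3⟩ := geoK f hs hdvd h3 hRR d hd x y hx hxy hF T hTcompat
  -- symmetries
  have hcom : ∀ H γ, Sy k x (geomPro ℓ k F Ω) N S H γ → Com (cst ℓ k F Ω) x T H γ := by
    rintro H γ ⟨-, h1, h2, h3⟩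
    refine ⟨fun c => h1 _ ?_, h2, fun σ hσ z => ?_⟩
    · exact (mem_algebraicClosure_iff.1 c.2)
    · apply Subtype.ext
      have h4 := h3 σ hσ z (T σ z) ⟨(z : Ω), hN z.2⟩ ⟨(γ z : Ω), hN (γ z).2⟩ rfl rfl
        (hT σ ⟨(z : Ω), hN z.2⟩ z rfl).symm
      rw [← h4]
      exact (hT σ ⟨(γ z : Ω), hN (γ z).2⟩ (γ z) rfl).symm
  have hcom' : ∀ H γ, γ ≠ RingEquiv.refl _ → Com (cst ℓ k F Ω) x T H γ →
      Sy k x (geomPro ℓ k F Ω) N S H γ := by
    rintro H γ h0 ⟨h1, h2, h3⟩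
    refine ⟨h0, fun z hz => ?_, h2, fun σ hσ z w a b ha hb hw => ?_⟩
    · have h4 := h1 ⟨(z : Ω), mem_algebraicClosure_iff.2 hz⟩
      exact h4
    · have h5 : w = T σ z := Subtype.ext ((hw.symm.trans (hT σ a z ha.symm).symm))
      rw [h5, h3 σ hσ, hT σ b (γ z) hb.symm]
  let ι : geomPro ℓ k F Ω →+* N := ((IntermediateField.inclusion hN :
        geomPro ℓ k F Ω →ₐ[F] N) : geomPro ℓ k F Ω →+* N)
  have hιc : ∀ z : F, ι (algebraMap F (geomPro ℓ k F Ω) z) = algebraMap F N z := fun z => rfl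
  have hf0 : f ≠ 0 := by rintro rfl; simp at h3
  have hfx0 : aeval x f ≠ 0 := by
    intro h
    exact hx ⟨f, hf0, h⟩
  -- the roots of `f`
  have hcstk : ∀ c : k, cst ℓ k F Ω (algebraMap k _ c) =
      algebraMap F (geomPro ℓ k F Ω) (algebraMap k F c) := by
    intro c
    apply Subtype.ext
    change algebraMap k Ω c = algebraMap F Ω (algebraMap k F c)
    exact IsScalarTower.algebraMap_apply k F Ω c
  have hcmem : ∀ W : ValuationSubring (geomPro ℓ k F Ω),
      (∀ c : k, algebraMap F (geomPro ℓ k F Ω) (algebraMap k F c) ∈ W) →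
      ∀ c, cst ℓ k F Ω c ∈ W := fun W hW c => const_mem_N _ W hW c _ rfl
  have hne : ∀ e : algebraicClosure k Ω,
      algebraMap F (geomPro ℓ k F Ω) x - cst ℓ k F Ω e ≠ 0 := by
    intro e h
    have h4 : algebraMap F Ω x = (e : Ω) := congrArg (algebraMap (geomPro ℓ k F Ω) Ω)
      (sub_eq_zero.1 h)
    have h5 : IsAlgebraic k (algebraMap F Ω x) := by rw [h4]; exact mem_algebraicClosure_iff.1 e.2
    exact hx ((isAlgebraic_algebraMap_iff (algebraMap F Ω).injective).1 h5)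
  -- valuation rings above a branch point
  have hbr : ∀ W : ValuationSubring (geomPro ℓ k F Ω),
      (∀ c : k, algebraMap F (geomPro ℓ k F Ω) (algebraMap k F c) ∈ W) →
      algebraMap F (geomPro ℓ k F Ω) (aeval x f) ∈ W.nonunits →
      ∃ e : algebraicClosure k Ω, aeval e f = 0 ∧
        algebraMap F (geomPro ℓ k F Ω) x - cst ℓ k F Ω e ∈ W.nonunits := by
    intro W hW hfW
    have hkb : IsAlgClosed (algebraicClosure k Ω) := hac.1
    have hcsthom : ∃ g : algebraicClosure k Ω →+* geomPro ℓ k F Ω, ∀ c, g c = cst ℓ k F Ω c := by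
      exact ⟨{ toFun := cst ℓ k F Ω
               map_one' := rfl
               map_mul' := fun _ _ => rfl
               map_zero' := rfl
               map_add' := fun _ _ => rfl }, fun c => rfl⟩
    obtain ⟨g, hg⟩ := hcsthom
    set P := f.map (algebraMap k (algebraicClosure k Ω)) with hP
    have hP0 : P ≠ 0 := (Polynomial.map_ne_zero_iff (algebraMap k _).injective).2 hf0
    have hsp := (IsAlgClosed.splits P).eq_prod_roots
    have h5 : algebraMap F (geomPro ℓ k F Ω) (aeval x f) =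
        g P.leadingCoeff * (P.roots.map fun e => algebraMap F (geomPro ℓ k F Ω) x - g e).prod := by
      have h6 : algebraMap F (geomPro ℓ k F Ω) (aeval x f) =
          P.eval₂ g (algebraMap F (geomPro ℓ k F Ω) x) := by
        rw [hP, eval₂_map, aeval_def, hom_eval₂]
        congr 1
        ext c
        change _ = ((g (algebraMap k _ c) : geomPro ℓ k F Ω) : Ω)
        rw [hg, hcstk]
        rfl
      rw [h6]
      conv_lhs => rw [hsp]
      rw [eval₂_mul, eval₂_C, ← coe_eval₂RingHom, map_multiset_prod, Multiset.map_map]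
      congr 2
      refine Multiset.map_congr rfl fun a _ => ?_
      simp
    by_contra hcon
    push Not at hcon
    have h7 : ∀ e ∈ P.roots, (algebraMap F (geomPro ℓ k F Ω) x - g e)⁻¹ ∈ W := by
      intro e he
      apply inv_mem_of_not_nonunit
      rw [hg]
      refine hcon e ?_
      rw [mem_roots hP0, IsRoot.def, hP, eval_map] at he
      exact he
    have h8 : (algebraMap F (geomPro ℓ k F Ω) (aeval x f))⁻¹ ∈ W := by
      rw [h5, mul_inv, ← map_inv₀, hg]
      refine mul_mem (hcmem W hW _) ?_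
      rw [← Multiset.prod_map_inv']
      refine multiset_prod_mem _ fun z hz => ?_
      obtain ⟨w, hw, rfl⟩ := Multiset.mem_map.1 hz
      obtain ⟨e, he, rfl⟩ := Multiset.mem_map.1 hw
      exact h7 e he
    rcases (nonunits_iff.1 hfW).2 with h9 | h9
    · exact hfx0 ((_root_.map_eq_zero _).1 h9)
    · exact h9 h8
  have hntop : ∀ (W : ValuationSubring (geomPro ℓ k F Ω)) (z : geomPro ℓ k F Ω), z ≠ 0 →
      z ∈ W.nonunits → W ≠ ⊤ := by
    intro W z hz hzW h0
    rcases (nonunits_iff.1 hzW).2 with h9 | h9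
    · exact hz h9
    · rw [h0] at h9
      exact h9 trivial
  have hrat : ∀ c : algebraicClosure k Ω, (∀ σ : algebraicClosure k Ω ≃ₐ[k]
      algebraicClosure k Ω, σ c = c) → ∃ c' : k, algebraMap k (algebraicClosure k Ω) c' = c := by
    intro c hc
    exact IntermediateField.mem_bot.1 ((InfiniteGalois.mem_bot_iff_fixed c).2 hc)
  refine ⟨?_, ?_, ?_⟩
  · intro H hH γ hSy
    obtain ⟨W₀, a1, a2, ⟨e, he, hefix, a3⟩, a4, a5, a6⟩ := c1 H hH γ hSy.1 (hcom H γ hSy)
    obtain ⟨e', rfl⟩ := hrat e hefix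
    have hk1 : ∀ c : k, algebraMap F (geomPro ℓ k F Ω) (algebraMap k F c) ∈ W₀ := by
      intro c
      rw [← hcstk]
      exact a1 _
    have he0 : aeval e' f = 0 := by
      rw [aeval_algebraMap_apply] at he
      exact (_root_.map_eq_zero _).1 he
    have hxe : algebraMap F (geomPro ℓ k F Ω) (x - algebraMap k F e') ∈ W₀.nonunits := by
      rw [map_sub, ← hcstk]
      exact a3
    have hres : ∀ z : F, algebraMap F (geomPro ℓ k F Ω) z ∈ W₀ →
        ∃ c : k, algebraMap F (geomPro ℓ k F Ω) (z - algebraMap k F c) ∈ W₀.nonunits := by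
      intro z hz
      obtain ⟨c, hc⟩ := a2 _ hz
      obtain ⟨c', rfl⟩ := hrat c fun σ => res_fixed _ W₀ hk1 σ (T σ) (a4 σ)
        (fun c z hz => hTcompat σ c z hz) z c _ hc rfl
      refine ⟨c', ?_⟩
      rw [map_sub, ← hcstk]
      exact hc
    obtain ⟨W, hW1, hW2⟩ := lift_thm (geomPro ℓ k F Ω) N hN S T
      (fun σ => True) hT
      (fun L W => (∀ c : k, algebraMap F L (algebraMap k F c) ∈ W) ∧
        (∃ e : k, aeval e f = 0 ∧ algebraMap F L (x - algebraMap k F e) ∈ W.nonunits) ∧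
        (∀ z : F, algebraMap F L z ∈ W →
          ∃ c : k, algebraMap F L (z - algebraMap k F c) ∈ W.nonunits))
      (fun L W => (∀ c : k, algebraMap F L (algebraMap k F c) ∈ W) ∧
        algebraMap F L (aeval x f) ∈ W.nonunits)
      (by
        rintro W ⟨b1, ⟨e, he, b2⟩, b3⟩
        refine ⟨b1, ⟨e, he, (non_incl ι W _).1 b2⟩, fun z hz => ?_⟩
        obtain ⟨c, hc⟩ := b3 z hz
        exact ⟨c, (non_incl ι W _).1 hc⟩)
      (by
        rintro W ⟨b1, b2⟩
        exact ⟨b1, (non_incl ι W _).2 b2⟩)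
      ⟨W₀, ⟨⟨hk1, ⟨e', he0, hxe⟩, hres⟩, fun σ _ z => a4 σ z⟩, by
        rintro W' ⟨b1, b2⟩ b3
        obtain ⟨e₁, he₁, b4⟩ := hbr W' b1 b2
        obtain ⟨γ', hγ1, hγW, U', hU', hγC⟩ := c3 ⊤ (by rw [Subgroup.index_top]; exact one_ne_zero)
          W' (hcmem W' b1) ⟨e₁, he₁, b4⟩ (fun σ _ z => b3 σ trivial z)
        obtain ⟨-, i, hi⟩ := c2 H U' hH hU' γ γ' hSy.1 (hcom H γ hSy) hγC
        obtain ⟨W₂, -, -, -, -, -, d6⟩ := c1 U' hU' γ' hγ1 hγC
        have hW' : W' = W₂ := d6 W' (hcmem W' b1) (hntop W' _ (hne e₁) b4) hγW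
        have hW₀ : W₀ = W₂ := by
          refine d6 W₀ a1 (hntop W₀ _ (hne _) a3) fun z => ?_
          rw [hi]
          have h9 : ∀ (n : ℕ) (z), γ^[n] z ∈ W₀ ↔ z ∈ W₀ := by
            intro n
            induction n with
            | zero => intro z; exact Iff.rfl
            | succ n ih =>
              intro z
              rw [Function.iterate_succ_apply, ih, a5]
          exact h9 i z
        rw [hW', hW₀]⟩
    exact ⟨W, ⟨hW1.1, fun σ z hz => hW1.2 σ trivial z hz⟩, fun W' b1 b2 b3 =>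
      hW2 W' ⟨b1, b2⟩ (fun σ _ z hz => b3 σ z hz)⟩
  · intro H hH W h1 h2 h4
    have hst : ∀ σ ∈ H, ∀ z, T σ z ∈ W.comap ι ↔ z ∈ W.comap ι := by
      intro σ hσ z
      have h5 := h4 σ hσ (ι z) z.2
      have h6 : ι (T σ z) = S σ (ι z) := Subtype.ext (hT σ (ι z) z rfl)
      rw [ValuationSubring.mem_comap, ValuationSubring.mem_comap, h6]
      exact h5
    have hk1 : ∀ c : k, algebraMap F (geomPro ℓ k F Ω) (algebraMap k F c) ∈ W.comap ι := h1
    obtain ⟨e, he, h7⟩ := hbr (W.comap ι) hk1 ((non_incl ι W _).2 h2)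
    obtain ⟨γ, hγ1, -, U', hU', hγ⟩ := c3 H hH (W.comap ι) (hcmem _ hk1) ⟨e, he, h7⟩ hst
    exact ⟨U', hU', γ, hcom' U' γ hγ1 hγ⟩
  · intro H H' hH hH' γ γ' hγ hγ'
    exact c2 H H' hH hH' γ γ' hγ.1 (hcom H γ hγ) (hcom H' γ' hγ')

end main

end Pool.Agent.R925.Q
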