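import Pool.Agent.R925.Q.DescN
import Pool.Agent.R925.Q.Fin

/-! Maximal extensions of partial sections: superelliptic curves. -/

set_option autoImplicit false
set_option linter.all false

open Polynomial FF

namespace Pool.Agent.R925.Q

open Pool.Agent.Y157.PS

section main

variable {k F Ω : Type} [Field k] [CharZero k] [Field F] [Field Ω] [Algebra k F] [Algebra F Ω] [Algebra k Ω] [IsScalarTower k F Ω]
    [IsAlgClosed Ω] [Algebra.IsAlgebraic F Ω]

/-- rigidity in `S` and inertia elements for all covers branched at the roots of `f` -/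
def RRS (ℓ : ℕ) [Fact ℓ.Prime] (k κ : Type) [Field k] [Field κ] [Algebra k κ] (f : k[X])
    (S : Subgroup (κ ≃ₐ[k] κ)) : Prop :=
  ∀ (R M : Type) [Field R] [Field M] [Algebra κ R] [Algebra R M] [Algebra κ M]
    [IsScalarTower κ R M] (x : R) (B : Finset κ) (Y : M), (∀ θ, θ ∈ B ↔ aeval θ f = 0) →
    Cov ℓ κ R M x B Y → RigS k κ R M x Y S ∧ Rot κ R M x B Y

/-- the constants, as a homomorphism -/
noncomputable def cstH (ℓ : ℕ) (k F Ω : Type) [Field k] [Field F] [Field Ω] [Algebra k F]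
    [Algebra F Ω] [Algebra k Ω] [IsScalarTower k F Ω] : algebraicClosure k Ω →+* geomPro ℓ k F Ω where
  toFun := cst ℓ k F Ω
  map_one' := rfl
  map_mul' := fun _ _ => rfl
  map_zero' := rfl
  map_add' := fun _ _ => rfl

theorem geoP {ℓ : ℕ} [Fact ℓ.Prime]
    (f : k[X]) (hs : f.Separable) (hdvd : ℓ ∣ f.natDegree)
    (h3 : 3 ≤ f.natDegree)
    (d : k) (hd : d ≠ 0)
    (x y : F) (hx : Transcendental k x)
    (hxy : algebraMap k F d * y ^ ℓ = aeval x f)
    (hF : IntermediateField.adjoin k {x, y} = (⊤ : IntermediateField k F))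
    (S : Subgroup (algebraicClosure k Ω ≃ₐ[k] algebraicClosure k Ω)) (hSn : S.Normal)
    (hRR : RRS ℓ k (algebraicClosure k Ω) f S)
    (H : Subgroup (algebraicClosure k Ω ≃ₐ[k] algebraicClosure k Ω))
    (hHi : H.index ≠ 0)
    (s : H →* RingAut (geomPro ℓ k F Ω))
    (hps : PSec (cst ℓ k F Ω) (algebraMap F (geomPro ℓ k F Ω) x) H s) :
    ((¬ ∃ W : ValuationSubring (geomPro ℓ k F Ω),
      (∀ c : k, algebraMap F (geomPro ℓ k F Ω) (algebraMap k F c) ∈ W) ∧
      algebraMap F (geomPro ℓ k F Ω) (aeval x f) ∈ W.nonunits ∧ ∀ σ z, s σ z ∈ W ↔ z ∈ W) →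
    Triv (cst ℓ k F Ω) (algebraMap F (geomPro ℓ k F Ω) x) H s S) ∧
    (∀ U : Subgroup (algebraicClosure k Ω ≃ₐ[k] algebraicClosure k Ω), U.index ≠ 0 →
      ∀ W : ValuationSubring (geomPro ℓ k F Ω),
      (∀ c : k, algebraMap F (geomPro ℓ k F Ω) (algebraMap k F c) ∈ W) →
      algebraMap F (geomPro ℓ k F Ω) (aeval x f) ∈ W.nonunits →
      (∀ σ : H, (σ : algebraicClosure k Ω ≃ₐ[k] algebraicClosure k Ω) ∈ U →
        (σ : algebraicClosure k Ω ≃ₐ[k] algebraicClosure k Ω) ∈ S → ∀ z, s σ z ∈ W ↔ z ∈ W) →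
      ∀ σ z, s σ z ∈ W ↔ z ∈ W) := by
  classical
  have hℓp : ℓ.Prime := Fact.out
  have hac : IsAlgClosure k (algebraicClosure k Ω) := inferInstance
  have hkb : IsAlgClosed (algebraicClosure k Ω) := hac.1
  have hch : CharZero (algebraicClosure k Ω) :=
    charZero_of_injective_algebraMap (algebraMap k (algebraicClosure k Ω)).injective
  have hf0 : f ≠ 0 := by rintro rfl; simp at h3
  have hlck0 : f.leadingCoeff ≠ 0 := leadingCoeff_ne_zero.2 hf0
  -- the element `δ`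
  obtain ⟨δ, hδ⟩ : ∃ δ : algebraicClosure k Ω, δ ^ ℓ =
      algebraMap k (algebraicClosure k Ω) (d / f.leadingCoeff) :=
    IsAlgClosed.exists_pow_nat_eq _ hℓp.pos
  have hδ0 : δ ≠ 0 := by
    rintro rfl
    rw [zero_pow hℓp.ne_zero] at hδ
    exact (_root_.map_ne_zero _).2 (div_ne_zero hd hlck0) hδ.symm
  -- the roots
  set P := f.map (algebraMap k (algebraicClosure k Ω)) with hP
  have hnd : P.roots.Nodup := nodup_roots hs.map
  have hlc0 : algebraMap k (algebraicClosure k Ω) f.leadingCoeff ≠ 0 :=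
    (_root_.map_ne_zero _).2 hlck0
  have hP0 : P ≠ 0 := (Polynomial.map_ne_zero_iff (algebraMap k _).injective).2 hf0
  have hPdeg : P.natDegree = f.natDegree := natDegree_map_eq_of_injective (algebraMap k _).injective f
  set B : Finset (algebraicClosure k Ω) := P.roots.toFinset with hBdef
  have hmemB : ∀ θ, θ ∈ B ↔ aeval θ f = 0 := by
    intro θ
    rw [hBdef, Multiset.mem_toFinset, mem_roots hP0, IsRoot.def, hP, eval_map]
    rfl
  have hcard : B.card = f.natDegree := by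
    rw [hBdef, Multiset.toFinset_card_of_nodup hnd, ← hPdeg]
    exact (IsAlgClosed.splits P).natDegree_eq_card_roots.symm
  -- the product formula
  have hPx : ∀ z : Ω, P.eval₂ (algebraMap (algebraicClosure k Ω) Ω) z =
      algebraMap (algebraicClosure k Ω) Ω (algebraMap k (algebraicClosure k Ω) f.leadingCoeff) *
        ∏ e ∈ B, (z - algebraMap (algebraicClosure k Ω) Ω e) := by
    intro z
    have h1 := (IsAlgClosed.splits P).eq_prod_roots
    have h5 : P.leadingCoeff = algebraMap k (algebraicClosure k Ω) f.leadingCoeff :=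
      leadingCoeff_map_of_leadingCoeff_ne_zero _ hlc0
    rw [h5] at h1
    have h6 : ∏ e ∈ B, (z - algebraMap (algebraicClosure k Ω) Ω e) =
        (P.roots.map fun e => z - algebraMap (algebraicClosure k Ω) Ω e).prod := by
      rw [hBdef, Finset.prod, Multiset.toFinset_val, Multiset.dedup_eq_self.2 hnd]
    rw [h6]
    conv_lhs => rw [h1]
    rw [eval₂_mul, eval₂_C, ← coe_eval₂RingHom, map_multiset_prod, Multiset.map_map]
    congr 2
    refine Multiset.map_congr rfl fun a _ => ?_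
    simp
  have hfx : algebraMap F Ω (aeval x f) =
      P.eval₂ (algebraMap (algebraicClosure k Ω) Ω) (algebraMap F Ω x) := by
    rw [aeval_def, hom_eval₂, hP, eval₂_map, ← IsScalarTower.algebraMap_eq k F Ω,
      ← IsScalarTower.algebraMap_eq k (algebraicClosure k Ω) Ω]
  set Y0 : Ω := (δ : Ω) * algebraMap F Ω y with hY0
  have hY : Y0 ^ ℓ = ∏ e ∈ B, (algebraMap F Ω x - algebraMap (algebraicClosure k Ω) Ω e) := by
    have h1 := congrArg (algebraMap F Ω) hxy
    rw [map_mul, map_pow, ← IsScalarTower.algebraMap_apply, hfx, hPx] at h1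
    have h5 : algebraMap (algebraicClosure k Ω) Ω
        (algebraMap k (algebraicClosure k Ω) f.leadingCoeff) ≠ 0 := (_root_.map_ne_zero _).2 hlc0
    have h6 : (δ : Ω) ^ ℓ = algebraMap k Ω d / algebraMap (algebraicClosure k Ω) Ω
        (algebraMap k (algebraicClosure k Ω) f.leadingCoeff) := by
      have h7 := congrArg (algebraMap (algebraicClosure k Ω) Ω) hδ
      rw [map_pow, map_div₀, map_div₀, ← IsScalarTower.algebraMap_apply] at h7
      exact h7
    rw [hY0, mul_pow, h6, div_mul_eq_mul_div, h1, mul_div_cancel_left₀ _ h5]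
  -- the covering field
  have hX0 : Transcendental k (algebraMap F Ω x) :=
    (transcendental_algebraMap_iff (R := k) (algebraMap F Ω).injective (a := x)).2 hx
  have hrat := ratF_adj (trans_up hX0)
  have hYR : Y0 ^ ℓ ∈ IntermediateField.adjoin (algebraicClosure k Ω) {algebraMap F Ω x} := by
    rw [hY]
    exact prod_mem fun e _ => sub_mem (IntermediateField.mem_adjoin_simple_self _ _)
      (IntermediateField.algebraMap_mem _ e)
  have hclR := closure_R hF δ hδ0 hℓp.pos hYR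
  let R := IntermediateField.adjoin (algebraicClosure k Ω) {algebraMap F Ω x}
  let x' : R := ⟨algebraMap F Ω x, IntermediateField.mem_adjoin_simple_self _ _⟩
  obtain ⟨M, hM⟩ : ∃ M : IntermediateField R Ω,
      ∀ z, z ∈ M ↔ z ∈ maxPro ℓ (algebraicClosure k Ω) (IntermediateField.adjoin R {Y0}) Ω :=
    ⟨(maxPro ℓ (algebraicClosure k Ω) (IntermediateField.adjoin R {Y0}) Ω).restrictScalars R,
      fun z => Iff.rfl⟩
  have hYM : Y0 ∈ M := by
    rw [hM]
    exact (maxPro ℓ (algebraicClosure k Ω) (IntermediateField.adjoin R {Y0}) Ω).algebraMap_mem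
      ⟨Y0, IntermediateField.mem_adjoin_simple_self _ _⟩
  have hCov : Cov ℓ (algebraicClosure k Ω) R M x' B ⟨Y0, hYM⟩ :=
    a_cov ℓ (algebraicClosure k Ω) R Ω x' hrat B (by rw [hcard]; exact hdvd)
      (by rw [hcard]; exact h3) Y0 hY M hM ⟨Y0, hYM⟩ rfl
  have hMN : ∀ z, z ∈ M ↔ z ∈ geomPro ℓ k F Ω := fun z =>
    (hM z).trans (maxPro_geom ℓ k hF δ hδ0 z)
  let eqv : M ≃+* geomPro ℓ k F Ω :=
    { toFun := fun w => ⟨w.1, (hMN _).1 w.2⟩
      invFun := fun w => ⟨w.1, (hMN _).2 w.2⟩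
      left_inv := fun w => rfl
      right_inv := fun w => rfl
      map_mul' := fun w w' => rfl
      map_add' := fun w w' => rfl }
  obtain ⟨hRig, hRot⟩ := hRR R M x' B ⟨Y0, hYM⟩ hmemB hCov
  have hB : ∀ (σ : algebraicClosure k Ω ≃ₐ[k] algebraicClosure k Ω), ∀ e ∈ B, σ e ∈ B := by
    intro σ e he
    rw [hmemB] at he ⊢
    rw [← AlgEquiv.coe_algHom σ, aeval_algHom_apply, he, map_zero]
  have hcstk : ∀ c : k, algebraMap F (geomPro ℓ k F Ω) (algebraMap k F c) =
      cst ℓ k F Ω (algebraMap k _ c) := by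
    intro c
    apply Subtype.ext
    show algebraMap F Ω (algebraMap k F c) = algebraMap k Ω c
    exact (IsScalarTower.algebraMap_apply k F Ω c).symm
  have hfN : algebraMap F (geomPro ℓ k F Ω) (aeval x f) =
      P.eval₂ (cstH ℓ k F Ω) (algebraMap F (geomPro ℓ k F Ω) x) := by
    apply Subtype.ext
    show algebraMap F Ω (aeval x f) = algebraMap (geomPro ℓ k F Ω) Ω _
    rw [hfx, hom_eval₂]
    rfl
  have hfx0 : algebraMap F (geomPro ℓ k F Ω) (aeval x f) ≠ 0 :=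
    (_root_.map_ne_zero _).2 fun h => hx ⟨f, hf0, h⟩
  refine ⟨fun hnb => ?_, fun U hU W hW1 hW2 hW3 σ z => ?_⟩
  · refine trivN hCov hSn hRig eqv (cst ℓ k F Ω) (fun c => rfl) _ (Subtype.ext rfl) hHi hps ?_
    rintro ⟨W, hW1, ⟨e, heB, hWe⟩, hW3⟩
    apply hnb
    refine ⟨W, fun c => ?_, ?_, hW3⟩
    · rw [hcstk]
      exact hW1 _
    · obtain ⟨g, hg⟩ := dvd_iff_isRoot.2 ((mem_roots hP0).1 (Multiset.mem_toFinset.1 heB))
      rw [hfN, hg, eval₂_mul, eval₂_sub, eval₂_X, eval₂_C, mul_comm]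
      have hxW : algebraMap F (geomPro ℓ k F Ω) x ∈ W := by
        have h5 : algebraMap F (geomPro ℓ k F Ω) x =
            (algebraMap F (geomPro ℓ k F Ω) x - cst ℓ k F Ω e) + cst ℓ k F Ω e := by ring
        rw [h5]
        exact add_mem (nonunits_iff.1 hWe).1 (hW1 _)
      have hgW : g.eval₂ (cstH ℓ k F Ω) (algebraMap F (geomPro ℓ k F Ω) x) ∈ W := by
        rw [eval₂_eq_sum_range]
        exact sum_mem fun i _ => mul_mem (hW1 _) (pow_mem hxW _)
      have h6 := (IsLocalRing.maximalIdeal W).mul_mem_left ⟨_, hgW⟩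
        ((ValuationSubring.mem_nonunits_iff_exists_mem_maximalIdeal).1 hWe).2
      exact (ValuationSubring.mem_nonunits_iff_exists_mem_maximalIdeal).2 ⟨mul_mem hgW
        (nonunits_iff.1 hWe).1, h6⟩
  · have hcW : ∀ c, cst ℓ k F Ω c ∈ W := fun c => const_mem_N _ W hW1 c _ rfl
    refine brN hCov hSn hRig hRot hB eqv (cst ℓ k F Ω) (fun c => rfl) _ (Subtype.ext rfl) hHi hps
      U hU W hcW ?_ hW3 σ z
    by_contra hcon
    push Not at hcon
    have h5 : algebraMap F (geomPro ℓ k F Ω) (aeval x f) =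
        cst ℓ k F Ω P.leadingCoeff *
          (P.roots.map fun e => algebraMap F (geomPro ℓ k F Ω) x - cst ℓ k F Ω e).prod := by
      rw [hfN]
      conv_lhs => rw [(IsAlgClosed.splits P).eq_prod_roots]
      rw [eval₂_mul, eval₂_C, ← coe_eval₂RingHom, map_multiset_prod, Multiset.map_map]
      congr 2
      refine Multiset.map_congr rfl fun a _ => ?_
      simp
      rfl
    have h7 : ∀ e ∈ P.roots, (algebraMap F (geomPro ℓ k F Ω) x - cst ℓ k F Ω e)⁻¹ ∈ W := by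
      intro e he
      exact inv_mem_of_not_nonunit (hcon e (Multiset.mem_toFinset.2 he))
    have h8 : (algebraMap F (geomPro ℓ k F Ω) (aeval x f))⁻¹ ∈ W := by
      rw [h5, mul_inv]
      refine mul_mem (by
        have h9 : (cst ℓ k F Ω P.leadingCoeff)⁻¹ = cst ℓ k F Ω (P.leadingCoeff)⁻¹ :=
          (map_inv₀ (cstH ℓ k F Ω) _).symm
        rw [h9]; exact hcW _) ?_
      rw [← Multiset.prod_map_inv']
      refine multiset_prod_mem _ fun z hz => ?_
      obtain ⟨w, hw, rfl⟩ := Multiset.mem_map.1 hz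
      obtain ⟨e, he, rfl⟩ := Multiset.mem_map.1 hw
      exact h7 e he
    rcases (nonunits_iff.1 hW2).2 with h9 | h9
    · exact hfx0 h9
    · exact h9 h8

/-- **maximal extensions of partial sections** -/
theorem descG {ℓ : ℕ} [Fact ℓ.Prime]
    (f : k[X]) (hs : f.Separable) (hdvd : ℓ ∣ f.natDegree)
    (h3 : 3 ≤ f.natDegree)
    (d : k) (hd : d ≠ 0)
    (x y : F) (hx : Transcendental k x)
    (hxy : algebraMap k F d * y ^ ℓ = aeval x f)
    (hF : IntermediateField.adjoin k {x, y} = (⊤ : IntermediateField k F))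
    (hRR : RRS ℓ k (algebraicClosure k Ω) f ⊤)
    (H : Subgroup (algebraicClosure k Ω ≃ₐ[k] algebraicClosure k Ω))
    (hHo : IsOpen (H : Set (algebraicClosure k Ω ≃ₐ[k] algebraicClosure k Ω)))
    (s : H →* RingAut (geomPro ℓ k F Ω))
    (hps : PSec (cst ℓ k F Ω) (algebraMap F (geomPro ℓ k F Ω) x) H s)
    (hcont : ∀ z, ∃ U : Subgroup (algebraicClosure k Ω ≃ₐ[k] algebraicClosure k Ω),
      IsOpen (U : Set (algebraicClosure k Ω ≃ₐ[k] algebraicClosure k Ω)) ∧
      ∀ σ : H, (σ : algebraicClosure k Ω ≃ₐ[k] algebraicClosure k Ω) ∈ U → s σ z = z)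
    (hnb : ¬ ∃ W : ValuationSubring (geomPro ℓ k F Ω),
      (∀ c : k, algebraMap F (geomPro ℓ k F Ω) (algebraMap k F c) ∈ W) ∧
      algebraMap F (geomPro ℓ k F Ω) (aeval x f) ∈ W.nonunits ∧ ∀ σ z, s σ z ∈ W ↔ z ∈ W) :
    ∃ (H₀ : Subgroup (algebraicClosure k Ω ≃ₐ[k] algebraicClosure k Ω))
      (s₀ : H₀ →* RingAut (geomPro ℓ k F Ω)),
      IsOpen (H₀ : Set (algebraicClosure k Ω ≃ₐ[k] algebraicClosure k Ω)) ∧
      PSec (cst ℓ k F Ω) (algebraMap F (geomPro ℓ k F Ω) x) H₀ s₀ ∧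
      (∀ z, ∃ U : Subgroup (algebraicClosure k Ω ≃ₐ[k] algebraicClosure k Ω),
        IsOpen (U : Set (algebraicClosure k Ω ≃ₐ[k] algebraicClosure k Ω)) ∧
        ∀ σ : H₀, (σ : algebraicClosure k Ω ≃ₐ[k] algebraicClosure k Ω) ∈ U → s₀ σ z = z) ∧
      (∀ σ (h : σ ∈ H), ∃ h0 : σ ∈ H₀, s₀ ⟨σ, h0⟩ = s ⟨σ, h⟩) ∧
      (∃ (δ : algebraicClosure k Ω) (y₀ : geomPro ℓ k F Ω), δ ≠ 0 ∧ (∀ σ ∈ H₀, σ δ = δ) ∧
        cst ℓ k F Ω δ * y₀ ^ ℓ = algebraMap F (geomPro ℓ k F Ω) (aeval x f) ∧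
        ∀ σ, s₀ σ y₀ = y₀) ∧
      ∀ S : Subgroup (algebraicClosure k Ω ≃ₐ[k] algebraicClosure k Ω), S.Normal →
        RRS ℓ k (algebraicClosure k Ω) f S →
      (∀ (H' : Subgroup (algebraicClosure k Ω ≃ₐ[k] algebraicClosure k Ω))
        (s' : H' →* RingAut (geomPro ℓ k F Ω)),
        PSec (cst ℓ k F Ω) (algebraMap F (geomPro ℓ k F Ω) x) H' s' →
        (∃ U : Subgroup (algebraicClosure k Ω ≃ₐ[k] algebraicClosure k Ω), U.index ≠ 0 ∧
          ∀ τ ∈ U, τ ∈ S → ∃ (h1 : τ ∈ H) (h2 : τ ∈ H'), s ⟨τ, h1⟩ = s' ⟨τ, h2⟩) →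
        ∀ σ (h : σ ∈ H'), ∃ h0 : σ ∈ H₀, s₀ ⟨σ, h0⟩ = s' ⟨σ, h⟩) ∧
      ∀ σ, σ ∈ H₀ ↔ ∃ γ, Nm (cst ℓ k F Ω) (algebraMap F (geomPro ℓ k F Ω) x) s S σ γ := by
  classical
  have hac : IsAlgClosure k (algebraicClosure k Ω) := inferInstance
  have hkb : IsAlgClosed (algebraicClosure k Ω) := hac.1
  have : Normal k (algebraicClosure k Ω) := IsAlgClosure.normal k _
  have hGal : IsGalois k (algebraicClosure k Ω) := ⟨⟩
  have hch : CharZero (algebraicClosure k Ω) :=
    charZero_of_injective_algebraMap (algebraMap k (algebraicClosure k Ω)).injective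
  have hHi : H.index ≠ 0 := by
    haveI := Subgroup.quotient_finite_of_isOpen H hHo
    exact (Subgroup.finiteIndex_of_finite_quotient (H := H)).index_ne_zero
  have hTn : (⊤ : Subgroup (algebraicClosure k Ω ≃ₐ[k] algebraicClosure k Ω)).Normal :=
    inferInstance
  have hT := (geoP f hs hdvd h3 d hd x y hx hxy hF ⊤ hTn hRR H hHi s hps).1 hnb
  obtain ⟨s₀, h1, h2, h4⟩ := exists_max hTn hps hHi hT
  have hcont0 : ∀ z, ∃ U : Subgroup (algebraicClosure k Ω ≃ₐ[k] algebraicClosure k Ω),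
        IsOpen (U : Set (algebraicClosure k Ω ≃ₐ[k] algebraicClosure k Ω)) ∧
        ∀ σ : Hmax (cst ℓ k F Ω) (algebraMap F (geomPro ℓ k F Ω) x) H hHi s ⊤ hTn,
          (σ : algebraicClosure k Ω ≃ₐ[k] algebraicClosure k Ω) ∈ U → s₀ σ z = z := by
    intro z
    obtain ⟨U, hU, hUz⟩ := hcont z
    refine ⟨U ⊓ H, hU.inter hHo, fun σ hσ => ?_⟩
    obtain ⟨h0, h5⟩ := h4 σ hσ.2
    have h6 : (⟨(σ : algebraicClosure k Ω ≃ₐ[k] algebraicClosure k Ω), h0⟩ :
        Hmax (cst ℓ k F Ω) (algebraMap F (geomPro ℓ k F Ω) x) H hHi s ⊤ hTn) = σ := rfl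
    rw [h6] at h5
    rw [h5]
    exact hUz ⟨σ, hσ.2⟩ hσ.1
  refine ⟨Hmax (cst ℓ k F Ω) (algebraMap F (geomPro ℓ k F Ω) x) H hHi s ⊤ hTn, s₀, ?_, h2,
    hcont0, h4, ?_, ?_⟩
  · exact Subgroup.isOpen_mono (fun σ h => (h4 σ h).1) hHo
  · have hf0 : f ≠ 0 := by rintro rfl; simp at h3
    have hfx0 : aeval x f ≠ 0 := fun h => hx ⟨f, hf0, h⟩
    have hy0 : y ≠ 0 := by
      rintro rfl
      rw [zero_pow (Fact.out : ℓ.Prime).ne_zero, mul_zero] at hxy
      exact hfx0 hxy.symm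
    have hcstk : ∀ c : k, cst ℓ k F Ω (algebraMap k _ c) =
        algebraMap F (geomPro ℓ k F Ω) (algebraMap k F c) := by
      intro c
      apply Subtype.ext
      change algebraMap k Ω c = algebraMap F Ω (algebraMap k F c)
      exact IsScalarTower.algebraMap_apply k F Ω c
    obtain ⟨U, hU, hUz⟩ := hcont0 (algebraMap F (geomPro ℓ k F Ω) y)
    obtain ⟨L, hL, hLU⟩ := (krullTopology_mem_nhds_one_iff k (algebraicClosure k Ω) _).1
      (hU.mem_nhds U.one_mem)
    refine twist (cstH ℓ k F Ω) (algebraMap F (geomPro ℓ k F Ω) x)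
      (Fact.out : ℓ.Prime).pos _ s₀ h2 d hd _ (algebraMap F (geomPro ℓ k F Ω) y)
      ((_root_.map_ne_zero _).2 hy0) (fun σ => ?_) ?_ L (fun σ hσ => hUz σ ?_)
    · have h5 : ∀ g : k[X], s₀ σ (algebraMap F (geomPro ℓ k F Ω) (aeval x g)) =
          algebraMap F (geomPro ℓ k F Ω) (aeval x g) := by
        intro g
        induction g using Polynomial.induction_on' with
        | add p q hp hq => rw [map_add, map_add, map_add, hp, hq]
        | monomial n a =>
          rw [aeval_monomial, map_mul, map_mul, map_pow, map_pow, h2.fixx, ← hcstk, h2.const]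
          congr 2
          exact (σ : algebraicClosure k Ω ≃ₐ[k] algebraicClosure k Ω).commutes a
      exact h5 f
    · show cst ℓ k F Ω (algebraMap k _ d) * _ = _
      rw [hcstk, ← map_pow, ← map_mul, hxy]
    · exact hLU ((IntermediateField.mem_fixingSubgroup_iff _ _).2 hσ)
  · intro S hSn hRRS
    have hTS := (geoP f hs hdvd h3 d hd x y hx hxy hF S hSn hRRS H hHi s hps).1 hnb
    refine ⟨?_, fun σ => ⟨?_, ?_⟩⟩
    · rintro H' s' hs' ⟨U, hU, hag⟩ σ h
      have h5 := nm_top hSn hps hHi hTS (nm_of_agree hSn hs' U hU hag ⟨σ, h⟩)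
      exact ⟨⟨_, h5⟩, nm_uniq hTn hT (h1 _) h5⟩
    · rintro ⟨γ, h5, h6, U, hU, h7⟩
      exact ⟨γ, h5, h6, U, hU, fun τ hτ _ => h7 τ hτ trivial⟩
    · rintro ⟨γ, h5⟩
      exact ⟨γ, nm_top hSn hps hHi hTS h5⟩

end main

end Pool.Agent.R925.Q
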