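import Pool.Agent.R925.Q.Desc

/-! Hilbert 90 for locally constant cocycles, and twists. -/

set_option autoImplicit false
set_option linter.all false

open Polynomial

namespace Pool.Agent.R925.Q

section

variable {k κ : Type} [Field k] [Field κ] [Algebra k κ]

theorem coboundary (H : Subgroup (κ ≃ₐ[k] κ)) (c : H → κ) (hc0 : ∀ σ, c σ ≠ 0)
    (hmul : ∀ σ τ : H, c (σ * τ) = c σ * (σ : κ ≃ₐ[k] κ) (c τ))
    (L : IntermediateField k κ) [FiniteDimensional k L]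
    (hU : ∀ σ : H, (∀ z ∈ L, (σ : κ ≃ₐ[k] κ) z = z) → c σ = 1) :
    ∃ a : κ, a ≠ 0 ∧ ∀ σ : H, (σ : κ ≃ₐ[k] κ) a * c σ = a := by
  classical
  let χ : H → (L →ₐ[k] κ) := fun σ => ((σ : κ ≃ₐ[k] κ) : κ →ₐ[k] κ).comp L.val
  have hχ : ∀ σ (b : L), χ σ b = (σ : κ ≃ₐ[k] κ) (b : κ) := fun σ b => rfl
  have hfin : Finite (Set.range χ) := inferInstance
  haveI : Fintype (Set.range χ) := Fintype.ofFinite _
  have hwd : ∀ σ τ : H, χ σ = χ τ → c σ = c τ := by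
    intro σ τ h
    have h1 : τ = σ * (σ⁻¹ * τ) := by group
    rw [h1, hmul, hU (σ⁻¹ * τ), map_one, mul_one]
    intro z hz
    have h2 := DFunLike.congr_fun h ⟨z, hz⟩
    rw [hχ, hχ] at h2
    show ((σ : κ ≃ₐ[k] κ)⁻¹ : κ ≃ₐ[k] κ) ((τ : κ ≃ₐ[k] κ) z) = z
    rw [← show (σ : κ ≃ₐ[k] κ) z = (τ : κ ≃ₐ[k] κ) z from h2]
    exact (σ : κ ≃ₐ[k] κ).symm_apply_apply z
  let g : Set.range χ → κ := fun t => c t.2.choose
  have hg : ∀ σ, g ⟨χ σ, σ, rfl⟩ = c σ := fun σ =>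
    hwd _ _ (Set.mem_range_self σ : χ σ ∈ Set.range χ).choose_spec
  have hLI : LinearIndependent κ (fun t : Set.range χ => ((t : L →ₐ[k] κ) : L → κ)) := by
    have h1 := linearIndependent_monoidHom L κ
    let j : Set.range χ → (L →* κ) := fun t => ((t : L →ₐ[k] κ) : L →* κ)
    have hj : Function.Injective j := by
      intro t t' h
      apply Subtype.ext
      ext b
      exact DFunLike.congr_fun h b
    exact h1.comp j hj
  have hex : ∃ b : L, ∑ t : Set.range χ, g t * (t : L →ₐ[k] κ) b ≠ 0 := by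
    by_contra hcon
    push Not at hcon
    have h2 : ∑ t : Set.range χ, g t • ((t : L →ₐ[k] κ) : L → κ) = 0 := by
      funext b
      rw [Finset.sum_apply]
      exact hcon b
    have h3 := Fintype.linearIndependent_iff.1 hLI g h2 ⟨χ 1, 1, rfl⟩
    rw [hg] at h3
    exact hc0 1 h3
  obtain ⟨b, hb⟩ := hex
  refine ⟨_, hb, fun τ => ?_⟩
  let e : Set.range χ → Set.range χ := fun t =>
    ⟨((τ : κ ≃ₐ[k] κ) : κ →ₐ[k] κ).comp (t : L →ₐ[k] κ), by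
      obtain ⟨σ, hσ⟩ := t.2
      exact ⟨τ * σ, by rw [← hσ]; rfl⟩⟩
  have he : Function.Bijective e := by
    rw [← Finite.injective_iff_bijective]
    intro t t' h
    apply Subtype.ext
    ext b
    have h1 := congrArg (fun t : Set.range χ => (t : L →ₐ[k] κ) b) h
    exact (τ : κ ≃ₐ[k] κ).injective h1
  rw [map_sum, Finset.sum_mul]
  rw [← he.sum_comp (fun t => g t * (t : L →ₐ[k] κ) b)]
  refine Finset.sum_congr rfl fun t _ => ?_
  obtain ⟨t, σ, rfl⟩ := t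
  have h4 : e ⟨χ σ, σ, rfl⟩ = ⟨χ (τ * σ), τ * σ, rfl⟩ := rfl
  rw [h4, hg, hg, hmul, map_mul]
  rw [hχ, hχ]
  show (τ : κ ≃ₐ[k] κ) (c σ) * (τ : κ ≃ₐ[k] κ) ((σ : κ ≃ₐ[k] κ) b) * c τ =
    c τ * (τ : κ ≃ₐ[k] κ) (c σ) * (τ : κ ≃ₐ[k] κ) ((σ : κ ≃ₐ[k] κ) b)
  ring

/-- a section over `H` is a section of a twist -/
theorem twist [IsAlgClosed κ] [CharZero κ] {N : Type} [Field N] (cst : κ →+* N) (x : N) {ℓ : ℕ}
    (hℓ : 0 < ℓ) (H : Subgroup (κ ≃ₐ[k] κ)) (s : H →* RingAut N) (hs : PSec cst x H s)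
    (d : k) (hd : d ≠ 0) (P y : N) (hy0 : y ≠ 0) (hP : ∀ σ, s σ P = P)
    (hy : cst (algebraMap k κ d) * y ^ ℓ = P)
    (L : IntermediateField k κ) [FiniteDimensional k L]
    (hU : ∀ σ : H, (∀ z ∈ L, (σ : κ ≃ₐ[k] κ) z = z) → s σ y = y) :
    ∃ (δ : κ) (y₀ : N), δ ≠ 0 ∧ (∀ σ ∈ H, σ δ = δ) ∧ cst δ * y₀ ^ ℓ = P ∧ ∀ σ, s σ y₀ = y₀ := by
  classical
  have hd0 : algebraMap k κ d ≠ 0 := (_root_.map_ne_zero _).2 hd
  have hcd : cst (algebraMap k κ d) ≠ 0 := (_root_.map_ne_zero _).2 hd0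
  haveI : NeZero (ℓ : κ) := ⟨by exact_mod_cast hℓ.ne'⟩
  obtain ⟨ζ, hζ⟩ : ∃ ζ : κ, IsPrimitiveRoot ζ ℓ := HasEnoughRootsOfUnity.exists_primitiveRoot κ ℓ
  have hζN : IsPrimitiveRoot (cst ζ) ℓ := hζ.map_of_injective cst.injective
  have hroot : ∀ z : N, z ^ ℓ = 1 → ∃ c : κ, c ^ ℓ = 1 ∧ cst c = z := by
    intro z hz
    haveI : NeZero ℓ := ⟨hℓ.ne'⟩
    obtain ⟨i, -, hi⟩ := hζN.eq_pow_of_pow_eq_one hz
    exact ⟨ζ ^ i, by rw [← pow_mul, mul_comm, pow_mul, hζ.pow_eq_one, one_pow], by rw [map_pow, hi]⟩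
  have hcoc : ∀ σ : H, ∃ c : κ, c ^ ℓ = 1 ∧ s σ y = cst c * y := by
    intro σ
    have h1 : (s σ y / y) ^ ℓ = 1 := by
      have h2 := congrArg (s σ) hy
      rw [hP, map_mul, map_pow, hs.const] at h2
      have h3 : (σ : κ ≃ₐ[k] κ) • (algebraMap k κ d) = algebraMap k κ d :=
        (σ : κ ≃ₐ[k] κ).commutes d
      rw [h3, ← hy] at h2
      rw [div_pow, mul_left_cancel₀ hcd h2, div_self (pow_ne_zero _ hy0)]
    obtain ⟨c, hc1, hc2⟩ := hroot _ h1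
    exact ⟨c, hc1, by rw [hc2, div_mul_cancel₀ _ hy0]⟩
  choose c hc1 hc2 using hcoc
  have hinj : ∀ a b : κ, cst a * y = cst b * y → a = b := fun a b h =>
    cst.injective (mul_right_cancel₀ hy0 h)
  obtain ⟨a, ha0, ha⟩ := coboundary H c (fun σ h => by
      have := hc1 σ
      rw [h, zero_pow hℓ.ne'] at this
      exact zero_ne_one this)
    (fun σ τ => by
      apply hinj
      rw [← hc2, s_mul, hc2 τ, map_mul, hs.const, hc2, map_mul]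
      show cst ((σ : κ ≃ₐ[k] κ) (c τ)) * _ = _
      ring)
    L (fun σ h => by
      apply hinj
      rw [← hc2, hU σ h, map_one, one_mul])
  refine ⟨algebraMap k κ d / a ^ ℓ, cst a * y, div_ne_zero hd0 (pow_ne_zero _ ha0), ?_, ?_, ?_⟩
  · intro σ hσ
    have h1 := congrArg (fun t => t ^ ℓ) (ha ⟨σ, hσ⟩)
    simp only [mul_pow, hc1, mul_one] at h1
    rw [map_div₀, map_pow]
    have h2 : σ (algebraMap k κ d) = algebraMap k κ d := σ.commutes d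
    rw [h2]
    congr 1
  · rw [mul_pow, ← map_pow, ← mul_assoc, ← map_mul, div_mul_cancel₀ _ (pow_ne_zero _ ha0), hy]
  · intro σ
    rw [map_mul, hs.const, hc2, ← mul_assoc, ← map_mul]
    congr 2
    exact ha σ

end

end Pool.Agent.R925.Q
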