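import Pool.Agent.R925.Q.AfsP
import Pool.Agent.R925.Q.H90

/-! Partial sections: the form for a field isomorphic to `M`. -/

set_option autoImplicit false
set_option linter.all false

open Polynomial FF

namespace Pool.Agent.R925.Q

open Pool.Agent.Y157.PS

section

variable {k κ R M : Type} [Field k] [CharZero k]
    [Field κ] [Algebra k κ] [IsAlgClosure k κ]
    [Field R] [Field M] [Algebra κ R] [Algebra R M] [Algebra κ M] [IsScalarTower κ R M]
    {ℓ : ℕ} [Fact ℓ.Prime] {x : R} {B : Finset κ} {Y : M} {S : Subgroup (κ ≃ₐ[k] κ)}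
    {H : Subgroup (κ ≃ₐ[k] κ)}

/-- the transported section -/
def conjP {N : Type} [Field N] (eqv : M ≃+* N) (s : H →* RingAut N) : H →* RingAut M where
  toFun := fun σ => (eqv.trans (s σ)).trans eqv.symm
  map_one' := by
    ext z
    show eqv.symm (s 1 (eqv z)) = z
    rw [map_one]
    exact eqv.symm_apply_apply z
  map_mul' := fun σ τ => by
    ext z
    show eqv.symm (s (σ * τ) (eqv z)) = eqv.symm (s σ (eqv (eqv.symm (s τ (eqv z)))))
    rw [eqv.apply_symm_apply, map_mul]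
    rfl

theorem conjP_apply {N : Type} [Field N] (eqv : M ≃+* N) (s : H →* RingAut N) (σ : H) (z : M) :
    eqv (conjP eqv s σ z) = s σ (eqv z) := eqv.apply_symm_apply _

theorem conjP_psec {N : Type} [Field N] (eqv : M ≃+* N) (cst : κ → N)
    (hcst : ∀ c, cst c = eqv (algebraMap κ M c)) (xN : N)
    (hx : eqv (algebraMap R M x) = xN) {s : H →* RingAut N} (hs : PSec cst xN H s) :
    PSec (algebraMap κ M) (algebraMap R M x) H (conjP eqv s) := by
  refine ⟨fun σ c => ?_, fun σ => ?_⟩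
  · apply eqv.injective
    rw [conjP_apply, ← hcst, ← hcst, hs.const]
  · apply eqv.injective
    rw [conjP_apply, hx, hs.fixx]

/-- a symmetry over a large extension gives a valuation ring -/
theorem symN {N : Type} [Field N] (hC : Cov ℓ κ R M x B Y) (hSn : S.Normal)
    (hR : RigS k κ R M x Y S)
    (eqv : M ≃+* N) (cst : κ → N) (hcst : ∀ c, cst c = eqv (algebraMap κ M c)) (xN : N)
    (hx : eqv (algebraMap R M x) = xN) (hHi : H.index ≠ 0)
    {s : H →* RingAut N} (hs : PSec cst xN H s)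
    (U : Subgroup (κ ≃ₐ[k] κ)) (hU : U.index ≠ 0) (γ : RingAut N)
    (hγc : ∀ c, γ (cst c) = cst c) (hγx : γ xN = xN)
    (hγ : ∀ σ : H, (σ : κ ≃ₐ[k] κ) ∈ U → (σ : κ ≃ₐ[k] κ) ∈ S → ∀ z, γ (s σ z) = s σ (γ z))
    (hne : γ ≠ 1) :
    ∃ W : ValuationSubring N, (∀ c : κ, cst c ∈ W) ∧
      (∃ e ∈ B, xN - cst e ∈ W.nonunits) ∧ (∀ σ z, s σ z ∈ W ↔ z ∈ W) ∧
      ∀ W' : ValuationSubring N, (∀ c : κ, cst c ∈ W') → W' ≠ ⊤ → (∀ z, γ z ∈ W' ↔ z ∈ W') →
        W' = W := by
  have hs' := conjP_apply eqv s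
  have hs's : ∀ σ z, eqv.symm (s σ z) = conjP eqv s σ (eqv.symm z) := by
    intro σ z
    apply eqv.injective
    rw [hs', eqv.apply_symm_apply, eqv.apply_symm_apply]
  obtain ⟨g, hg⟩ : ∃ g : M ≃ₐ[R] M, ∀ z, eqv (g z) = γ (eqv z) := by
    letI : Algebra R N := (((eqv : M →+* N).comp (algebraMap R M))).toAlgebra
    exact exists_gal (F := R) hC.rat eqv (x := x) rfl γ (fun c => by rw [← hcst]; exact hγc c)
      (by show γ (eqv (algebraMap R M x)) = eqv (algebraMap R M x); rw [hx, hγx])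
  have hg1 : g ≠ 1 := by
    intro h
    apply hne
    ext z
    have h3 := hg (eqv.symm z)
    rw [h, eqv.apply_symm_apply] at h3
    rw [← h3]
    exact eqv.apply_symm_apply z
  obtain ⟨Q, hQg, hQun, hQ, e, heB, hQe⟩ := afsP hSn hR hC hHi (conjP_psec eqv cst hcst xN hx hs) U
    hU g hg1 (fun σ hσ hσS z => by
      apply eqv.injective
      rw [hg, hs', hs', hg, hγ σ hσ hσS])
  have hmem : ∀ (Q : Place κ M) (z : N), z ∈ Q.O.comap (eqv.symm : N →+* M) ↔ eqv.symm z ∈ Q.O :=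
    fun Q z => Iff.rfl
  refine ⟨Q.O.comap (eqv.symm : N →+* M), fun c => ?_, ⟨e, heB, ?_⟩, fun σ z => ?_, ?_⟩
  · rw [hmem, hcst, eqv.symm_apply_apply, Place.mem_O]
    exact Q.reg_const c
  · rw [comap_non, map_sub, hcst, eqv.symm_apply_apply, ← hx, eqv.symm_apply_apply]
    have h0 : algebraMap R M x - algebraMap κ M e ≠ 0 := by
      intro h0
      rw [h0, Q.ord_zero] at hQe
      exact lt_irrefl _ hQe
    exact (O_non_iff Q h0).2 hQe
  · rw [hmem, hmem, hs's]
    exact O_of_fixes Q (conjP eqv s σ) (hQ σ) _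
  · intro W' hW'1 hW'2 hW'3
    have htop : W'.comap (eqv : M →+* N) ≠ ⊤ := by
      intro h0
      apply hW'2
      ext z
      refine ⟨fun _ => trivial, fun _ => ?_⟩
      have h1 : eqv.symm z ∈ W'.comap (eqv : M →+* N) := by rw [h0]; trivial
      have h2 : eqv (eqv.symm z) ∈ W' := h1
      rwa [eqv.apply_symm_apply] at h2
    obtain ⟨Q', hQ', -⟩ := hC.loc _ (fun c => by
      show eqv (algebraMap κ M c) ∈ W'
      rw [← hcst]
      exact hW'1 c) htop
    have h2 : Q' = Q := by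
      apply hQun
      refine fixes_of_O Q' (g : M ≃+* M) (RingEquiv.refl κ) (fun c => ?_) fun z => ?_
      · show g (algebraMap κ M c) = algebraMap κ M c
        rw [IsScalarTower.algebraMap_apply κ R M, g.commutes]
      · rw [hQ']
        show eqv (g z) ∈ W' ↔ eqv z ∈ W'
        rw [hg]
        exact hW'3 _
    rw [← h2]
    ext z
    rw [hmem, hQ']
    show z ∈ W' ↔ eqv (eqv.symm z) ∈ W'
    rw [eqv.apply_symm_apply]

theorem trivN {N : Type} [Field N] (hC : Cov ℓ κ R M x B Y) (hSn : S.Normal)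
    (hR : RigS k κ R M x Y S)
    (eqv : M ≃+* N) (cst : κ → N) (hcst : ∀ c, cst c = eqv (algebraMap κ M c)) (xN : N)
    (hx : eqv (algebraMap R M x) = xN) (hHi : H.index ≠ 0)
    {s : H →* RingAut N} (hs : PSec cst xN H s)
    (hnb : ¬ ∃ W : ValuationSubring N, (∀ c : κ, cst c ∈ W) ∧
      (∃ e ∈ B, xN - cst e ∈ W.nonunits) ∧ ∀ σ z, s σ z ∈ W ↔ z ∈ W) :
    Triv cst xN H s S := by
  intro U hU γ hγc hγx hγ
  by_contra hne
  obtain ⟨W, h1, h2, h3, -⟩ := symN hC hSn hR eqv cst hcst xN hx hHi hs U hU γ hγc hγx hγ hne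
  exact hnb ⟨W, h1, h2, h3⟩

/-- a valuation ring above a branch point which is fixed by `s(U ∩ S)` is fixed by `s(H)` -/
theorem brN {N : Type} [Field N] (hC : Cov ℓ κ R M x B Y) (hSn : S.Normal)
    (hR : RigS k κ R M x Y S) (hRot : Rot κ R M x B Y)
    (hB : ∀ (σ : κ ≃ₐ[k] κ), ∀ e ∈ B, σ e ∈ B)
    (eqv : M ≃+* N) (cst : κ → N) (hcst : ∀ c, cst c = eqv (algebraMap κ M c)) (xN : N)
    (hx : eqv (algebraMap R M x) = xN) (hHi : H.index ≠ 0)
    {s : H →* RingAut N} (hs : PSec cst xN H s)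
    (U : Subgroup (κ ≃ₐ[k] κ)) (hU : U.index ≠ 0) (W : ValuationSubring N)
    (hW1 : ∀ c : κ, cst c ∈ W) (hW2 : ∃ e ∈ B, xN - cst e ∈ W.nonunits)
    (hW3 : ∀ σ : H, (σ : κ ≃ₐ[k] κ) ∈ U → (σ : κ ≃ₐ[k] κ) ∈ S → ∀ z, s σ z ∈ W ↔ z ∈ W)
    (σ : H) (z : N) : s σ z ∈ W ↔ z ∈ W := by
  haveI : IsAlgClosed κ := IsAlgClosure.isAlgClosed k
  have hch : CharZero κ := charZero_of_injective_algebraMap (algebraMap k κ).injective
  obtain ⟨e, heB, hWe⟩ := hW2
  have hne0 : algebraMap R M x - algebraMap κ M e ≠ 0 := by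
    intro h0
    have h2 : Transcendental κ (algebraMap R M x) :=
      (transcendental_algebraMap_iff (algebraMap R M).injective).2 hC.rat.trans
    apply h2
    rw [sub_eq_zero.1 h0]
    exact isAlgebraic_algebraMap _
  have hnon' : ∀ z : M, z ∈ (W.comap (eqv : M →+* N)).nonunits ↔ eqv z ∈ W.nonunits :=
    fun z => comap_non eqv W z
  have h1 : algebraMap R M x - algebraMap κ M e ∈ (W.comap (eqv : M →+* N)).nonunits := by
    rw [hnon', map_sub, hx, ← hcst]
    exact hWe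
  have htop : W ≠ ⊤ := by
    intro h0
    rw [h0] at hWe
    rw [nonunits_iff] at hWe
    rcases hWe.2 with h2 | h2
    · rw [← hx, hcst, ← map_sub, map_eq_zero_iff eqv eqv.injective] at h2
      exact hne0 h2
    · exact h2 trivial
  have htop' : W.comap (eqv : M →+* N) ≠ ⊤ := by
    intro h0
    apply htop
    ext z
    refine ⟨fun _ => trivial, fun _ => ?_⟩
    have h1 : eqv.symm z ∈ W.comap (eqv : M →+* N) := by rw [h0]; trivial
    have h2 : eqv (eqv.symm z) ∈ W := h1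
    rwa [eqv.apply_symm_apply] at h2
  obtain ⟨Q, hQ, -⟩ := hC.loc _ (fun c => by
    show eqv (algebraMap κ M c) ∈ W
    rw [← hcst]
    exact hW1 c) htop'
  have hps := conjP_psec eqv cst hcst xN hx hs
  obtain ⟨g, hg1, hgQ, U', hU', hgc⟩ := cuspP hRot hC hch hps
    (fun σ => actYP hC hB hps σ) U hU Q heB
    ((O_non_iff Q hne0).1 (by rw [hQ]; exact h1)) (fun σ hσ hσS => by
      refine fixes_of_O Q (conjP eqv s σ) ((σ : κ ≃ₐ[k] κ) : κ ≃+* κ) (fun c => hps.const σ c)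
        fun z => ?_
      rw [hQ]
      show eqv (conjP eqv s σ z) ∈ W ↔ eqv z ∈ W
      rw [conjP_apply]
      exact hW3 σ hσ hσS _)
  obtain ⟨Q₀, -, hQun, hQfix, -⟩ := afsP hSn hR hC hHi hps U' hU' g hg1 hgc
  have h2 : Q = Q₀ := hQun Q hgQ
  have h3 := O_of_fixes Q (conjP eqv s σ) (by rw [h2]; exact hQfix σ) (eqv.symm z)
  rw [hQ] at h3
  have h4 : eqv (conjP eqv s σ (eqv.symm z)) ∈ W ↔ eqv (eqv.symm z) ∈ W := h3
  rw [conjP_apply, eqv.apply_symm_apply] at h4
  exact h4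

end

end Pool.Agent.R925.Q
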