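import Pool.Agent.R925.Q.FrobS

/-! Fields of definition of sections: good places and large extensions. -/

set_option autoImplicit false
set_option linter.all false

open Polynomial FF

namespace Pool.Agent.R925.Q

open Pool.Agent.Y157.PS

/-- a good place -/
structure GP (ℓ : ℕ) {k κ : Type} [Field k] [Field κ] [Algebra k κ] (f : k[X])
    (V : ValuationSubring κ) : Prop where
  dvr : IsDiscreteValuationRing (V.comap (algebraMap k κ))
  fin : Finite (IsLocalRing.ResidueField (V.comap (algebraMap k κ)))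
  unit : ((ℓ : κ))⁻¹ ∈ V
  roots : ∀ e : κ, aeval e f = 0 → e ∈ V
  dist : ∀ e e' : κ, aeval e f = 0 → aeval e' f = 0 → e ≠ e' → (e - e')⁻¹ ∈ V

/-- a large extension -/
def Lg (ℓ : ℕ) {k κ : Type} [Field k] [Field κ] [Algebra k κ] (f : k[X])
    (K' : IntermediateField k κ) : Prop :=
  Normal k K' ∧ (K' = ⊥ ∨ ∃ V : ValuationSubring κ, GP ℓ f V ∧
    Finite (IsLocalRing.ResidueField (V.comap (algebraMap K' κ))))

section

variable {k κ : Type} [Field k] [CharZero k] [Field κ] [Algebra k κ] [IsAlgClosure k κ]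
  {ℓ : ℕ} [Fact ℓ.Prime] {f : k[X]}

omit [CharZero k] [IsAlgClosure k κ] in
theorem fix_normal (K' : IntermediateField k κ) (h : Normal k K') (hn : Normal k κ) :
    K'.fixingSubgroup.Normal := by
  have h1 := IntermediateField.normal_iff_forall_map_le'.1 h
  refine ⟨fun τ hτ σ => ?_⟩
  rw [IntermediateField.mem_fixingSubgroup_iff] at hτ ⊢
  intro z hz
  have h2 : σ⁻¹ z ∈ K' := h1 σ⁻¹ ⟨z, hz, rfl⟩
  show σ (τ (σ⁻¹ z)) = z
  rw [hτ _ h2]
  exact σ.apply_symm_apply z

theorem rrs_top (h : RR ℓ k κ f) : RRS ℓ k κ f ⊤ := by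
  intro R M _ _ _ _ _ _ x B Y hB hC
  obtain ⟨h1, h2⟩ := h R M x B Y hB hC
  refine ⟨fun U hU => ?_, h2⟩
  obtain ⟨φ₀, h3, h4⟩ := h1 U hU
  exact ⟨φ₀, h3, trivial, h4⟩

theorem rrs_good {V : ValuationSubring κ} (hV : GP ℓ f V) (K' : IntermediateField k κ)
    (hfin : Finite (IsLocalRing.ResidueField (V.comap (algebraMap K' κ)))) :
    RRS ℓ k κ f K'.fixingSubgroup := by
  haveI : IsAlgClosed κ := IsAlgClosure.isAlgClosed k
  haveI : Algebra.IsAlgebraic k κ := IsAlgClosure.isAlgebraic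
  haveI := hV.dvr
  haveI := hV.fin
  letI : Algebra (V.comap (algebraMap k κ)) κ :=
    ((algebraMap k κ).comp (algebraMap (V.comap (algebraMap k κ)) k)).toAlgebra
  haveI hst : IsScalarTower (V.comap (algebraMap k κ)) k κ :=
    IsScalarTower.of_algebraMap_eq (fun _ => rfl)
  have hmem : ∀ z : k, z ∈ V.comap (algebraMap k κ) ↔ algebraMap k κ z ∈ V := fun z => Iff.rfl
  have hVa : ∀ a : V.comap (algebraMap k κ), algebraMap (V.comap (algebraMap k κ)) κ a ∈ V :=
    fun a => a.2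
  have hVm : ∀ a ∈ IsLocalRing.maximalIdeal (V.comap (algebraMap k κ)),
      algebraMap (V.comap (algebraMap k κ)) κ a ∈ V.nonunits := by
    intro a ha
    have h1 := nonunits_iff.1 ((ValuationSubring.mem_nonunits_iff_exists_mem_maximalIdeal).2
      ⟨a.2, ha⟩)
    refine nonunits_iff.2 ⟨a.2, ?_⟩
    rcases h1.2 with h2 | h2
    · left
      show algebraMap k κ (a : k) = 0
      rw [h2, map_zero]
    · right
      rw [hmem, map_inv₀] at h2
      exact h2
  have hℓk : (ℓ : k) ≠ 0 := by exact_mod_cast (Fact.out : ℓ.Prime).ne_zero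
  have hℓA : IsUnit ((ℓ : ℕ) : V.comap (algebraMap k κ)) := by
    have h1 : ((ℓ : k))⁻¹ ∈ V.comap (algebraMap k κ) := by
      rw [hmem, map_inv₀, map_natCast]
      exact hV.unit
    refine IsUnit.of_mul_eq_one ⟨_, h1⟩ ?_
    apply Subtype.ext
    show (((ℓ : ℕ) : V.comap (algebraMap k κ)) : k) * (ℓ : k)⁻¹ = 1
    have h2 : ((((ℓ : ℕ) : V.comap (algebraMap k κ))) : k) = (ℓ : k) := by norm_cast
    rw [h2, mul_inv_cancel₀ hℓk]
  intro R M _ _ _ _ _ _ x B Y hB hC
  have hG : Good V B := by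
    refine ⟨fun e he => hV.roots e ((hB e).1 he), fun e he e' he' hne => ?_⟩
    exact ⟨sub_ne_zero.2 hne, sub_mem (hV.roots e ((hB e).1 he)) (hV.roots e' ((hB e').1 he')),
      hV.dist e e' ((hB e).1 he) ((hB e').1 he') hne⟩
  exact ⟨rigS_inf hVa hVm hℓA hC hG K' hfin, rot_of_dvr (k := k) hVa hVm hℓA hC hG⟩

theorem rrs_lg (h : RR ℓ k κ f) {K' : IntermediateField k κ} (hK : Lg ℓ f K') :
    RRS ℓ k κ f K'.fixingSubgroup := by
  rcases hK.2 with h1 | ⟨V, hV, hfin⟩
  · rw [h1, IntermediateField.fixingSubgroup_bot]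
    exact rrs_top h
  · exact rrs_good hV K' hfin

end

end Pool.Agent.R925.Q
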