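import Pool.Agent.R925.Q.Fin
import Pool.Agent.Y157.GT.All
import Pool.Agent.Y157.PS.Sup

/-! Rigidity over fields with a discrete valuation and over finitely generated fields. -/

set_option autoImplicit false
set_option linter.all false

open Polynomial FF

namespace Pool.Agent.R925.Q

open Pool.Agent.Y157.PS

theorem rr_good {A k κ : Type} [CommRing A] [IsDomain A] [IsDiscreteValuationRing A]
    [Finite (IsLocalRing.ResidueField A)] [Field k] [CharZero k] [Algebra A k] [IsFractionRing A k]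
    [Field κ] [Algebra k κ] [Algebra A κ] [IsScalarTower A k κ] [IsAlgClosure k κ]
    {ℓ : ℕ} [Fact ℓ.Prime] (hℓ : IsUnit (ℓ : A)) (V : ValuationSubring κ)
    (hVa : ∀ a : A, algebraMap A κ a ∈ V)
    (hVm : ∀ a ∈ IsLocalRing.maximalIdeal A, algebraMap A κ a ∈ V.nonunits) (f : k[X])
    (hG : ∀ B : Finset κ, (∀ θ, θ ∈ B ↔ aeval θ f = 0) → Good V B) : RR ℓ k κ f := by
  intro R M _ _ _ _ _ _ x B Y hB hC
  exact ⟨rig_of_dvr hVa hVm hℓ hC (hG B hB), rot_of_dvr (k := k) hVa hVm hℓ hC (hG B hB)⟩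

theorem rr_dvr {A k κ : Type} [CommRing A] [IsDomain A] [IsDiscreteValuationRing A]
    [Finite (IsLocalRing.ResidueField A)] [Field k] [CharZero k] [Algebra A k] [IsFractionRing A k]
    [Field κ] [Algebra k κ] [IsAlgClosure k κ]
    {ℓ : ℕ} [Fact ℓ.Prime] (hℓ : IsUnit (ℓ : A)) (f : A[X]) (hlc : IsUnit f.leadingCoeff)
    (hs : (f.map (IsLocalRing.residue A)).Separable) : RR ℓ k κ (f.map (algebraMap A k)) := by
  haveI : IsAlgClosed κ := IsAlgClosure.isAlgClosed k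
  obtain ⟨V, hVA, hVm⟩ := exists_V A k κ
  letI : Algebra A κ := ((algebraMap k κ).comp (algebraMap A k)).toAlgebra
  haveI hst : IsScalarTower A k κ := IsScalarTower.of_algebraMap_eq (fun _ => rfl)
  have hVa : ∀ a : A, algebraMap A κ a ∈ V := hVA
  have hVm' : ∀ a ∈ IsLocalRing.maximalIdeal A, algebraMap A κ a ∈ V.nonunits := hVm
  refine rr_good hℓ V hVa hVm' _ fun B hB => ?_
  obtain ⟨hnd, hdist⟩ := Pool.Agent.W623.SecC.roots_distinct V hVa hVm' f hlc hs
  set P := f.map (algebraMap A κ) with hP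
  have hlc0 : algebraMap A κ f.leadingCoeff ≠ 0 := (hlc.map (algebraMap A κ)).ne_zero
  have hP0 : P ≠ 0 := by
    intro h
    apply hlc0
    rw [← leadingCoeff_map_of_leadingCoeff_ne_zero _ hlc0, ← hP, h, leadingCoeff_zero]
  have hmem : ∀ θ, θ ∈ B ↔ aeval θ f = 0 := by
    intro θ
    rw [hB, aeval_map_algebraMap]
  have hmem' : ∀ θ, θ ∈ B → θ ∈ P.roots := by
    intro θ hθ
    rw [mem_roots hP0, IsRoot.def, hP, eval_map]
    exact (hmem θ).1 hθ
  constructor
  · intro e he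
    exact Pool.Agent.W308.SecC.root_mem V hVa f hlc _ ((hmem _).1 he)
  · intro e he e' he' hne
    exact hdist e (hmem' e he) e' (hmem' e' he') hne

theorem sep_map' {A k κ : Type} [CommRing A] [IsDomain A] [IsDiscreteValuationRing A]
    [Field k] [Algebra A k] [IsFractionRing A k] [Field κ] [Algebra k κ] [IsAlgClosed κ] (f : A[X])
    (hlc : IsUnit f.leadingCoeff)
    (hs : (f.map (IsLocalRing.residue A)).Separable) : (f.map (algebraMap A k)).Separable := by
  obtain ⟨V, hVA, hVm⟩ := exists_V A k κ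
  letI : Algebra A κ := ((algebraMap k κ).comp (algebraMap A k)).toAlgebra
  haveI hst : IsScalarTower A k κ := IsScalarTower.of_algebraMap_eq (fun _ => rfl)
  have hVa : ∀ a : A, algebraMap A κ a ∈ V := hVA
  have hVm' : ∀ a ∈ IsLocalRing.maximalIdeal A, algebraMap A κ a ∈ V.nonunits := hVm
  obtain ⟨hnd, -⟩ := Pool.Agent.W623.SecC.roots_distinct V hVa hVm' f hlc hs
  have hlc0 : algebraMap A κ f.leadingCoeff ≠ 0 := (hlc.map (algebraMap A κ)).ne_zero
  have hP0 : f.map (algebraMap A κ) ≠ 0 := by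
    intro h
    apply hlc0
    rw [← leadingCoeff_map_of_leadingCoeff_ne_zero _ hlc0, h, leadingCoeff_zero]
  have h1 := (nodup_roots_iff_of_splits hP0 (IsAlgClosed.splits _)).1 hnd
  rw [IsScalarTower.algebraMap_eq A k κ, ← Polynomial.map_map] at h1
  exact (Polynomial.separable_map _).1 h1

/-- a polynomial with separable reduction is separable -/
theorem sep_map {A k : Type} [CommRing A] [IsDomain A] [IsDiscreteValuationRing A]
    [Field k] [Algebra A k] [IsFractionRing A k] (f : A[X]) (hlc : IsUnit f.leadingCoeff)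
    (hs : (f.map (IsLocalRing.residue A)).Separable) : (f.map (algebraMap A k)).Separable :=
  sep_map' (κ := AlgebraicClosure k) f hlc hs

theorem rr_fg {k κ : Type} [Field k] [CharZero k] [Field κ] [Algebra k κ] [IsAlgClosure k κ]
    (hk : (⊤ : IntermediateField ℚ k).FG) {ℓ : ℕ} [Fact ℓ.Prime] (f : k[X]) (hf0 : f ≠ 0) :
    RR ℓ k κ f := by
  classical
  haveI : IsAlgClosed κ := IsAlgClosure.isAlgClosed k
  haveI : Algebra.IsAlgebraic k κ := IsAlgClosure.isAlgebraic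
  have hP0 : f.map (algebraMap k κ) ≠ 0 :=
    (Polynomial.map_ne_zero_iff (algebraMap k _).injective).2 hf0
  let B₀ : Finset κ := (f.map (algebraMap k κ)).roots.toFinset
  have hB₀ : ∀ θ, θ ∈ B₀ ↔ aeval θ f = 0 := by
    intro θ
    rw [Multiset.mem_toFinset, mem_roots hP0, IsRoot.def, eval_map]
    rfl
  let T : Finset κ := B₀ ∪ (B₀ ×ˢ B₀).image (fun p => p.1 - p.2)
  obtain ⟨k₁, p, hp, j, hfin, hN, hT, hj⟩ := Pool.Agent.Y157.GT.b_embp k κ hk T ℓ
  haveI : CharZero k₁ := charZero_of_injective_algebraMap (algebraMap k k₁).injective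
  obtain ⟨A, hA, hdvr, hresf, hirr, hAm⟩ := Pool.Agent.Y157.GT.b_dvrp p k₁ j
  haveI := hdvr
  haveI := hresf
  have hpl : (p : ℕ) ≠ ℓ := by omega
  -- `ℓ` is a unit
  have hℓu : IsUnit ((ℓ : ℕ) : A) := by
    by_contra h
    have h1 : ((ℓ : ℕ) : A) ∈ IsLocalRing.maximalIdeal A := (IsLocalRing.mem_maximalIdeal _).2 h
    rw [hAm] at h1
    have h2 : j (((ℓ : ℕ) : A) : k₁) = ((ℓ : ℕ) : ℚ_[p]) := by
      have h3 : ((((ℓ : ℕ) : A)) : k₁) = ((ℓ : ℕ) : k₁) := by norm_cast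
      rw [h3, map_natCast]
    rw [h2] at h1
    have h3 : ‖((ℓ : ℕ) : ℚ_[p])‖ = 1 := by
      rw [Padic.norm_natCast_eq_one_iff]
      exact (Nat.coprime_primes hp.out Fact.out).2 hpl
    rw [h3] at h1
    exact lt_irrefl _ h1
  haveI : IsAlgClosure k₁ κ := ⟨inferInstance, inferInstance⟩
  obtain ⟨V, hVA, hVm⟩ := exists_V A k₁ κ
  have hmemV : ∀ a : k₁, ‖j a‖ ≤ 1 → (a : κ) ∈ V := fun a ha => hVA ⟨a, (hA a).2 ha⟩
  have hTin : ∀ a ∈ B₀, a ∈ T := fun a ha => Finset.mem_union_left _ ha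
  have hTd : ∀ a ∈ B₀, ∀ b ∈ B₀, a - b ∈ T := fun a ha b hb =>
    Finset.mem_union_right _ (Finset.mem_image.2 ⟨(a, b), Finset.mk_mem_product ha hb, rfl⟩)
  intro R M _ _ _ _ _ _ x B Y hB hC
  have hBB : ∀ θ, θ ∈ B → θ ∈ B₀ := fun θ h => (hB₀ θ).2 ((hB θ).1 h)
  have hG : Good V B := by
    constructor
    · intro e he
      by_cases h0 : e = 0
      · rw [h0]; exact zero_mem _
      have h1 := hj ⟨e, hT e (hTin e (hBB e he))⟩ (hTin e (hBB e he))
        (fun h => h0 (congrArg Subtype.val h))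
      exact hmemV ⟨e, hT e (hTin e (hBB e he))⟩ h1.le
    · intro e he e' he' hne
      have hd := hTd e (hBB e he) e' (hBB e' he')
      have h0 : e - e' ≠ 0 := sub_ne_zero.2 hne
      have h1 := hj ⟨e - e', hT _ hd⟩ hd (fun h => h0 (congrArg Subtype.val h))
      refine ⟨h0, hmemV ⟨e - e', hT _ hd⟩ h1.le, ?_⟩
      have h2 := hmemV (⟨e - e', hT _ hd⟩⁻¹ : k₁) (by rw [map_inv₀, norm_inv, h1, inv_one])
      exact h2
  letI : Algebra A κ := ((algebraMap k₁ κ).comp (algebraMap A k₁)).toAlgebra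
  haveI hst : IsScalarTower A k₁ κ := IsScalarTower.of_algebraMap_eq (fun _ => rfl)
  have hVa : ∀ a : A, algebraMap A κ a ∈ V := hVA
  have hVm' : ∀ a ∈ IsLocalRing.maximalIdeal A, algebraMap A κ a ∈ V.nonunits := hVm
  exact ⟨rig_up k₁ (rig_of_dvr hVa hVm' hℓu hC hG), rot_of_dvr (k := k₁) hVa hVm' hℓu hC hG⟩

end Pool.Agent.R925.Q
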