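import Pool.Agent.R925.Q.DescG
import Pool.Agent.R925.Q.Inst

/-! Frobenius elements which fix an infinite extension with a finite residue field. -/

set_option autoImplicit false
set_option linter.all false

open Polynomial FF

namespace Pool.Agent.R925.Q

open Pool.Agent.Y157.PS
open Pool.Agent.H639R3 Pool.Agent.H124R3.ZT

section

variable {k κ : Type} [Field k] [Field κ] [Algebra k κ]

theorem isOpen_eval [Algebra.IsAlgebraic k κ] (z : κ) (P : κ → Prop) :
    IsOpen {φ : κ ≃ₐ[k] κ | P (φ z)} := by
  rw [isOpen_iff_mem_nhds]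
  intro φ hφ
  haveI : FiniteDimensional k (IntermediateField.adjoin k {z}) :=
    IntermediateField.adjoin.finiteDimensional (Algebra.IsAlgebraic.isAlgebraic z).isIntegral
  have h := (IntermediateField.fixingSubgroup_isOpen (IntermediateField.adjoin k {z})).leftCoset φ
  refine Filter.mem_of_superset (h.mem_nhds ⟨1, one_mem _, mul_one φ⟩) ?_
  rintro _ ⟨τ, hτ, rfl⟩
  show P (φ (τ z))
  rw [(IntermediateField.mem_fixingSubgroup_iff _ _).1 hτ z
    (IntermediateField.mem_adjoin_simple_self k z)]
  exact hφ

theorem isClosed_eval [Algebra.IsAlgebraic k κ] (z : κ) (P : κ → Prop) :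
    IsClosed {φ : κ ≃ₐ[k] κ | P (φ z)} := by
  rw [← isOpen_compl_iff]
  exact isOpen_eval z fun w => ¬ P w

end

/-- restriction of scalars -/
def resk {k κ : Type} [Field k] [Field κ] [Algebra k κ] (k' : IntermediateField k κ) :
    (κ ≃ₐ[k'] κ) →* (κ ≃ₐ[k] κ) where
  toFun := AlgEquiv.restrictScalars k
  map_one' := rfl
  map_mul' := fun _ _ => rfl

section

variable {A k κ : Type} [CommRing A] [IsDomain A] [IsDiscreteValuationRing A]
    [Finite (IsLocalRing.ResidueField A)] [Field k] [CharZero k] [Algebra A k] [IsFractionRing A k]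
    [Field κ] [Algebra k κ] [Algebra A κ] [IsScalarTower A k κ] [IsAlgClosure k κ]
    {V : ValuationSubring κ}

/-- Frobenius elements over a finite extension -/
theorem frob_fin (hVa : ∀ a : A, algebraMap A κ a ∈ V)
    (hVm : ∀ a ∈ IsLocalRing.maximalIdeal A, algebraMap A κ a ∈ V.nonunits)
    (K' : IntermediateField k κ)
    (hfin : Finite (IsLocalRing.ResidueField (V.comap (algebraMap K' κ))))
    (E : IntermediateField k κ) [FiniteDimensional k E] (hE : E ≤ K') :
    ∃ φ : κ ≃ₐ[k] κ, (∀ z ∈ E, φ z = z) ∧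
      Fro V (Nat.card (IsLocalRing.ResidueField (V.comap (algebraMap K' κ)))) φ := by
  classical
  have hac : IsAlgClosed κ := IsAlgClosure.isAlgClosed k
  have halg : Algebra.IsAlgebraic k κ := IsAlgClosure.isAlgebraic
  have hgal : IsGalois k κ := by
    have : Normal k κ := inferInstance
    have : Algebra.IsSeparable k κ := inferInstance
    exact ⟨⟩
  have hgalE : IsGalois E κ := inferInstance
  letI : Algebra A E := ((algebraMap k E).comp (algebraMap A k)).toAlgebra
  haveI : IsScalarTower A k E := IsScalarTower.of_algebraMap_eq fun _ => rfl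
  haveI : IsScalarTower A E κ := IsScalarTower.of_algebraMap_eq fun a => by
    rw [IsScalarTower.algebraMap_apply A k κ]
    rfl
  haveI : IsDedekindDomain (integralClosure A E) := integralClosure.isDedekindDomain A k E
  haveI : IsFractionRing (integralClosure A E) E :=
    integralClosure.isFractionRing_of_finite_extension k E
  haveI hst : IsScalarTower (integralClosure A E) E κ := IsScalarTower.of_algebraMap_eq fun _ => rfl
  have hA : ∀ a : integralClosure A E, algebraMap (integralClosure A E) κ a ∈ V := by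
    intro a
    refine integral_mem V hVa _ ?_
    have h1 : IsIntegral A (a : E) := a.2
    exact h1.algebraMap (B := κ)
  have hinjκ : Function.Injective (algebraMap A κ) := by
    rw [IsScalarTower.algebraMap_eq A k κ]
    exact (algebraMap k κ).injective.comp (IsFractionRing.injective A k)
  obtain ⟨ϖ, hϖ⟩ := IsDiscreteValuationRing.exists_irreducible A
  have hϖ0 : algebraMap A κ ϖ ≠ 0 := by
    intro h
    exact hϖ.ne_zero (hinjκ (by rw [h, map_zero]))
  have hϖm := hVm ϖ hϖ.not_isUnit
  have hne : V.comap (algebraMap E κ) ≠ ⊤ := by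
    intro h
    rcases (nonunits_iff.1 hϖm).2 with h1 | h1
    · exact hϖ0 h1
    · apply h1
      have h2 : (algebraMap A E ϖ)⁻¹ ∈ V.comap (algebraMap E κ) := by rw [h]; trivial
      rw [ValuationSubring.mem_comap, map_inv₀, ← IsScalarTower.algebraMap_apply] at h2
      exact h2
  -- the residue field
  set O := V.comap (algebraMap K' κ) with hO
  letI : Fintype (IsLocalRing.ResidueField O) := Fintype.ofFinite _
  obtain ⟨p, hpc⟩ := CharP.exists (IsLocalRing.ResidueField O)
  obtain ⟨m, hp, hm⟩ := FiniteField.card (IsLocalRing.ResidueField O) p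
  have hpf : Fact p.Prime := ⟨hp⟩
  have hOnon : ∀ z : O, IsLocalRing.residue O z = 0 ↔ V.valuation ((z : K') : κ) < 1 := by
    intro z
    rw [residue_zero_iff, ← ValuationSubring.mem_nonunits_iff]
    rw [nonunits_iff, nonunits_iff]
    have h1 : ∀ w : K', w ∈ O ↔ (w : κ) ∈ V := fun w => Iff.rfl
    rw [h1, h1]
    constructor
    · rintro ⟨a, b | b⟩
      · exact ⟨a, Or.inl (by rw [b]; rfl)⟩
      · exact ⟨a, Or.inr b⟩
    · rintro ⟨a, b | b⟩
      · exact ⟨a, Or.inl (Subtype.ext b)⟩
      · exact ⟨a, Or.inr b⟩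
  have hpw : V.valuation (p : κ) < 1 := by
    have h1 := (hOnon (p : O)).1 (by rw [map_natCast]; exact CharP.cast_eq_zero _ p)
    simpa using h1
  have hmemO : ∀ a : integralClosure A E, (⟨algebraMap (integralClosure A E) κ a, hE (a : E).2⟩ : K') ∈ O :=
    fun a => hA a
  have hfix : ∀ a : integralClosure A E,
      V.valuation ((algebraMap (integralClosure A E) κ a) ^ p ^ (m : ℕ) -
        algebraMap (integralClosure A E) κ a) < 1 := by
    intro a
    have h1 := (hOnon (⟨_, hmemO a⟩ ^ p ^ (m : ℕ) - ⟨_, hmemO a⟩)).1 (by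
      rw [map_sub, map_pow, ← hm, FiniteField.pow_card, sub_self])
    exact h1
  have hfinA : Finite (integralClosure A E ⧸ cent V hA) := by
    let ι : integralClosure A E →+* O :=
      { toFun := fun a => ⟨_, hmemO a⟩
        map_one' := by
          apply Subtype.ext; apply Subtype.ext
          exact map_one (algebraMap (integralClosure A E) κ)
        map_mul' := fun a b => by
          apply Subtype.ext; apply Subtype.ext
          exact map_mul (algebraMap (integralClosure A E) κ) a b
        map_zero' := by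
          apply Subtype.ext; apply Subtype.ext
          exact map_zero (algebraMap (integralClosure A E) κ)
        map_add' := fun a b => by
          apply Subtype.ext; apply Subtype.ext
          exact map_add (algebraMap (integralClosure A E) κ) a b }
    have hker : RingHom.ker ((IsLocalRing.residue O).comp ι) = cent V hA := by
      ext a
      rw [RingHom.mem_ker, mem_cent, RingHom.comp_apply, hOnon]
      rfl
    rw [← hker]
    exact Finite.of_injective _ (RingHom.kerLift_injective ((IsLocalRing.residue O).comp ι))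
  obtain ⟨σ, h1, h2⟩ := Pool.Agent.Y183.PS.exists_frob (K := E) (A := integralClosure A E) V hA
    hne p m hpw hfix hfinA
  refine ⟨resk E σ, fun z hz => σ.commutes ⟨z, hz⟩, fun z => (h1 z).symm, fun z hz => ?_⟩
  rw [Nat.card_eq_fintype_card, hm, ValuationSubring.mem_nonunits_iff]
  exact h2 z hz

/-- Frobenius elements over an infinite extension with a finite residue field -/
theorem frob_inf (hVa : ∀ a : A, algebraMap A κ a ∈ V)
    (hVm : ∀ a ∈ IsLocalRing.maximalIdeal A, algebraMap A κ a ∈ V.nonunits)
    (K' : IntermediateField k κ)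
    (hfin : Finite (IsLocalRing.ResidueField (V.comap (algebraMap K' κ)))) :
    ∃ φ ∈ K'.fixingSubgroup,
      Fro V (Nat.card (IsLocalRing.ResidueField (V.comap (algebraMap K' κ)))) φ := by
  classical
  have hac : IsAlgClosed κ := IsAlgClosure.isAlgClosed k
  have halg : Algebra.IsAlgebraic k κ := IsAlgClosure.isAlgebraic
  have hgal : IsGalois k κ := by
    have : Normal k κ := inferInstance
    have : Algebra.IsSeparable k κ := inferInstance
    exact ⟨⟩
  set Q := Nat.card (IsLocalRing.ResidueField (V.comap (algebraMap K' κ))) with hQ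
  let I := {E : IntermediateField k κ // FiniteDimensional k E ∧ E ≤ K'}
  let X : I → Set (κ ≃ₐ[k] κ) := fun E => {φ | (∀ z ∈ E.1, φ z = z) ∧ Fro V Q φ}
  have hX : ∀ E, IsClosed (X E) := by
    intro E
    have h1 : X E = (⋂ z : E.1, {φ : κ ≃ₐ[k] κ | φ (z : κ) = z}) ∩
        ((⋂ z : κ, {φ : κ ≃ₐ[k] κ | φ z ∈ V ↔ z ∈ V}) ∩
          ⋂ z : V, {φ : κ ≃ₐ[k] κ | φ (z : κ) - (z : κ) ^ Q ∈ V.nonunits}) := by
      ext φ
      simp only [Set.mem_inter_iff, Set.mem_iInter, Set.mem_setOf_eq]
      constructor
      · rintro ⟨a, b, c⟩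
        exact ⟨fun z => a z z.2, fun z => b z, fun z => c z z.2⟩
      · rintro ⟨a, b, c⟩
        exact ⟨fun z hz => a ⟨z, hz⟩, fun z => b z, fun z hz => c ⟨z, hz⟩⟩
    rw [h1]
    exact (isClosed_iInter fun z : E.1 => isClosed_eval (k := k) (z : κ) fun w => w = z).inter
      ((isClosed_iInter fun z => isClosed_eval (k := k) z fun w => w ∈ V ↔ z ∈ V).inter
        (isClosed_iInter fun z : V =>
          isClosed_eval (k := k) (z : κ) fun w => w - (z : κ) ^ Q ∈ V.nonunits))
  haveI : Nonempty I := ⟨⟨⊥, inferInstance, bot_le⟩⟩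
  have hdir : Directed (· ⊇ ·) X := by
    intro E E'
    haveI := E.2.1
    haveI := E'.2.1
    refine ⟨⟨E.1 ⊔ E'.1, inferInstance, sup_le E.2.2 E'.2.2⟩, ?_, ?_⟩
    · rintro φ ⟨a, b⟩
      exact ⟨fun z hz => a z (le_sup_left (a := E.1) hz), b⟩
    · rintro φ ⟨a, b⟩
      exact ⟨fun z hz => a z (le_sup_right (a := E.1) hz), b⟩
  have hne : ∀ E, (X E).Nonempty := by
    intro E
    haveI := E.2.1
    obtain ⟨φ, h1, h2⟩ := frob_fin hVa hVm K' hfin E.1 E.2.2
    exact ⟨φ, h1, h2⟩
  obtain ⟨φ, hφ⟩ := IsCompact.nonempty_iInter_of_directed_nonempty_isCompact_isClosed X hdir hne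
    (fun E => (hX E).isCompact) hX
  rw [Set.mem_iInter] at hφ
  refine ⟨φ, (IntermediateField.mem_fixingSubgroup_iff _ _).2 fun z hz => ?_,
    (hφ ⟨⊥, inferInstance, bot_le⟩).2⟩
  haveI : FiniteDimensional k (IntermediateField.adjoin k {z}) :=
    IntermediateField.adjoin.finiteDimensional (Algebra.IsAlgebraic.isAlgebraic z).isIntegral
  exact (hφ ⟨IntermediateField.adjoin k {z}, inferInstance,
    IntermediateField.adjoin_simple_le_iff.2 hz⟩).1 z (IntermediateField.mem_adjoin_simple_self k z)

/-- rigid elements over an infinite extension with a finite residue field -/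
theorem rigS_inf {R M : Type} [Field R] [Field M] [Algebra κ R] [Algebra R M] [Algebra κ M]
    [IsScalarTower κ R M] {ℓ : ℕ} [Fact ℓ.Prime] {x : R} {B : Finset κ} {Y : M}
    (hVa : ∀ a : A, algebraMap A κ a ∈ V)
    (hVm : ∀ a ∈ IsLocalRing.maximalIdeal A, algebraMap A κ a ∈ V.nonunits)
    (hℓA : IsUnit (ℓ : A)) (hC : Cov ℓ κ R M x B Y) (hG : Good V B)
    (K' : IntermediateField k κ)
    (hfin : Finite (IsLocalRing.ResidueField (V.comap (algebraMap K' κ)))) :
    RigS k κ R M x Y K'.fixingSubgroup := by
  haveI : IsAlgClosed κ := IsAlgClosure.isAlgClosed k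
  haveI : Algebra.IsAlgebraic k κ := IsAlgClosure.isAlgebraic
  obtain ⟨φ, hφ, hfro⟩ := frob_inf hVa hVm K' hfin
  -- the residue field of `A` is contained in the one of `K'`
  set O := V.comap (algebraMap K' κ) with hO
  let ι : A →+* O :=
    { toFun := fun a => ⟨algebraMap k K' (algebraMap A k a), by
        show (algebraMap k κ (algebraMap A k a)) ∈ V
        rw [← IsScalarTower.algebraMap_apply]
        exact hVa a⟩
      map_one' := by apply Subtype.ext; simp
      map_mul' := fun a b => by apply Subtype.ext; simp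
      map_zero' := by apply Subtype.ext; simp
      map_add' := fun a b => by apply Subtype.ext; simp }
  have hιm : ∀ a ∈ IsLocalRing.maximalIdeal A, IsLocalRing.residue O (ι a) = 0 := by
    intro a ha
    rw [residue_zero_iff, nonunits_iff]
    have h1 := nonunits_iff.1 (hVm a ha)
    have h2 : ∀ w : K', w ∈ O ↔ (w : κ) ∈ V := fun w => Iff.rfl
    have h3 : ((ι a : K') : κ) = algebraMap A κ a := (IsScalarTower.algebraMap_apply A k κ a).symm
    refine ⟨(ι a).2, ?_⟩
    rcases h1.2 with h4 | h4
    · exact Or.inl (Subtype.ext (by rw [h3, h4]; rfl))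
    · refine Or.inr ?_
      rw [h2]
      have h5 : (((ι a : K')⁻¹ : K') : κ) = (algebraMap A κ a)⁻¹ := by rw [← h3]; rfl
      rw [h5]
      exact h4
  letI : Algebra (IsLocalRing.ResidueField A) (IsLocalRing.ResidueField O) :=
    (Ideal.Quotient.lift (IsLocalRing.maximalIdeal A) ((IsLocalRing.residue O).comp ι)
      hιm).toAlgebra
  have hcard : Nat.card (IsLocalRing.ResidueField O) = Nat.card (IsLocalRing.ResidueField A) ^
      Module.finrank (IsLocalRing.ResidueField A) (IsLocalRing.ResidueField O) :=
    Module.natCard_eq_pow_finrank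
  have hpos : 0 < Module.finrank (IsLocalRing.ResidueField A) (IsLocalRing.ResidueField O) := by
    haveI : Module.Finite (IsLocalRing.ResidueField A) (IsLocalRing.ResidueField O) :=
      Module.Finite.of_finite
    exact Module.finrank_pos
  rw [hcard] at hfro
  intro U hU
  obtain ⟨n, hn, -, hn'⟩ := Subgroup.exists_pow_mem_of_index_ne_zero hU φ
  refine ⟨φ ^ n, hn', pow_mem hφ n, fun ψ hL δ => ?_⟩
  have h1 := fro_pow hfro n
  rw [← pow_mul] at h1
  exact rigA hVa hVm hℓA hC hG (Nat.mul_pos hpos hn) h1 hL δ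

end

end Pool.Agent.R925.Q
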