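import Pool.Agent.R925.Q.Act
import Pool.Agent.Y536.PS.CONJ

/-! The Herbrand bound for unramified cyclic extensions of function fields with a Frobenius. -/

set_option autoImplicit false
set_option linter.all false

open Module Pool.Agent.H525R3.FFp Pool.Agent.W132.AG
open FF (Place IsFF Over)

namespace Pool.Agent.R925.Q

theorem finite_of_bound {X : Type} (B : ℕ) (h : ∀ T : Finset X, T.card ≤ B) : Finite X := by
  by_contra hc
  rw [not_finite_iff_infinite] at hc
  obtain ⟨s, hs⟩ := Infinite.exists_subset_card_eq X (B + 1)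
  have := h s
  omega

/-- kernel and cokernel of an endomorphism of a finite group have the same size -/
theorem grp {A : Type} [AddCommGroup A] (P : AddSubgroup A) [Finite (A ⧸ P)] (δ : A →+ A)
    (hδ : ∀ a ∈ P, δ a ∈ P) (n : ℕ) (hn : 0 < n) (deg : A →+ ℤ) (w : A) (hw : deg w = 1)
    (h0 : ∀ a, deg (δ a) = 0) (hP : ∀ a ∈ P, (n : ℤ) ∣ deg a) :
    ∃ f : Fin n → A, (∀ i, δ (f i) ∈ P) ∧ ∀ i j, i ≠ j → f i - f j ∉ P := by
  classical
  haveI : NeZero n := ⟨hn.ne'⟩
  let δ' : A ⧸ P →+ A ⧸ P := QuotientAddGroup.map P P δ hδ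
  let d' : A ⧸ P →+ ZMod n := QuotientAddGroup.lift P ((Int.castAddHom (ZMod n)).comp deg)
    (fun a ha => by
      show ((deg a : ℤ) : ZMod n) = 0
      rw [ZMod.intCast_zmod_eq_zero_iff_dvd]
      exact hP a ha)
  have hd' : Function.Surjective d' := by
    intro c
    refine ⟨QuotientAddGroup.mk ((c.val : ℤ) • w), ?_⟩
    show ((deg ((c.val : ℤ) • w) : ℤ) : ZMod n) = c
    rw [map_zsmul, hw]
    simp
  have h1 : Nat.card δ'.ker * Nat.card δ'.range = Nat.card (A ⧸ P) := by
    rw [mul_comm, ← AddSubgroup.index_ker δ', AddSubgroup.index_mul_card]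
  have h2 : δ'.range.index * Nat.card δ'.range = Nat.card (A ⧸ P) := AddSubgroup.index_mul_card _
  have h3 : 0 < Nat.card δ'.range := Nat.card_pos
  have h4 : Nat.card δ'.ker = δ'.range.index := Nat.eq_of_mul_eq_mul_right h3 (h1.trans h2.symm)
  have h5 : δ'.range ≤ d'.ker := by
    rintro _ ⟨a, rfl⟩
    obtain ⟨a, rfl⟩ := QuotientAddGroup.mk_surjective a
    rw [AddMonoidHom.mem_ker]
    show ((deg (δ a) : ℤ) : ZMod n) = 0
    rw [h0]; simp
  have h6 : d'.ker.index = n := by
    rw [AddSubgroup.index_ker, AddMonoidHom.range_eq_top.2 hd', Nat.card_congr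
      AddSubgroup.topEquiv.toEquiv, Nat.card_zmod]
  have h7 : n ≤ δ'.range.index := by
    rw [← h6]
    exact Nat.le_of_dvd (Nat.pos_of_ne_zero AddSubgroup.index_ne_zero_of_finite)
      (AddSubgroup.index_dvd_of_le h5)
  rw [← h4] at h7
  haveI : Fintype δ'.ker := Fintype.ofFinite _
  rw [Nat.card_eq_fintype_card] at h7
  obtain ⟨e⟩ := Function.Embedding.nonempty_of_card_le (α := Fin n) (β := δ'.ker) (by simpa using h7)
  refine ⟨fun i => Quotient.out (e i : A ⧸ P), fun i => ?_, fun i j hij h => hij ?_⟩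
  · have h8 : δ' (e i) = 0 := (e i).2
    have h9 : (QuotientAddGroup.mk (Quotient.out (e i : A ⧸ P)) : A ⧸ P) = e i :=
      QuotientAddGroup.out_eq' _
    rw [← h9] at h8
    exact (QuotientAddGroup.eq_zero_iff _).1 h8
  · have h9 : ∀ i, (QuotientAddGroup.mk (Quotient.out (e i : A ⧸ P)) : A ⧸ P) = e i :=
      fun i => QuotientAddGroup.out_eq' _
    have h10 := (QuotientAddGroup.eq_zero_iff _).2 h
    rw [QuotientAddGroup.mk_sub, sub_eq_zero, h9, h9] at h10
    exact e.injective (Subtype.ext h10)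

section
variable {k N K : Type} [Field k] [IsAlgClosed k] [Field N] [Field K] [Algebra k N] [Algebra k K]
  [Algebra N K] [IsScalarTower k N K] [FiniteDimensional N K] [IsGalois N K] [IsFF k N] [IsFF k K]

theorem semi_gal (g : K ≃ₐ[N] K) : Semi (g : K ≃+* K) (RingEquiv.refl k) := by
  intro c
  show g (algebraMap k K c) = algebraMap k K c
  rw [IsScalarTower.algebraMap_apply k N K, g.commutes]

theorem act_mul (g h : K ≃ₐ[N] K) (D : Place k K →₀ ℤ) :
    act (semi_gal (k := k) g) (act (semi_gal h) D) = act (semi_gal (g * h)) D := by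
  ext W
  rw [act_apply, act_apply, act_apply]
  congr 1

/-- places over the same place are conjugate -/
theorem trans_places (W W' : Place k K) (h : und N W = und N W') :
    ∃ g : K ≃ₐ[N] K, pullE (semi_gal (k := k) g) W = W' := by
  obtain ⟨g, hg⟩ := Pool.Agent.Y536.PS.conj N K W.O W'.O (by
    ext z
    rw [ValuationSubring.mem_comap, ValuationSubring.mem_comap]
    show W.Reg _ ↔ W'.Reg _
    rw [(over_und W).reg, (over_und W').reg, h])
  refine ⟨g, FF.Place.eq_of_le _ _ fun f hf h1 => ?_⟩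
  rw [pullE_ord] at h1
  have h2 : (f : K) ∈ W'.O := by
    rw [hg]
    exact Or.inr h1
  exact (W'.reg_iff hf).1 h2

theorem und_pull (g : K ≃ₐ[N] K) (W : Place k K) :
    und N (pullE (semi_gal (k := k) g) W) = und N W := by
  apply und_eq (e := eI N W)
  refine ⟨(over_und W).1, fun f => ?_⟩
  rw [pullE_ord]
  show W.ord (g (algebraMap N K f)) = _
  rw [g.commutes]
  exact (over_und W).2 f

theorem exists_above (w : Place k N) : ∃ W : Place k K, und N W = w := by
  have h1 := sum_fibS (E := K) w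
  have h2 : (fibS K w).Nonempty := by
    rw [Finset.nonempty_iff_ne_empty]
    intro h0
    rw [h0, Finset.sum_empty, deg_one w, mul_one] at h1
    exact Module.finrank_pos.ne h1
  obtain ⟨W, hW⟩ := h2
  exact ⟨W, mem_fibS.1 hW⟩

theorem con_divisor (z : N) : con k N K (divisor k z) = divisor k (algebraMap N K z) := by
  ext W
  rw [con_apply, divisor_apply, divisor_apply, (over_und W).2]

theorem con_inj (hunr : ∀ W : Place k K, eI N W = 1) {E E' : Place k N →₀ ℤ}
    (h : con k N K E = con k N K E') : E = E' := by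
  ext w
  obtain ⟨W, rfl⟩ := exists_above (K := K) w
  have h1 := DFunLike.congr_fun h W
  rw [con_apply, con_apply, hunr] at h1
  simpa using h1

theorem con_surj (hunr : ∀ W : Place k K, eI N W = 1) (D : Place k K →₀ ℤ)
    (hD : ∀ g : K ≃ₐ[N] K, act (semi_gal (k := k) g) D = D) : ∃ E, con k N K E = D := by
  choose s hs using fun w : Place k N => exists_above (K := K) w
  have hsinj : Function.Injective s := fun a b h => by rw [← hs a, ← hs b, h]
  refine ⟨Finsupp.comapDomain s D hsinj.injOn, ?_⟩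
  ext W
  rw [con_apply, hunr, Finsupp.comapDomain_apply, Nat.cast_one, one_mul]
  obtain ⟨g, hg⟩ := trans_places W (s (und N W)) (hs _).symm
  rw [← hg, ← act_apply, hD]

theorem con_act_gal (hunr : ∀ W : Place k K, eI N W = 1) (E : Place k N →₀ ℤ) (g : K ≃ₐ[N] K) :
    act (semi_gal (k := k) g) (con k N K E) = con k N K E := by
  ext W
  rw [act_apply, con_apply, con_apply, und_pull, hunr, hunr]

variable {σ : k ≃+* k} {Ψ : K ≃+* K} {Ψ0 : N ≃+* N}

theorem und_pull_semi (hΨ : Semi Ψ σ) (hΨ0 : Semi Ψ0 σ)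
    (hc : ∀ z : N, Ψ (algebraMap N K z) = algebraMap N K (Ψ0 z)) (W : Place k K) :
    und N (pullE hΨ W) = pullE hΨ0 (und N W) := by
  apply und_eq (e := eI N W)
  refine ⟨(over_und W).1, fun f => ?_⟩
  rw [pullE_ord, hc, (over_und W).2, pullE_ord]

theorem con_act (hunr : ∀ W : Place k K, eI N W = 1) (hΨ : Semi Ψ σ) (hΨ0 : Semi Ψ0 σ)
    (hc : ∀ z : N, Ψ (algebraMap N K z) = algebraMap N K (Ψ0 z)) (E : Place k N →₀ ℤ) :
    act hΨ (con k N K E) = con k N K (act hΨ0 E) := by
  ext W
  rw [act_apply, con_apply, con_apply, act_apply, hunr, hunr, und_pull_semi hΨ hΨ0 hc]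

theorem act_comm (hΨ : Semi Ψ σ) (g : K ≃ₐ[N] K) (hg : ∀ z, Ψ (g z) = g (Ψ z))
    (D : Place k K →₀ ℤ) :
    act hΨ (act (semi_gal (k := k) g) D) = act (semi_gal (k := k) g) (act hΨ D) := by
  ext W
  rw [act_apply, act_apply, act_apply, act_apply]
  congr 1
  apply FF.Place.ext
  funext z
  rw [pullE_ord, pullE_ord, pullE_ord, pullE_ord]
  congr 1
  exact (hg z).symm ▸ rfl

end

end Pool.Agent.R925.Q
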