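import Pool.Agent.R925.Q.HB

/-! The Herbrand bound: main theorem. -/

set_option autoImplicit false
set_option linter.all false

open Module Pool.Agent.H525R3.FFp Pool.Agent.W132.AG
open FF (Place IsFF Over)

namespace Pool.Agent.R925.Q

theorem divisor_one {k K : Type} [Field k] [IsAlgClosed k] [Field K] [Algebra k K] [IsFF k K] :
    divisor k (1 : K) = 0 := by
  ext W
  rw [divisor_apply, W.ord_one]; rfl

theorem ddeg_zsmul {k K : Type} [Field k] [IsAlgClosed k] [Field K] [Algebra k K] [IsFF k K]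
    (j : ℤ) (D : Place k K →₀ ℤ) : ddeg (j • D) = j * ddeg D := by
  have := map_zsmul (ddegHom k K) j D
  rw [smul_eq_mul] at this
  exact this

/-- pigeonhole for divisor classes -/
theorem pig {k K : Type} [Field k] [IsAlgClosed k] [Field K] [Algebra k K] [IsFF k K]
    {Q : (Place k K →₀ ℤ) → Prop} {C : ℕ} (hC : ∀ T : Finset (Place k K →₀ ℤ),
      (∀ D ∈ T, Q D) → C < T.card →
      ∃ D ∈ T, ∃ D' ∈ T, D ≠ D' ∧ ∃ z : K, z ≠ 0 ∧ D - D' = divisor k z)
    {ι : Type} (I : Finset ι) (E : ι → (Place k K →₀ ℤ)) (hE : ∀ i ∈ I, Q (E i))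
    (hI : C < I.card) :
    ∃ i ∈ I, ∃ j ∈ I, i ≠ j ∧ ∃ z : K, z ≠ 0 ∧ E i - E j = divisor k z := by
  classical
  by_cases hinj : Set.InjOn E I
  · obtain ⟨D, hD, D', hD', hne, z, hz, h⟩ := hC (I.image E) (by
      intro D hD
      obtain ⟨i, hi, rfl⟩ := Finset.mem_image.1 hD
      exact hE i hi) (by rwa [Finset.card_image_of_injOn hinj])
    obtain ⟨i, hi, rfl⟩ := Finset.mem_image.1 hD
    obtain ⟨j, hj, rfl⟩ := Finset.mem_image.1 hD'
    exact ⟨i, hi, j, hj, fun h' => hne (by rw [h']), z, hz, h⟩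
  · unfold Set.InjOn at hinj
    push Not at hinj
    obtain ⟨i, hi, j, hj, heq, hne⟩ := hinj
    exact ⟨i, hi, j, hj, hne, 1, one_ne_zero, by rw [heq, sub_self, divisor_one]⟩

section
variable {k N K : Type} [Field k] [IsAlgClosed k] [Field N] [Field K] [Algebra k N] [Algebra k K]
  [Algebra N K] [IsScalarTower k N K] [FiniteDimensional N K] [IsGalois N K] [IsFF k N] [IsFF k K]

theorem comm_all {Ψ : K ≃+* K} {τ : K ≃ₐ[N] K} (hτ : ∀ g : K ≃ₐ[N] K, g ∈ Subgroup.zpowers τ)
    (hcomm : ∀ z, Ψ (τ z) = τ (Ψ z)) (g : K ≃ₐ[N] K) (z : K) : Ψ (g z) = g (Ψ z) := by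
  let H : Subgroup (K ≃ₐ[N] K) :=
    { carrier := {g | ∀ z, Ψ (g z) = g (Ψ z)}
      mul_mem' := by
        intro a b ha hb z
        rw [AlgEquiv.mul_apply, AlgEquiv.mul_apply, ha, hb]
      one_mem' := fun z => rfl
      inv_mem' := by
        intro a ha z
        apply a.injective
        rw [← ha]
        have h1 : ∀ w, a (a⁻¹ w) = w := fun w => a.apply_symm_apply w
        rw [h1, h1] }
  have h1 : Subgroup.zpowers τ ≤ H := by
    rw [Subgroup.zpowers_le]
    exact hcomm
  exact h1 (hτ g) z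

theorem inv_all {τ : K ≃ₐ[N] K} (hτ : ∀ g : K ≃ₐ[N] K, g ∈ Subgroup.zpowers τ)
    {D : Place k K →₀ ℤ} (hD : act (semi_gal (k := k) τ) D = D) (g : K ≃ₐ[N] K) :
    act (semi_gal (k := k) g) D = D := by
  have h0 : act (semi_gal (k := k) (1 : K ≃ₐ[N] K)) D = D := by
    ext W
    rw [act_apply]
    congr 1
  let H : Subgroup (K ≃ₐ[N] K) :=
    { carrier := {g | act (semi_gal (k := k) g) D = D}
      mul_mem' := by
        intro a b ha hb
        show act (semi_gal (k := k) (a * b)) D = D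
        rw [← act_mul]
        rw [Set.mem_setOf_eq] at ha hb
        rw [hb, ha]
      one_mem' := h0
      inv_mem' := by
        intro a ha
        rw [Set.mem_setOf_eq] at ha
        show act (semi_gal (k := k) a⁻¹) D = D
        have h1 := act_mul (k := k) a⁻¹ a D
        rw [ha, inv_mul_cancel, h0] at h1
        exact h1 }
  have h1 : Subgroup.zpowers τ ≤ H := by
    rw [Subgroup.zpowers_le]
    exact hD
  exact h1 (hτ g)

theorem fixed_all {τ : K ≃ₐ[N] K} (hτ : ∀ g : K ≃ₐ[N] K, g ∈ Subgroup.zpowers τ)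
    {z : K} (hz : τ z = z) : ∃ u : N, algebraMap N K u = z := by
  have h1 : z ∈ Set.range (algebraMap N K) := by
    rw [IsGalois.mem_range_algebraMap_iff_fixed]
    intro g
    have h2 : Subgroup.zpowers τ ≤ MulAction.stabilizer (K ≃ₐ[N] K) z := by
      rw [Subgroup.zpowers_le]
      exact hz
    exact h2 (hτ g)
  exact h1

theorem divisor_gal (g : K ≃ₐ[N] K) (z : K) :
    act (semi_gal (k := k) g) (divisor k z) = divisor k (g z) := act_divisor _ z

theorem divisor_prod {ι : Type} (s : Finset ι) (f : ι → K) (hf : ∀ i ∈ s, f i ≠ 0) :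
    divisor k (∏ i ∈ s, f i) = ∑ i ∈ s, divisor k (f i) := by
  classical
  induction s using Finset.induction_on with
  | empty => rw [Finset.prod_empty, Finset.sum_empty, divisor_one]
  | insert a s ha ih =>
    rw [Finset.prod_insert ha, Finset.sum_insert ha, divisor_mul (hf a (Finset.mem_insert_self a s))
      (Finset.prod_ne_zero_iff.2 fun i hi => hf i (Finset.mem_insert_of_mem hi)),
      ih fun i hi => hf i (Finset.mem_insert_of_mem hi)]

variable {σ : k ≃+* k} {Ψ : K ≃+* K} {Ψ0 : N ≃+* N}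

/-- **the Herbrand bound** -/
theorem hb {τ : K ≃ₐ[N] K} (hτ : ∀ g : K ≃ₐ[N] K, g ∈ Subgroup.zpowers τ)
    (hunr : ∀ W : Place k K, eI N W = 1)
    (hΨ : Semi Ψ σ) (hΨ0 : Semi Ψ0 σ) (hc : ∀ z : N, Ψ (algebraMap N K z) = algebraMap N K (Ψ0 z))
    (hcomm : ∀ z, Ψ (τ z) = τ (Ψ z))
    (hσ : ∀ j : ℕ, 0 < j → {c : k | (σ ^ j) c = c}.Finite)
    (hL : ∀ b : k, b ≠ 0 → ∃ a : k, a ≠ 0 ∧ σ a = b * a)
    (S : Finset k) (hS : ∀ c : k, c ≠ 0 → σ c = c → c ∈ S)
    {x : N} (hx : Transcendental k x) (hxΨ : Ψ0 x = x)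
    {W₁ : Place k K} (hW₁ : pullE hΨ W₁ = W₁)
    (C : ℕ) (hC : ∀ T : Finset (Place k N →₀ ℤ),
      (∀ D ∈ T, ddeg D = 0 ∧ ∃ u : N, u ≠ 0 ∧ act hΨ0 D - D = divisor k u) → C < T.card →
      ∃ D ∈ T, ∃ D' ∈ T, D ≠ D' ∧ ∃ z : N, z ≠ 0 ∧ D - D' = divisor k z) :
    finrank N K ≤ S.card * C := by
  classical
  set n := finrank N K with hndef
  have hn : 0 < n := Module.finrank_pos
  haveI : NeZero n := ⟨hn.ne'⟩
  set w₁ := und N W₁ with hw₁
  have hw₁Ψ : pullE hΨ0 w₁ = w₁ := by
    rw [hw₁, ← und_pull_semi hΨ hΨ0 hc, hW₁]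
  set NW := con k N K (Finsupp.single w₁ 1) with hNW
  have hNWdeg : ddeg NW = n := by
    rw [hNW, ddeg_con, ddeg_single, deg_one]; push_cast; ring
  have hNWΨ : act hΨ NW = NW := by
    rw [hNW, con_act hunr hΨ hΨ0 hc, act_single_fix hΨ0 hw₁Ψ]
  have hNWm : ∀ m : ℤ, con k N K (Finsupp.single w₁ m) = m • NW := by
    intro m
    rw [hNW, ← map_zsmul, Finsupp.smul_single]
    simp
  have hcommD : ∀ D, act hΨ (act (semi_gal (k := k) τ) D) = act (semi_gal (k := k) τ) (act hΨ D) :=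
    fun D => act_comm hΨ τ hcomm D
  -- the group of invariant divisors
  let 𝒟 : AddSubgroup (Place k K →₀ ℤ) :=
    { carrier := {D | act hΨ D = D}
      add_mem' := by
        intro a b ha hb
        rw [Set.mem_setOf_eq] at ha hb ⊢
        rw [map_add, ha, hb]
      zero_mem' := by rw [Set.mem_setOf_eq, map_zero]
      neg_mem' := by
        intro a ha
        rw [Set.mem_setOf_eq] at ha ⊢
        rw [map_neg, ha] }
  let P : AddSubgroup 𝒟 :=
    { carrier := {D | ∃ f : K, f ≠ 0 ∧ ∃ j : ℤ, (D : Place k K →₀ ℤ) = divisor k f + j • NW}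
      add_mem' := by
        rintro a b ⟨f, hf, j, hj⟩ ⟨f', hf', j', hj'⟩
        refine ⟨f * f', mul_ne_zero hf hf', j + j', ?_⟩
        rw [AddSubgroup.coe_add, hj, hj', divisor_mul hf hf', add_smul]
        abel
      zero_mem' := ⟨1, one_ne_zero, 0, by rw [divisor_one]; simp⟩
      neg_mem' := by
        rintro a ⟨f, hf, j, hj⟩
        refine ⟨f⁻¹, inv_ne_zero hf, -j, ?_⟩
        rw [AddSubgroup.coe_neg, hj, divisor_inv, neg_smul]
        abel }
  let degA : 𝒟 →+ ℤ := (ddegHom k K).comp 𝒟.subtype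
  have hdegA : ∀ D : 𝒟, degA D = ddeg (D : Place k K →₀ ℤ) := fun D => rfl
  let δ : 𝒟 →+ 𝒟 :=
    { toFun := fun D => ⟨act (semi_gal (k := k) τ) D - D, by
        show act hΨ _ = _
        rw [map_sub, hcommD, show act hΨ (D : Place k K →₀ ℤ) = D from D.2]⟩
      map_zero' := by
        apply Subtype.ext
        show act (semi_gal (k := k) τ) (0 : Place k K →₀ ℤ) - 0 = 0
        rw [map_zero, sub_zero]
      map_add' := by
        intro a b
        apply Subtype.ext
        show act (semi_gal (k := k) τ) ((a : Place k K →₀ ℤ) + b) - (a + b) =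
          (act (semi_gal (k := k) τ) (a : Place k K →₀ ℤ) - a) +
            (act (semi_gal (k := k) τ) (b : Place k K →₀ ℤ) - b)
        rw [map_add]
        abel }
  have hδ : ∀ D : 𝒟, (δ D : Place k K →₀ ℤ) = act (semi_gal (k := k) τ) D - D := fun D => rfl
  have hδP : ∀ a ∈ P, δ a ∈ P := by
    rintro a ⟨f, hf, j, hj⟩
    have hτf : τ f ≠ 0 := by simpa using hf
    refine ⟨τ f * f⁻¹, mul_ne_zero hτf (inv_ne_zero hf), 0, ?_⟩
    rw [hδ, hj, map_add, map_zsmul, hNW, con_act_gal hunr, divisor_gal,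
      divisor_mul hτf (inv_ne_zero hf), divisor_inv, zero_smul]
    abel
  let W₁' : 𝒟 := ⟨Finsupp.single W₁ 1, act_single_fix hΨ hW₁ 1⟩
  have hW₁' : degA W₁' = 1 := by
    rw [hdegA]
    show ddeg (Finsupp.single W₁ (1 : ℤ)) = 1
    rw [ddeg_single, deg_one]; norm_num
  have hdeg0 : ∀ a, degA (δ a) = 0 := by
    intro a
    rw [hdegA, hδ, ddeg_sub, ddeg_act, sub_self]
  have hdegP : ∀ a ∈ P, (n : ℤ) ∣ degA a := by
    rintro a ⟨f, hf, j, hj⟩
    rw [hdegA, hj, ddeg_add, ddeg_divisor, zero_add]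
    rw [ddeg_zsmul, hNWdeg]
    exact Dvd.intro_left _ rfl
  have hxK : Transcendental k (algebraMap N K x) := by
    rw [transcendental_algebraMap_iff (algebraMap N K).injective]; exact hx
  have hfinA : Finite (𝒟 ⧸ P) := by
    obtain ⟨CK, hCK⟩ := cls_fin hΨ hσ hxK (by rw [hc, hxΨ]) hW₁
    refine finite_of_bound (n * CK) fun T => ?_
    by_contra hT
    push Not at hT
    have h1 : (Finset.univ : Finset (ZMod n)).card * CK < T.card := by
      rwa [Finset.card_univ, ZMod.card]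
    obtain ⟨y, -, hy⟩ := Finset.exists_lt_card_fiber_of_mul_lt_card_of_maps_to
      (f := fun q : 𝒟 ⧸ P => ((degA q.out : ℤ) : ZMod n)) (fun _ _ => Finset.mem_univ _) h1
    obtain ⟨q, hq, q', hq', hne, z, hz, hzz⟩ := pig hCK _
      (fun q : 𝒟 ⧸ P => (q.out : Place k K →₀ ℤ) - Finsupp.single W₁ (degA q.out % n) -
        (degA q.out / n) • NW) (by
          intro q hq
          have h2 : act hΨ (q.out : Place k K →₀ ℤ) = q.out := q.out.2
          refine ⟨?_, 1, one_ne_zero, ?_⟩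
          · have h3 : ddeg ((degA q.out / n) • NW) = (degA q.out / n) * ddeg NW :=
              ddeg_zsmul _ _
            rw [ddeg_sub, ddeg_sub, h3, hNWdeg, ddeg_single, deg_one, ← hdegA]
            have := Int.emod_add_mul_ediv (degA q.out) n
            push_cast
            linarith
          · rw [map_sub, map_sub, map_zsmul, h2, hNWΨ, act_single_fix hΨ hW₁, sub_self,
              divisor_one]) hy
    rw [Finset.mem_filter] at hq hq'
    apply hne
    have h3 : degA q.out % n = degA q'.out % n := by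
      rw [← ZMod.intCast_eq_intCast_iff']
      rw [hq.2, hq'.2]
    have h4 : q.out - q'.out ∈ P := by
      refine ⟨z, hz, degA q.out / n - degA q'.out / n, ?_⟩
      rw [AddSubgroup.coe_sub, ← hzz, h3, sub_smul]
      abel
    have h5 := (QuotientAddGroup.eq_zero_iff _).2 h4
    rw [QuotientAddGroup.mk_sub, sub_eq_zero] at h5
    have h6 : ∀ q : 𝒟 ⧸ P, (QuotientAddGroup.mk q.out : 𝒟 ⧸ P) = q :=
      fun q => QuotientAddGroup.out_eq' _
    rw [h6, h6] at h5
    exact h5
  obtain ⟨f, hf1, hf2⟩ := grp P δ hδP n hn degA W₁' hW₁' hdeg0 hdegP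
  by_contra hlt
  push Not at hlt
  -- the functions `g i` and the constants `c i`
  have key : ∀ i : Fin n, ∃ (g : K) (c : k), g ≠ 0 ∧ Ψ g = g ∧
      act (semi_gal (k := k) τ) (f i : Place k K →₀ ℤ) - f i = divisor k g ∧ c ∈ S ∧
      Algebra.norm N g = algebraMap k N c := by
    intro i
    obtain ⟨g, hg0, j, hj⟩ := hf1 i
    rw [hδ] at hj
    have hj0 : j = 0 := by
      have h1 := congrArg ddeg hj
      have h2 : ddeg (j • NW) = j * ddeg NW := ddeg_zsmul _ _
      rw [ddeg_sub, ddeg_act, sub_self, ddeg_add, ddeg_divisor, zero_add, h2, hNWdeg] at h1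
      rcases mul_eq_zero.1 h1.symm with h3 | h3
      · exact h3
      · exact absurd (by exact_mod_cast h3) hn.ne'
    rw [hj0, zero_smul, add_zero] at hj
    have hΨg0 : Ψ g ≠ 0 := by simpa using hg0
    have hfi : act hΨ (f i : Place k K →₀ ℤ) = f i := (f i).2
    have h1 : divisor k (Ψ g) = divisor k g := by
      rw [← act_divisor hΨ, ← hj, map_sub, hcommD, hfi]
    obtain ⟨b, hb0, hb⟩ := divisor_injective hΨg0 hg0 h1
    obtain ⟨a, ha0, ha⟩ := hL b⁻¹ (inv_ne_zero hb0)
    set g' := algebraMap k K a * g with hg'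
    have ha0' : algebraMap k K a ≠ 0 := (map_ne_zero_iff _ (algebraMap k K).injective).2 ha0
    have hg'0 : g' ≠ 0 := mul_ne_zero ha0' hg0
    have hg'Ψ : Ψ g' = g' := by
      rw [hg', map_mul, hΨ, hb, ha, map_mul, map_inv₀]
      have : algebraMap k K b ≠ 0 := (map_ne_zero_iff _ (algebraMap k K).injective).2 hb0
      field_simp
    have hg'd : divisor k g' = divisor k g := by
      ext W
      rw [divisor_apply, divisor_apply, hg', W.ord_mul ha0' hg0, W.ord_const ha0, zero_add]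
    have hprod : algebraMap N K (Algebra.norm N g') = ∏ s : K ≃ₐ[N] K, s g' :=
      Algebra.norm_eq_prod_automorphisms N g'
    have hnorm0 : Algebra.norm N g' ≠ 0 := Algebra.norm_ne_zero_iff.2 hg'0
    have hd0 : divisor k (algebraMap N K (Algebra.norm N g')) = 0 := by
      rw [hprod, divisor_prod _ _ (fun s _ => by simpa using hg'0)]
      have h2 : ∀ s : K ≃ₐ[N] K, divisor k (s g') =
          act (semi_gal (k := k) (s * τ)) (f i : Place k K →₀ ℤ) -
            act (semi_gal (k := k) s) (f i : Place k K →₀ ℤ) := by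
        intro s
        rw [← divisor_gal, hg'd, ← hj, map_sub, act_mul]
      rw [Finset.sum_congr rfl fun s _ => h2 s, Finset.sum_sub_distrib, sub_eq_zero]
      exact Fintype.sum_equiv (Equiv.mulRight τ) _ _ fun s => rfl
    obtain ⟨c, hc0, hcc⟩ := divisor_eq_zero
      ((map_ne_zero_iff _ (algebraMap N K).injective).2 hnorm0) hd0
    refine ⟨g', c, hg'0, hg'Ψ, by rw [hj, hg'd], hS c hc0 ?_, ?_⟩
    · apply (algebraMap k K).injective
      rw [← hΨ, ← hcc, hprod, map_prod]
      refine Finset.prod_congr rfl fun s _ => ?_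
      rw [comm_all hτ hcomm, hg'Ψ]
    · apply (algebraMap N K).injective
      rw [hcc, IsScalarTower.algebraMap_apply k N K]
  choose g c hg0 hgΨ hgD hcS hgn using key
  have hlt' : S.card * C < (Finset.univ : Finset (Fin n)).card := by simpa using hlt
  obtain ⟨c₀, hc₀, hcard⟩ := Finset.exists_lt_card_fiber_of_mul_lt_card_of_maps_to
    (f := c) (fun i _ => hcS i) hlt'
  set I := Finset.univ.filter (fun i => c i = c₀) with hI
  have hIne : I.Nonempty := Finset.card_pos.1 (by omega)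
  obtain ⟨i₀, hi₀⟩ := hIne
  have hi₀' : c i₀ = c₀ := (Finset.mem_filter.1 hi₀).2
  haveI : IsCyclic (K ≃ₐ[N] K) := ⟨τ, hτ⟩
  have key2 : ∀ i : Fin n, ∃ (y : K) (E : Place k N →₀ ℤ) (u : N), i ∈ I →
      y ≠ 0 ∧ u ≠ 0 ∧ con k N K E = (f i : Place k K →₀ ℤ) - f i₀ + divisor k y ∧
        act hΨ0 E - E = divisor k u := by
    intro i
    by_cases hi : i ∈ I
    swap
    · exact ⟨0, 0, 0, fun h => absurd h hi⟩
    have hi' : c i = c₀ := (Finset.mem_filter.1 hi).2
    have hn1 : Algebra.norm N (g i * (g i₀)⁻¹) = 1 := by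
      rw [map_mul, Algebra.norm_inv, hgn, hgn, hi', hi₀']
      refine mul_inv_cancel₀ ?_
      rw [← hi₀', ← hgn]
      exact Algebra.norm_ne_zero_iff.2 (hg0 i₀)
    obtain ⟨y, hy⟩ := groupCohomology.exists_div_of_norm_eq_one hτ hn1
    have hy0 : (y : K) ≠ 0 := y.ne_zero
    have hτy0 : τ (y : K) ≠ 0 := by simpa using hy0
    set D : Place k K →₀ ℤ := (f i : Place k K →₀ ℤ) - f i₀ + divisor k (y : K) with hD
    have hdy : divisor k (y : K) - divisor k (τ (y : K)) = divisor k (g i) - divisor k (g i₀) := by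
      have h1 : (y : K) * (τ (y : K))⁻¹ = g i * (g i₀)⁻¹ := by
        rw [← hy]; exact (div_eq_mul_inv _ _).symm
      have h2 := congrArg (divisor k) h1
      rw [divisor_mul hy0 (inv_ne_zero hτy0), divisor_inv, divisor_mul (hg0 i)
        (inv_ne_zero (hg0 i₀)), divisor_inv] at h2
      rw [sub_eq_add_neg, sub_eq_add_neg]
      exact h2
    have hDτ : act (semi_gal (k := k) τ) D = D := by
      have e1 : act (semi_gal (k := k) τ) (f i : Place k K →₀ ℤ) = f i + divisor k (g i) := by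
        rw [← hgD]; abel
      have e2 : act (semi_gal (k := k) τ) (f i₀ : Place k K →₀ ℤ) = f i₀ + divisor k (g i₀) := by
        rw [← hgD]; abel
      have e3 : divisor k (τ (y : K)) = divisor k (y : K) - (divisor k (g i) - divisor k (g i₀)) := by
        rw [← hdy]; abel
      rw [hD, map_add, map_sub, e1, e2, divisor_gal, e3]
      abel
    obtain ⟨E, hE⟩ := con_surj hunr D (inv_all hτ hDτ)
    have hv : τ (Ψ y * (y : K)⁻¹) = Ψ y * (y : K)⁻¹ := by
      have h1 : τ (y : K) = y * (g i₀ * (g i)⁻¹) := by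
        have h2 : (y : K) = g i * (g i₀)⁻¹ * τ (y : K) := by
          rw [← hy]; field_simp
        have h3 := hg0 i
        have h4 := hg0 i₀
        calc τ (y : K) = (g i * (g i₀)⁻¹ * τ (y : K)) * (g i₀ * (g i)⁻¹) := by field_simp
          _ = _ := by rw [← h2]
      rw [map_mul, map_inv₀, ← hcomm, h1, map_mul, map_mul, map_inv₀, hgΨ, hgΨ]
      have h3 := hg0 i
      have h4 := hg0 i₀
      field_simp
    obtain ⟨u, hu⟩ := fixed_all hτ hv
    have hΨy0 : Ψ (y : K) ≠ 0 := by simpa using hy0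
    have hu0 : u ≠ 0 := by
      rintro rfl
      rw [map_zero] at hu
      exact mul_ne_zero hΨy0 (inv_ne_zero hy0) hu.symm
    refine ⟨y, E, u, fun _ => ⟨hy0, hu0, hE, ?_⟩⟩
    apply con_inj hunr
    have hfi : act hΨ (f i : Place k K →₀ ℤ) = f i := (f i).2
    have hfi₀ : act hΨ (f i₀ : Place k K →₀ ℤ) = f i₀ := (f i₀).2
    rw [map_sub, ← con_act hunr hΨ hΨ0 hc, hE, con_divisor, hu, hD, map_add, map_sub, hfi, hfi₀,
      act_divisor, divisor_mul hΨy0 (inv_ne_zero hy0), divisor_inv]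
    abel
  choose y E u hkey using key2
  obtain ⟨i, hi, j, hj, hij, z, hz0, hz⟩ := pig hC I
    (fun i => E i - Finsupp.single w₁ (ddeg (E i))) (by
      intro i hi
      obtain ⟨h1, h2, h3, h4⟩ := hkey i hi
      refine ⟨?_, u i, h2, ?_⟩
      · rw [ddeg_sub, ddeg_single, deg_one]; push_cast; ring
      · rw [map_sub, act_single_fix hΨ0 hw₁Ψ, ← h4]
        abel) hcard
  obtain ⟨h1, h2, h3, h4⟩ := hkey i hi
  obtain ⟨h1', h2', h3', h4'⟩ := hkey j hj
  apply hf2 i j hij
  have hz0' : algebraMap N K z ≠ 0 := (map_ne_zero_iff _ (algebraMap N K).injective).2 hz0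
  refine ⟨algebraMap N K z * y j * (y i)⁻¹, mul_ne_zero (mul_ne_zero hz0' h1') (inv_ne_zero h1),
    ddeg (E i) - ddeg (E j), ?_⟩
  have e1 := congrArg (con k N K) hz
  rw [map_sub, map_sub, map_sub, hNWm, hNWm, h3, h3', con_divisor] at e1
  rw [divisor_mul (mul_ne_zero hz0' h1') (inv_ne_zero h1), divisor_mul hz0' h1', divisor_inv,
    AddSubgroup.coe_sub, ← e1, sub_smul]
  abel

end

end Pool.Agent.R925.Q
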