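import Pool.Agent.R925.Q.HB2

/-! The Herbrand bound for Kummer extensions. -/

set_option autoImplicit false
set_option linter.all false

open Module Pool.Agent.H525R3.FFp Pool.Agent.W132.AG Polynomial
open FF (Place IsFF Over)

namespace Pool.Agent.R925.Q

/-- a place with a finite orbit -/
theorem exists_fix_place {k K : Type} [Field k] [IsAlgClosed k] [Field K] [Algebra k K] [IsFF k K]
    {ψ : K ≃+* K} {σ : k ≃+* k} (h : Semi ψ σ) (hσ : ∀ c : k, ∃ m : ℕ, 0 < m ∧ (σ ^ m) c = c)
    {x : K} (hx : Transcendental k x) (hψx : ψ x = x) :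
    ∃ r : ℕ, 0 < r ∧ ∃ W : Place k K, (pullE h ^ r) W = W := by
  classical
  have hψj : ∀ j, (ψ ^ j) x = x := by
    intro j
    induction j with
    | zero => rfl
    | succ j ih =>
      rw [pow_succ]
      show (ψ ^ j) (ψ x) = x
      rw [hψx, ih]
  obtain ⟨W, -⟩ := exists_place (k := k) (K := K)
  have key : ∀ (m : ℕ) (y : K), 0 < m → (ψ ^ m) y = y → W.ord y ≠ 0 →
      ∃ r : ℕ, 0 < r ∧ ∃ W : Place k K, (pullE h ^ r) W = W := by
    intro m y hm hy hWy
    have hT : ∀ i : ℕ, ((pullE h ^ m) ^ i) W ∈ {P : Place k K | P.ord y ≠ 0} := by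
      intro i
      have h1 : (((ψ ^ m) ^ i)) y = y := by
        induction i with
        | zero => rfl
        | succ i ih =>
          rw [pow_succ]
          show ((ψ ^ m) ^ i) ((ψ ^ m) y) = y
          rw [hy, ih]
      rw [Set.mem_setOf_eq, ← pow_mul, pullE_pow_ord, pow_mul, h1]
      exact hWy
    obtain ⟨a, b, hab, heq⟩ := Set.Finite.exists_lt_map_eq_of_forall_mem hT
      (finite_support (k := k) y)
    refine ⟨m * (b - a), Nat.mul_pos hm (by omega), W, ?_⟩
    rw [pow_mul]
    have h2 : ((pullE h ^ m) ^ b) = ((pullE h ^ m) ^ a) * ((pullE h ^ m) ^ (b - a)) := by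
      rw [← pow_add]; congr 1; omega
    rw [h2, Equiv.Perm.mul_apply] at heq
    exact (((pullE h ^ m) ^ a).injective heq).symm
  by_cases h0 : W.ord x = 0
  · obtain ⟨c, hc⟩ := exists_val W (u := x) (Or.inr h0.ge)
    have hxc : x - algebraMap k K c ≠ 0 := by
      intro hc
      rw [sub_eq_zero] at hc
      rw [hc] at hx
      exact hx (isAlgebraic_algebraMap c)
    obtain ⟨m, hm, hmc⟩ := hσ c
    refine key m (x - algebraMap k K c) hm ?_ (hc.resolve_left hxc).ne'
    rw [map_sub, hψj, h.pow m, hmc]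
  · exact key 1 x one_pos (hψj 1) h0

section
variable {k N K : Type} [Field k] [IsAlgClosed k] [Field N] [Field K] [Algebra k N] [Algebra k K]
  [Algebra N K] [IsScalarTower k N K] [FiniteDimensional N K]

theorem kum_galois {L : ℕ} (hL : (L : k) ≠ 0) {h : K}
    (hgen : IntermediateField.adjoin N {h} = ⊤) {b : N} (hb : h ^ L = algebraMap N K b)
    (h0 : h ≠ 0) : IsGalois N K := by
  classical
  haveI : NeZero (L : k) := ⟨hL⟩
  have hLN : (L : N) ≠ 0 := by
    have h1 := (map_ne_zero_iff _ (algebraMap k N).injective).2 hL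
    rwa [map_natCast] at h1
  obtain ⟨ζ, hζ⟩ := HasEnoughRootsOfUnity.exists_primitiveRoot k L
  have hζK : IsPrimitiveRoot (algebraMap k K ζ) L := hζ.map_of_injective (algebraMap k K).injective
  have hb0 : b ≠ 0 := by
    rintro rfl
    rw [map_zero] at hb
    exact pow_ne_zero _ h0 hb
  haveI : (X ^ L - C b : N[X]).IsSplittingField N K := by
    constructor
    · rw [Polynomial.map_sub, Polynomial.map_pow, map_X, map_C]
      exact X_pow_sub_C_splits_of_isPrimitiveRoot hζK hb
    · have h1 : Algebra.adjoin N {h} = ⊤ := by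
        rw [← IntermediateField.adjoin_simple_toSubalgebra_of_isAlgebraic
          (Algebra.IsAlgebraic.isAlgebraic h), hgen, IntermediateField.top_toSubalgebra]
      rw [eq_top_iff, ← h1]
      apply Algebra.adjoin_mono
      rw [Set.singleton_subset_iff, mem_rootSet]
      refine ⟨X_pow_sub_C_ne_zero (Nat.pos_of_ne_zero (by rintro rfl; simp at hL)) b, ?_⟩
      simp [hb]
  exact IsGalois.of_separable_splitting_field (separable_X_pow_sub_C b hLN hb0)

variable [IsFF k N] [IsFF k K]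

theorem root_const' {y : K} {n : ℕ} (hn : 0 < n) (hy : y ^ n = 1) :
    ∃ c : k, algebraMap k K c = y := by
  have h1 : IsIntegral k y := by
    refine ⟨X ^ n - C 1, monic_X_pow_sub_C 1 hn.ne', ?_⟩
    simp [hy]
  exact minpoly.mem_range_of_degree_eq_one k y
    (IsAlgClosed.degree_eq_one_of_irreducible k (minpoly.irreducible h1))

/-- the character of `h` -/
theorem exists_zeta {L : ℕ} (hL : 0 < L) {h : K} (h0 : h ≠ 0) {b : N}
    (hb : h ^ L = algebraMap N K b) (g : K ≃ₐ[N] K) :
    ∃ c : k, c ≠ 0 ∧ g h = algebraMap k K c * h := by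
  have h1 : (g h / h) ^ L = 1 := by
    rw [div_pow, ← map_pow, hb, g.commutes, div_self]
    rw [← hb]; exact pow_ne_zero _ h0
  obtain ⟨c, hc⟩ := root_const' (k := k) hL h1
  refine ⟨c, ?_, by rw [hc]; field_simp⟩
  rintro rfl
  rw [map_zero] at hc
  have : g h ≠ 0 := by simpa using h0
  exact (div_ne_zero this h0) hc.symm

theorem gal_const (g : K ≃ₐ[N] K) (c : k) : g (algebraMap k K c) = algebraMap k K c := by
  rw [IsScalarTower.algebraMap_apply k N K, g.commutes]

theorem gal_one {h : K} (hgen : IntermediateField.adjoin N {h} = ⊤) {g : K ≃ₐ[N] K}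
    (hg : g h = h) : g = 1 := by
  have h1 : IntermediateField.adjoin N {h} ≤ IntermediateField.fixedField (Subgroup.zpowers g) := by
    rw [IntermediateField.adjoin_simple_le_iff]
    rw [IntermediateField.mem_fixedField_iff]
    intro f hf
    have h2 : Subgroup.zpowers g ≤ MulAction.stabilizer (K ≃ₐ[N] K) h := by
      rw [Subgroup.zpowers_le]
      exact hg
    exact h2 hf
  rw [hgen] at h1
  apply AlgEquiv.ext
  intro z
  have h2 := h1 (IntermediateField.mem_top (x := z))
  rw [IntermediateField.mem_fixedField_iff] at h2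
  exact h2 g (Subgroup.mem_zpowers g)

theorem kum_cyclic [IsGalois N K] {L : ℕ} (hLk : (L : k) ≠ 0) {h : K} (h0 : h ≠ 0) {b : N}
    (hb : h ^ L = algebraMap N K b) (hgen : IntermediateField.adjoin N {h} = ⊤) :
    IsCyclic (K ≃ₐ[N] K) := by
  have hL : 0 < L := Nat.pos_of_ne_zero (by rintro rfl; simp at hLk)
  have hmul : ∀ g g' : K ≃ₐ[N] K, (g * g') h / h = (g h / h) * (g' h / h) := by
    intro g g'
    obtain ⟨c, hc0, hc⟩ := exists_zeta (k := k) hL h0 hb g'
    rw [AlgEquiv.mul_apply, hc, map_mul, gal_const]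
    field_simp
  let f : (K ≃ₐ[N] K) →* K :=
    { toFun := fun g => g h / h
      map_one' := div_self h0
      map_mul' := hmul }
  refine isCyclic_of_subgroup_isDomain f ?_
  intro g g' hgg
  have h1 : g h / h = g' h / h := hgg
  have h2 : g h = g' h := by
    field_simp at h1
    exact h1
  have h3 : (g'⁻¹ * g) h = h := by
    rw [AlgEquiv.mul_apply, h2]
    exact g'.symm_apply_apply h
  have h4 := gal_one hgen h3
  rw [inv_mul_eq_one] at h4
  exact h4.symm

/-- Kummer extensions by functions whose divisor is divisible are unramified -/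
theorem kum_unr [IsGalois N K] {L : ℕ} (hL : 0 < L) {h : K} (h0 : h ≠ 0) {b : N}
    (hb : h ^ L = algebraMap N K b) (hgen : IntermediateField.adjoin N {h} = ⊤)
    (hdiv : ∀ w : Place k N, (L : ℤ) ∣ w.ord b) (W : Place k K) : eI N W = 1 := by
  classical
  set w := und N W with hw
  have hov := over_und (F := N) W
  rw [← hw] at hov
  have hb0 : b ≠ 0 := by
    rintro rfl
    rw [map_zero] at hb
    exact pow_ne_zero _ h0 hb
  obtain ⟨t, ht0, ht⟩ := w.surj
  obtain ⟨m, hm⟩ := hdiv w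
  have htK : algebraMap N K t ≠ 0 := (map_ne_zero_iff _ (algebraMap N K).injective).2 ht0
  set y : K := h / algebraMap N K (t ^ m) with hy
  have htm : algebraMap N K (t ^ m) ≠ 0 :=
    (map_ne_zero_iff _ (algebraMap N K).injective).2 (zpow_ne_zero _ ht0)
  have hy0 : y ≠ 0 := div_ne_zero h0 htm
  have hord : W.ord y = 0 := by
    have h1 : y ^ L = algebraMap N K (b / (t ^ m) ^ L) := by
      rw [hy, div_pow, hb, map_div₀, map_pow]
    have h2 : w.ord (b / (t ^ m) ^ L) = 0 := by
      rw [w.ord_div hb0 (pow_ne_zero _ (zpow_ne_zero _ ht0)), w.ord_pow, w.ord_zpow, ht, hm]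
      ring
    have h3 : W.ord (y ^ L) = 0 := by
      rw [h1, hov.2, h2, mul_zero]
    rw [W.ord_pow] at h3
    rcases mul_eq_zero.1 h3 with h4 | h4
    · exact absurd (by exact_mod_cast h4) hL.ne'
    · exact h4
  obtain ⟨c, hc⟩ := exists_val W (u := y) (Or.inr hord.ge)
  have stab : ∀ g : K ≃ₐ[N] K, (∀ z, W.ord (g z) = W.ord z) → g = 1 := by
    intro g hg
    obtain ⟨ζ, hζ0, hζ⟩ := exists_zeta (k := k) hL h0 hb g
    have hgy : g y = algebraMap k K ζ * y := by
      rw [hy, map_div₀, g.commutes, hζ, mul_div_assoc]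
    apply gal_one hgen
    by_contra hne
    have hζ1 : ζ - 1 ≠ 0 := by
      intro h1
      rw [sub_eq_zero] at h1
      rw [h1, map_one, one_mul] at hζ
      exact hne hζ
    have h1 : g y - y = algebraMap k K (ζ - 1) * y := by
      rw [hgy, map_sub, map_one]; ring
    have h2 : algebraMap k K (ζ - 1) ≠ 0 := (map_ne_zero_iff _ (algebraMap k K).injective).2 hζ1
    have h3 : W.ord (g y - y) = 0 := by
      rw [h1, W.ord_mul h2 hy0, W.ord_const hζ1, hord, add_zero]
    have h4 : g y - y ≠ 0 := by rw [h1]; exact mul_ne_zero h2 hy0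
    have h5 : g y - y = g (y - algebraMap k K c) - (y - algebraMap k K c) := by
      rw [map_sub, gal_const]; ring
    rcases hc with hc | hc
    · rw [h5, hc, map_zero, sub_zero] at h4
      exact h4 rfl
    · have hyc : y - algebraMap k K c ≠ 0 := by
        intro h6
        rw [h6, map_zero] at h5
        exact h4 (by rw [h5, sub_zero])
      have h6 := W.ord_sub (f := g (y - algebraMap k K c)) (g := y - algebraMap k K c)
        ((map_ne_zero_iff _ g.injective).2 hyc) hyc (by rw [← h5]; exact h4)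
      rw [← h5, h3, hg, min_self] at h6
      omega
  -- the orbit of `W`
  have hinj : Function.Injective fun g : K ≃ₐ[N] K => pullE (semi_gal (k := k) g) W := by
    intro g g' hgg
    have h1 : ∀ z, W.ord (g z) = W.ord (g' z) := by
      intro z
      have := congrArg (fun P : Place k K => P.ord z) hgg
      exact this
    have h2 : g * g'⁻¹ = 1 := by
      apply stab
      intro z
      rw [AlgEquiv.mul_apply, h1]
      congr 1
      exact g'.apply_symm_apply z
    rwa [mul_inv_eq_one] at h2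
  have hcard : Fintype.card (K ≃ₐ[N] K) ≤ (fibS K w).card := by
    rw [← Finset.card_univ, ← Finset.card_image_of_injective _ hinj]
    apply Finset.card_le_card
    intro P hP
    obtain ⟨g, -, rfl⟩ := Finset.mem_image.1 hP
    rw [mem_fibS]
    show und N (pullE (semi_gal (k := k) g) W) = w
    rw [und_pull]
  have hsum := sum_fibS (E := K) w
  rw [deg_one w, mul_one] at hsum
  have hpos : ∀ P ∈ fibS K w, 1 ≤ eI N P * P.deg := by
    intro P _
    rw [deg_one, mul_one]
    exact (over_und (F := N) P).1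
  have hfr : finrank N K = Fintype.card (K ≃ₐ[N] K) := by
    rw [← Nat.card_eq_fintype_card, IsGalois.card_aut_eq_finrank]
  by_contra hne
  have hWm : W ∈ fibS K w := mem_fibS.2 rfl
  have hlt : ∑ P ∈ fibS K w, 1 < ∑ P ∈ fibS K w, eI N P * P.deg := by
    refine Finset.sum_lt_sum hpos ⟨W, hWm, ?_⟩
    have := hpos W hWm
    rw [deg_one, mul_one] at this ⊢
    omega
  rw [hsum, ← Finset.card_eq_sum_ones, hfr] at hlt
  omega

variable {σ : k ≃+* k} {Ψ : K ≃+* K} {Ψ0 : N ≃+* N}

/-- **the bound for Kummer extensions** -/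
theorem kum_bound {L Q : ℕ} (hL : (L : k) ≠ 0) {h : K} (h0 : h ≠ 0) {b : N}
    (hb : h ^ L = algebraMap N K b) (hgen : IntermediateField.adjoin N {h} = ⊤)
    (hdiv : ∀ w : Place k N, (L : ℤ) ∣ w.ord b)
    (hΨ : Semi Ψ σ) (hΨ0 : Semi Ψ0 σ) (hc : ∀ z : N, Ψ (algebraMap N K z) = algebraMap N K (Ψ0 z))
    (hQ : 1 < Q) (hσQ : ∀ c : k, σ c = c ^ Q) (u : N) (hΨh : Ψ h = algebraMap N K u * h ^ Q)
    (hσ : ∀ j : ℕ, 0 < j → {c : k | (σ ^ j) c = c}.Finite)
    (S : Finset k) (hS : ∀ c : k, c ≠ 0 → σ c = c → c ∈ S)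
    {x : N} (hx : Transcendental k x) (hxΨ : Ψ0 x = x)
    {w₀ : Place k N} (hw₀ : pullE hΨ0 w₀ = w₀)
    (C : ℕ) (hC : ∀ T : Finset (Place k N →₀ ℤ),
      (∀ D ∈ T, ddeg D = 0 ∧ ∃ u : N, u ≠ 0 ∧ act hΨ0 D - D = divisor k u) → C < T.card →
      ∃ D ∈ T, ∃ D' ∈ T, D ≠ D' ∧ ∃ z : N, z ≠ 0 ∧ D - D' = divisor k z) :
    finrank N K ≤ S.card * C := by
  haveI := kum_galois hL hgen hb h0
  have hL0 : 0 < L := Nat.pos_of_ne_zero (by rintro rfl; simp at hL)
  have hunr := kum_unr hL0 h0 hb hgen hdiv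
  obtain ⟨τ, hτ⟩ := kum_cyclic (k := k) hL h0 hb hgen
  obtain ⟨W, hW⟩ := exists_above (K := K) w₀
  obtain ⟨g, hg⟩ := trans_places (pullE hΨ W) W (by
    rw [und_pull_semi hΨ hΨ0 hc, hW, hw₀])
  let Ψ' : K ≃+* K := (g : K ≃+* K).trans Ψ
  have hΨ'a : ∀ z, Ψ' z = Ψ (g z) := fun z => rfl
  have hΨ' : Semi Ψ' σ := by
    intro c
    rw [hΨ'a, gal_const, hΨ]
  have hW' : pullE hΨ' W = W := by
    conv_rhs => rw [← hg]
    apply FF.Place.ext
    funext z
    rw [pullE_ord, pullE_ord, pullE_ord]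
    rfl
  have hc' : ∀ z : N, Ψ' (algebraMap N K z) = algebraMap N K (Ψ0 z) := by
    intro z
    rw [hΨ'a, g.commutes, hc]
  obtain ⟨ζ, hζ0, hζ⟩ := exists_zeta (k := k) hL0 h0 hb g
  obtain ⟨ξ, hξ0, hξ⟩ := exists_zeta (k := k) hL0 h0 hb τ
  have hΨ'h : Ψ' h = algebraMap k K (ζ ^ Q) * (algebraMap N K u * h ^ Q) := by
    rw [hΨ'a, hζ, map_mul, hΨ, hσQ, hΨh]
  have hcomm : ∀ z, Ψ' (τ z) = τ (Ψ' z) := by
    let E : IntermediateField N K := (RingHom.eqLocusField ((Ψ' : K →+* K).comp (τ : K →+* K))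
      ((τ : K →+* K).comp (Ψ' : K →+* K))).toIntermediateField (by
        intro z
        show Ψ' (τ (algebraMap N K z)) = τ (Ψ' (algebraMap N K z))
        rw [τ.commutes, hc', τ.commutes])
    have h1 : IntermediateField.adjoin N {h} ≤ E := by
      rw [IntermediateField.adjoin_simple_le_iff]
      show Ψ' (τ h) = τ (Ψ' h)
      rw [hξ, map_mul Ψ', hΨ', hσQ, hΨ'h, map_mul τ, map_mul τ, map_pow τ h, gal_const,
        τ.commutes, hξ, mul_pow, map_pow (algebraMap k K) ξ]
      ring
    rw [hgen] at h1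
    intro z
    exact h1 (IntermediateField.mem_top (x := z))
  refine Pool.Agent.R925.Q.hb hτ hunr hΨ' hΨ0 hc' hcomm hσ ?_ S hS hx hxΨ hW' C hC
  intro b hb0
  obtain ⟨a, ha⟩ := IsAlgClosed.exists_pow_nat_eq b (n := Q - 1) (by omega)
  have ha0 : a ≠ 0 := by
    rintro rfl
    rw [zero_pow (by omega)] at ha
    exact hb0 ha.symm
  refine ⟨a, ha0, ?_⟩
  rw [hσQ, ← ha, ← pow_succ]
  congr 1
  omega

end

end Pool.Agent.R925.Q
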