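import Pool.Agent.R925.Q.Kum

/-! Kummer extensions: consequences of the bound on the degree. -/

set_option autoImplicit false
set_option linter.all false

open Module Pool.Agent.H525R3.FFp Pool.Agent.W132.AG Polynomial
open FF (Place IsFF Over)

namespace Pool.Agent.R925.Q

theorem isFF_ext (k N K : Type) [Field k] [Field N] [Field K] [Algebra k N] [Algebra k K]
    [Algebra N K] [IsScalarTower k N K] [FiniteDimensional N K] [h : IsFF k N] : IsFF k K := by
  have h1 := h.ess
  constructor
  · exact Algebra.EssFiniteType.comp k N K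
  · rw [← _root_.trdeg_add_eq k N (A := K), h.trdeg,
      _root_.trdeg_eq_zero_iff.2 (inferInstance : Algebra.IsAlgebraic N K), add_zero]

section
variable {k N K : Type} [Field k] [IsAlgClosed k] [Field N] [Field K] [Algebra k N] [Algebra k K]
  [Algebra N K] [IsScalarTower k N K] [FiniteDimensional N K] [IsFF k N] [IsFF k K]

/-- a generator of a Kummer extension of degree at most `B` -/
theorem kum_pow {ℓ n B : ℕ} (hℓ : ℓ.Prime) (hL : ((ℓ ^ n : ℕ) : k) ≠ 0) {h : K} (h0 : h ≠ 0) {b : N}
    (hb : h ^ (ℓ ^ n) = algebraMap N K b) (hgen : IntermediateField.adjoin N {h} = ⊤)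
    (hB : finrank N K ≤ B) : ∃ z : N, algebraMap N K z = h ^ (ℓ ^ B) := by
  classical
  haveI := kum_galois hL hgen hb h0
  have hL0 : 0 < ℓ ^ n := pow_pos hℓ.pos n
  have h1 : h ^ (ℓ ^ B) ∈ Set.range (algebraMap N K) := by
    rw [IsGalois.mem_range_algebraMap_iff_fixed]
    intro g
    obtain ⟨ζ, hζ0, hζ⟩ := exists_zeta (k := k) hL0 h0 hb g
    have hpow : ∀ i : ℕ, (g ^ i) h = algebraMap k K (ζ ^ i) * h := by
      intro i
      induction i with
      | zero => simp
      | succ i ih =>
        rw [pow_succ', AlgEquiv.mul_apply, ih, map_mul, gal_const, hζ, pow_succ, map_mul]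
        ring
    have hinj : ∀ i : ℕ, (g ^ i) h = h → ζ ^ i = 1 := by
      intro i hi
      rw [hpow] at hi
      have h2 : algebraMap k K (ζ ^ i) = 1 := by
        apply mul_right_cancel₀ h0
        rw [hi, one_mul]
      exact (algebraMap k K).injective (by rw [h2, map_one])
    have hc1 : ζ ^ (finrank N K) = 1 := by
      apply hinj
      have h2 : g ^ (finrank N K) = 1 := by
        rw [← IsGalois.card_aut_eq_finrank]
        exact pow_card_eq_one'
      rw [h2]; rfl
    have hc2 : ζ ^ (ℓ ^ n) = 1 := by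
      have h3 := congrArg g hb
      rw [g.commutes, map_pow, hζ, mul_pow, ← hb] at h3
      have h4 : (algebraMap k K ζ) ^ (ℓ ^ n) = 1 := by
        apply mul_right_cancel₀ (pow_ne_zero (ℓ ^ n) h0)
        rw [h3, one_mul]
      exact (algebraMap k K).injective (by rw [map_pow, h4, map_one])
    obtain ⟨j, hj, hj'⟩ := (Nat.dvd_prime_pow hℓ).1 (orderOf_dvd_of_pow_eq_one hc2)
    have hj1 : ℓ ^ j ≤ B := by
      rw [← hj']
      exact (Nat.le_of_dvd Module.finrank_pos (orderOf_dvd_of_pow_eq_one hc1)).trans hB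
    have hj2 : j ≤ B := (Nat.lt_pow_self hℓ.one_lt).le.trans hj1
    have hc3 : ζ ^ (ℓ ^ B) = 1 := by
      rw [← orderOf_dvd_iff_pow_eq_one, hj']
      exact pow_dvd_pow _ hj2
    rw [map_pow, hζ, mul_pow, ← map_pow, hc3, map_one, one_mul]
  exact h1

end

end Pool.Agent.R925.Q
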