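import Pool.Agent.R925.Q.FIXQ
import Pool.Agent.Y705.PS.SURJ
import Pool.Agent.Y748.PS.WGT

/-! An automorphism of `M` over `κ(x, Y)` which commutes with a lift of Frobenius is trivial. -/

set_option autoImplicit false
set_option linter.all false

open Polynomial FF

namespace Pool.Agent.R925.Q

open Pool.Agent.Y157.PS

def dq {Q : Type} [CommGroup Q] (Φ : Q →* Q) (q : ℕ) : Q →* Q := Φ / powMonoidHom (q - 1)

theorem dq_div {Q : Type} [CommGroup Q] (Φ : Q →* Q) {q : ℕ} (hq : 0 < q) (a : Q) :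
    dq Φ q a / a = Φ a / a ^ q := by
  show Φ a / a ^ (q - 1) / a = Φ a / a ^ q
  rw [div_div, ← pow_succ, Nat.sub_add_cancel hq]

theorem surjq (ℓ : ℕ) [Fact ℓ.Prime] (M : Type) [Field M] (N : Subfield M) (φ : M ≃+* M) (q : ℕ)
    (hq : 0 < q) (hφ : ∀ z, φ z ∈ N ↔ z ∈ N)
    (hdiv : ∀ (h : M) (n : ℕ), h ≠ 0 → h ^ (ℓ ^ n) ∈ N → ∃ z ∈ N, ∃ g : M, z ≠ 0 ∧ h = z * g ^ ℓ)
    (h1 : FinCls N (fun h => h ^ ℓ ∈ N))
    (h2 : ∃ m : ℕ, ∀ h : M, h ≠ 0 → (∃ n : ℕ, h ^ (ℓ ^ n) ∈ N) → φ h / h ^ q ∈ N →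
      h ^ (ℓ ^ m) ∈ N) (h : M) (n : ℕ) (h0 : h ≠ 0) (hn : h ^ (ℓ ^ n) ∈ N) :
    ∃ (g : M) (m : ℕ) (w : M), g ≠ 0 ∧ g ^ (ℓ ^ m) ∈ N ∧ w ∈ N ∧ h = φ g / g ^ q * w := by
  classical
  open Pool.Agent.Y705.PS in
  have hle : NU N ≤ (NU N).comap (Units.map (φ : M →* M)) := by
    intro u hu
    rw [Subgroup.mem_comap, mem_NU]
    exact (hφ _).mpr hu
  open Pool.Agent.Y705.PS in
  let Φ : Mˣ ⧸ NU N →* Mˣ ⧸ NU N := QuotientGroup.map _ _ (Units.map (φ : M →* M)) hle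
  open Pool.Agent.Y705.PS in
  let Φ' : Mˣ ⧸ NU N →* Mˣ ⧸ NU N := dq (Q := Mˣ ⧸ NU N) Φ q
  open Pool.Agent.Y705.PS in
  have hΦ : ∀ u : Mˣ, Φ (u : Mˣ ⧸ NU N) = ((Units.map (φ : M →* M) u : Mˣ) : Mˣ ⧸ NU N) :=
    fun u => rfl
  open Pool.Agent.Y705.PS in
  have hΦq : ∀ a : Mˣ ⧸ NU N, Φ' a / a = Φ a / a ^ q :=
    fun a => dq_div (Q := Mˣ ⧸ NU N) Φ hq a
  open Pool.Agent.Y705.PS in
  have hpow : ∀ (u : Mˣ) (m : ℕ), (u : Mˣ ⧸ NU N) ^ m = 1 ↔ (u : M) ^ m ∈ N := by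
    intro u m
    rw [← QuotientGroup.mk_pow, cl_eq_one, Units.val_pow_eq_pow_val]
  open Pool.Agent.Y705.PS in
  have hdq : ∀ u : Mˣ, Φ (u : Mˣ ⧸ NU N) / (u : Mˣ ⧸ NU N) ^ q = 1 ↔ φ u / (u : M) ^ q ∈ N := by
    intro u
    rw [hΦ, ← QuotientGroup.mk_pow, ← QuotientGroup.mk_div, cl_eq_one, Units.val_div_eq_div_val,
      Units.val_pow_eq_pow_val]
    rfl
  open Pool.Agent.Y705.PS in
  have hd : ∀ (a : Mˣ ⧸ NU N) (k : ℕ), a ^ (ℓ ^ k) = 1 → ∃ b : Mˣ ⧸ NU N, b ^ ℓ = a := by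
    intro a k hk
    obtain ⟨u, rfl⟩ := QuotientGroup.mk_surjective a
    obtain ⟨z, hz, g, hz0, hg⟩ := hdiv u k u.ne_zero ((hpow _ _).mp hk)
    have hg0 : g ≠ 0 := by
      rintro rfl
      rw [zero_pow (Fact.out : ℓ.Prime).ne_zero, mul_zero] at hg
      exact u.ne_zero hg
    refine ⟨(Units.mk0 g hg0 : Mˣ), ?_⟩
    rw [← QuotientGroup.mk_pow]
    rw [← div_eq_one, ← QuotientGroup.mk_div, cl_eq_one, Units.val_div_eq_div_val,
      Units.val_pow_eq_pow_val, Units.val_mk0, hg]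
    have h3 : g ^ ℓ / (z * g ^ ℓ) = z⁻¹ := by
      field_simp
    rw [h3]
    exact N.inv_mem hz
  open Pool.Agent.Y705.PS in
  have ht : {a : Mˣ ⧸ NU N | a ^ ℓ = 1}.Finite := FinCls.finite h1 _ fun u hu =>
    (hpow _ _).mp hu
  open Pool.Agent.Y705.PS in
  have hk : {a : Mˣ ⧸ NU N | (∃ n : ℕ, a ^ (ℓ ^ n) = 1) ∧ Φ' a = a}.Finite := by
    obtain ⟨m, hm⟩ := h2
    refine (tor_finite ht m).subset ?_
    rintro a ⟨⟨k, hk⟩, ha⟩
    obtain ⟨u, rfl⟩ := QuotientGroup.mk_surjective a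
    rw [← div_eq_one, hΦq] at ha
    exact (hpow _ _).mpr (hm u u.ne_zero ⟨k, (hpow _ _).mp hk⟩ ((hdq u).mp ha))
  open Pool.Agent.Y705.PS in
  obtain ⟨b, m, hb, hab⟩ := surj_group Φ' hd ht hk ((Units.mk0 h h0 : Mˣ) : Mˣ ⧸ NU N) n
    ((hpow _ _).mpr hn)
  obtain ⟨g, rfl⟩ := QuotientGroup.mk_surjective b
  refine ⟨g, m, h / (φ g / (g : M) ^ q), g.ne_zero, (hpow _ _).mp hb, ?_, ?_⟩
  · rw [hΦq, hΦ, ← QuotientGroup.mk_pow, ← QuotientGroup.mk_div, ← div_eq_one,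
      ← QuotientGroup.mk_div] at hab
    have h3 := (Pool.Agent.Y705.PS.cl_eq_one).1 hab
    rw [Units.val_div_eq_div_val, Units.val_div_eq_div_val, Units.val_pow_eq_pow_val] at h3
    exact h3
  · have h3 : φ (g : M) / (g : M) ^ q ≠ 0 := div_ne_zero (by simp) (pow_ne_zero _ g.ne_zero)
    rw [mul_div_cancel₀ _ h3]

section

variable {κ R M : Type} [Field κ] [Field R] [Field M] [Algebra κ R] [Algebra R M] [Algebra κ M]
  [IsScalarTower κ R M] {x : R}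

/-- a lift of an automorphism of the constants maps `R` to itself -/
theorem phi_R (hR : RatF κ x) (φ : M ≃+* M) (φ₀ : κ ≃+* κ)
    (hφ : ∀ c, φ (algebraMap κ M c) = algebraMap κ M (φ₀ c))
    (hx : φ (algebraMap R M x) = algebraMap R M x) (z : R) :
    ∃ z' : R, φ (algebraMap R M z) = algebraMap R M z' := by
  have hz : z ∈ IntermediateField.adjoin κ {x} := by rw [hR.gen]; trivial
  induction hz using IntermediateField.adjoin_induction with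
  | mem y hy =>
    rw [Set.mem_singleton_iff] at hy
    subst hy
    exact ⟨y, hx⟩
  | algebraMap c =>
    refine ⟨algebraMap κ R (φ₀ c), ?_⟩
    rw [← IsScalarTower.algebraMap_apply, hφ, ← IsScalarTower.algebraMap_apply]
  | add a b _ _ ha hb =>
    obtain ⟨a', ha⟩ := ha
    obtain ⟨b', hb⟩ := hb
    exact ⟨a' + b', by rw [map_add, map_add, ha, hb, map_add]⟩
  | inv a _ ha =>
    obtain ⟨a', ha⟩ := ha
    exact ⟨a'⁻¹, by rw [map_inv₀, map_inv₀, ha, map_inv₀]⟩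
  | mul a b _ _ ha hb =>
    obtain ⟨a', ha⟩ := ha
    obtain ⟨b', hb⟩ := hb
    exact ⟨a' * b', by rw [map_mul, map_mul, ha, hb, map_mul]⟩

/-- a lift of an automorphism of the constants which fixes `x` -/
structure Lift (κ M : Type) [Field κ] [Field M] [Algebra κ M] (X : M) (φ : M ≃+* M) (φ₀ : κ ≃+* κ) :
    Prop where
  con : ∀ c, φ (algebraMap κ M c) = algebraMap κ M (φ₀ c)
  fix : φ X = X

theorem Lift.symm {X : M} {φ : M ≃+* M} {φ₀ : κ ≃+* κ} (h : Lift κ M X φ φ₀) :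
    Lift κ M X φ.symm φ₀.symm where
  con c := by rw [RingEquiv.symm_apply_eq, h.con, RingEquiv.apply_symm_apply]
  fix := by rw [RingEquiv.symm_apply_eq, h.fix]

/-- conjugation by a lift -/
noncomputable def cj (hR : RatF κ x) {φ : M ≃+* M} {φ₀ : κ ≃+* κ}
    (h : Lift κ M (algebraMap R M x) φ φ₀) (γ : M ≃ₐ[R] M) : M ≃ₐ[R] M :=
  AlgEquiv.ofRingEquiv (f := (φ.trans (γ : M ≃+* M)).trans φ.symm) (by
    intro z
    obtain ⟨z', hz'⟩ := phi_R hR φ φ₀ h.con h.fix z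
    show φ.symm (γ (φ (algebraMap R M z))) = _
    rw [hz', AlgEquiv.commutes, ← hz', RingEquiv.symm_apply_apply])

theorem cj_apply (hR : RatF κ x) {φ : M ≃+* M} {φ₀ : κ ≃+* κ}
    (h : Lift κ M (algebraMap R M x) φ φ₀) (γ : M ≃ₐ[R] M) (z : M) :
    φ (cj hR h γ z) = γ (φ z) := by
  show φ (φ.symm (γ (φ z))) = _
  rw [RingEquiv.apply_symm_apply]

/-- the largest normal subextension on which `δ` acts trivially -/
def LD (δ : M ≃ₐ[R] M) : IntermediateField R M where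
  carrier := {z | ∀ g : M ≃ₐ[R] M, δ (g z) = g z}
  mul_mem' := fun ha hb g => by rw [map_mul, map_mul, ha g, hb g]
  one_mem' := fun g => by rw [map_one, map_one]
  add_mem' := fun ha hb g => by rw [map_add, map_add, ha g, hb g]
  zero_mem' := fun g => by rw [map_zero, map_zero]
  algebraMap_mem' := fun r g => by rw [AlgEquiv.commutes, AlgEquiv.commutes]
  inv_mem' := fun a ha g => by rw [map_inv₀, map_inv₀, ha g]

theorem LD_gal {δ : M ≃ₐ[R] M} {z : M} (hz : z ∈ LD δ) (g : M ≃ₐ[R] M) : g z ∈ LD δ :=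
  fun g' => hz (g' * g)

theorem LD_fix {δ : M ≃ₐ[R] M} {z : M} (hz : z ∈ LD δ) : δ z = z := hz 1

theorem LD_phi (hR : RatF κ x) {φ : M ≃+* M} {φ₀ : κ ≃+* κ}
    (h : Lift κ M (algebraMap R M x) φ φ₀) {δ : M ≃ₐ[R] M} (hδ : ∀ z, δ (φ z) = φ (δ z)) {z : M}
    (hz : z ∈ LD δ) : φ z ∈ LD δ := by
  intro g
  rw [← cj_apply hR h, hδ]
  congr 1
  exact hz _

variable {k : Type} [Field k] [Algebra k κ]

open Pool.Agent.Y748.PS in
/-- a level inside `LD δ`, stable under `φ`, with given elements -/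
theorem exists_levelD {ℓ : ℕ} [Fact ℓ.Prime] [CharZero κ] {B : Finset κ} {Y : M}
    (hk : Algebra.IsAlgebraic k κ) (hC : Cov ℓ κ R M x B Y) {φ : M ≃+* M} {φ₀ : κ ≃ₐ[k] κ}
    (h : Lift κ M (algebraMap R M x) φ (φ₀ : κ ≃+* κ)) {δ : M ≃ₐ[R] M}
    (hδ : ∀ z, δ (φ z) = φ (δ z)) {z₁ z₂ : M} (hz₁ : z₁ ∈ LD δ) (hz₂ : z₂ ∈ LD δ) :
    ∃ N : IntermediateField R M, Lev ℓ N ∧ z₁ ∈ N ∧ z₂ ∈ N ∧ N ≤ LD δ ∧
      ∀ z, φ z ∈ N ↔ z ∈ N := by
  haveI := hC.gal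
  have hR := hC.rat
  haveI : CharZero R := charZero_of_injective_algebraMap (algebraMap κ R).injective
  have hM : Algebra.IsAlgebraic R M := inferInstance
  obtain ⟨T₁, hT₁, hm₁, hs₁⟩ := exists_orbit (k := k) hk hR hM z₁
  obtain ⟨T₂, hT₂, hm₂, hs₂⟩ := exists_orbit (k := k) hk hR hM z₂
  set T : Set M := {w | (w ∈ T₁ ∨ w ∈ T₂) ∧ w ∈ LD δ} with hT
  have hTfin : T.Finite := (hT₁.union hT₂).subset fun w hw => hw.1
  have hTgal : ∀ g : M ≃ₐ[R] M, ∀ w ∈ T, g w ∈ T := by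
    intro g w hw
    have h1 : ∀ c : k, (g : M ≃+* M) (algebraMap κ M (algebraMap k κ c)) =
      algebraMap κ M (algebraMap k κ c) := fun c => Pool.Agent.Y748.PS.gal_const g _
    have h2 : (g : M ≃+* M) (algebraMap R M x) = algebraMap R M x := g.commutes x
    refine ⟨?_, LD_gal hw.2 g⟩
    rcases hw.1 with h | h
    · exact Or.inl (hs₁ (g : M ≃+* M) h1 h2 w h)
    · exact Or.inr (hs₂ (g : M ≃+* M) h1 h2 w h)
  have hTs : ∀ (ψ : M ≃+* M) (ψ₀ : κ ≃ₐ[k] κ), Lift κ M (algebraMap R M x) ψ (ψ₀ : κ ≃+* κ) →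
      (∀ z, δ (ψ z) = ψ (δ z)) → ∀ w ∈ T, ψ w ∈ T := by
    intro ψ ψ₀ hψ hψδ w hw
    have h1 : ∀ c : k, ψ (algebraMap κ M (algebraMap k κ c)) =
      algebraMap κ M (algebraMap k κ c) := fun c => by
        rw [hψ.con]
        congr 1
        exact ψ₀.commutes c
    refine ⟨?_, LD_phi hR hψ hψδ hw.2⟩
    rcases hw.1 with h | h
    · exact Or.inl (hs₁ ψ h1 hψ.fix w h)
    · exact Or.inr (hs₂ ψ h1 hψ.fix w h)
  haveI : Finite T := hTfin
  set N := IntermediateField.adjoin R T with hN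
  haveI hfin : FiniteDimensional R N :=
    IntermediateField.finiteDimensional_adjoin fun w _ => (hM.isAlgebraic w).isIntegral
  have hnorm : Normal R N := by
    rw [IntermediateField.normal_iff_forall_map_le']
    intro g
    rw [hN, IntermediateField.adjoin_map, IntermediateField.adjoin_le_iff]
    rintro _ ⟨w, hw, rfl⟩
    exact IntermediateField.subset_adjoin R T (hTgal g w hw)
  haveI : Algebra.IsSeparable R N := inferInstance
  have hgal : IsGalois R N := ⟨⟩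
  have hNs : ∀ (ψ : M ≃+* M) (ψ₀ : κ ≃ₐ[k] κ), Lift κ M (algebraMap R M x) ψ (ψ₀ : κ ≃+* κ) →
      (∀ z, δ (ψ z) = ψ (δ z)) → ∀ z ∈ N, ψ z ∈ N := by
    intro ψ ψ₀ hψ hψδ z hz
    induction hz using IntermediateField.adjoin_induction with
    | mem y hy => exact IntermediateField.subset_adjoin R T (hTs ψ ψ₀ hψ hψδ y hy)
    | algebraMap c =>
      obtain ⟨c', hc'⟩ := phi_R hR ψ _ hψ.con hψ.fix c
      rw [hc']
      exact N.algebraMap_mem c'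
    | add a b _ _ ha hb => rw [map_add]; exact add_mem ha hb
    | inv a _ ha => rw [map_inv₀]; exact inv_mem ha
    | mul a b _ _ ha hb => rw [map_mul]; exact mul_mem ha hb
  refine ⟨N, lev_of_galois hC.pow N hfin hgal, ?_, ?_, ?_, fun z => ⟨fun h' => ?_, hNs φ φ₀ h hδ z⟩⟩
  · exact IntermediateField.subset_adjoin R T ⟨Or.inl hm₁, hz₁⟩
  · exact IntermediateField.subset_adjoin R T ⟨Or.inr hm₂, hz₂⟩
  · rw [hN, IntermediateField.adjoin_le_iff]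
    exact fun w hw => hw.2
  · have := hNs φ.symm φ₀.symm h.symm (fun z => by
      apply φ.injective
      rw [← hδ, RingEquiv.apply_symm_apply, RingEquiv.apply_symm_apply]) _ h'
    rwa [RingEquiv.symm_apply_apply] at this

end

/-- **rigidity** -/
def S_RIG : Prop :=
  ∀ (ℓ : ℕ) [Fact ℓ.Prime] (k κ R M : Type) [Field k] [Field κ] [IsAlgClosed κ] [CharZero κ]
    [Field R] [Field M] [Algebra k κ] [Algebra.IsAlgebraic k κ]
    [Algebra κ R] [Algebra R M] [Algebra κ M] [IsScalarTower κ R M] (x : R)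
    (B : Finset κ) (Y : M), Cov ℓ κ R M x B Y →
    ∀ (F : Type) [Field F] (V : ValuationSubring κ) (r : V →+* F), Res V r → Good V B →
    IsU V (ℓ : κ) → ∀ D : Disc ℓ V r,
    ∀ (p : ℕ) [Fact p.Prime] [CharP F p] (q a : ℕ), 0 < a → q = p ^ a →
    (∀ c : F, ∃ m : ℕ, 0 < m ∧ c ^ (q ^ m) = c) →
    ∀ O : ValuationSubring M, Gauss V (algebraMap R M x) O →
      (∀ O' : ValuationSubring M, Gauss V (algebraMap R M x) O' → O' = O) →
    ∀ (φ : M ≃+* M) (φ₀ : κ ≃ₐ[k] κ), Lift κ M (algebraMap R M x) φ (φ₀ : κ ≃+* κ) →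
      (∀ c, φ₀ c ∈ V ↔ c ∈ V) → (∀ c ∈ V, φ₀ c - c ^ q ∈ V.nonunits) →
      ∀ δ : M ≃ₐ[R] M, (∀ z, δ (φ z) = φ (δ z)) → δ Y = Y → δ = 1

open Pool.Agent.Y748.PS in
/-- a lift of Frobenius acts on the roots of unity by the `q`-th power -/
theorem frob_rou' {κ : Type} [Field κ] {ℓ : ℕ} [Fact ℓ.Prime] {V : ValuationSubring κ}
    (hl : IsU V (ℓ : κ)) {q : ℕ} {φ : κ ≃+* κ} (hφ : ∀ z ∈ V, φ z - z ^ q ∈ V.nonunits) {n : ℕ}
    {c : κ} (hc : c ^ (ℓ ^ n) = 1) : φ c = c ^ q := by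
  have hU : IsU V c := isU_of_pow (pow_pos (Fact.out : ℓ.Prime).pos n) (by rw [hc]; exact isU_one)
  have hq0 : c ^ q ≠ 0 := pow_ne_zero _ hU.1
  have h1 : φ c / c ^ q = 1 := by
    refine rou_eq_one (O := V) (m := ℓ ^ n) ?_ ?_ ?_
    · rw [Nat.cast_pow]
      exact isU_pow hl n
    · rw [div_pow, ← map_pow, hc, map_one, ← pow_mul, mul_comm, pow_mul, hc, one_pow, div_one]
    · have h2 : φ c / c ^ q - 1 = (c ^ q)⁻¹ * (φ c - c ^ q) := by
        field_simp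
      rw [h2]
      exact nu_mul (isU_pow hU q).2.2 (hφ c hU.2.1)
  rwa [div_eq_one_iff_eq hq0] at h1

open Pool.Agent.Y748.PS in
theorem rig (hPROL : S_PROL) (hDIVS : S_DIVS) (hFINS : S_FINS) (hFIXQ : S_FIXQ) : S_RIG := by
  intro ℓ _ k κ R M _ _ _ _ _ _ _ _ _ _ _ _ x B Y hC F _ V r hr hGood hl D p _ _ q a ha hq hF O hO hu
    φ φ₀ hlift hφV hφq δ hδ hδY
  have hp := (Fact.out : p.Prime)
  haveI : CharZero R := charZero_of_injective_algebraMap (algebraMap κ R).injective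
  have hY : Y ∈ LD δ := by
    intro g
    by_cases hY0 : Y = 0
    · rw [hY0]; simp
    obtain ⟨c, hc, hgc⟩ := Y_gal hC hY0 g
    rw [hgc, map_mul, Pool.Agent.Y748.PS.gal_const, hδY]
  have key : ∀ h : M, h ^ ℓ ∈ LD δ → δ h = h := by
    intro h hh
    by_cases h0 : h = 0
    · rw [h0, map_zero]
    obtain ⟨N, hLev, hm1, hYN, hNL, hNs⟩ := exists_levelD (k := k) inferInstance hC hlift hδ hh hY
    obtain ⟨g, m, w, hg0, hgm, hw, heq⟩ := surjq ℓ M N.toSubfield φ q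
      (by rw [hq]; exact pow_pos hp.pos a) hNs
      (hDIVS ℓ κ R M x B Y hC N hLev hYN) (hFINS ℓ κ R M x B Y hC N hLev hYN)
      (hFIXQ ℓ κ R M x B Y hC F V r hr hGood hl D p q a ha hq
        hF O hO hu N hLev hYN φ (φ₀ : κ ≃+* κ) hlift.con hlift.fix hNs hφV
        hφq) h 1 h0 (by rw [pow_one]; exact hm1)
    have hgN : δ (g ^ (ℓ ^ m)) = g ^ (ℓ ^ m) := LD_fix (hNL hgm)
    have h3 : (δ g / g) ^ (ℓ ^ m) = 1 := by
      rw [div_pow, ← map_pow, hgN, div_self (pow_ne_zero _ hg0)]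
    obtain ⟨c, hc, hc'⟩ := rou_const (κ := κ) (pow_pos (Fact.out : ℓ.Prime).pos m) h3
    have hδg : δ g = algebraMap κ M c * g := by rw [hc', div_mul_cancel₀ _ hg0]
    have hc0 : c ≠ 0 := by
      rintro rfl
      rw [zero_pow (pow_pos (Fact.out : ℓ.Prime).pos m).ne'] at hc
      exact zero_ne_one hc
    have hφc : (φ₀ : κ ≃+* κ) c = c ^ q := frob_rou' hl hφq hc
    have hcM : algebraMap κ M c ≠ 0 := by
      rw [Ne, FaithfulSMul.algebraMap_eq_zero_iff]; exact hc0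
    rw [heq, map_mul, map_div₀, map_pow, hδ, hδg, map_mul, hlift.con, hφc, map_pow,
      LD_fix (hNL hw), mul_pow, mul_div_mul_left _ _ (pow_ne_zero q hcM)]
  have hroot : ∀ h : M, h ^ ℓ ∈ LD δ → h ∈ LD δ := by
    intro h hh g
    apply key
    rw [← map_pow]
    exact LD_gal hh g
  have hprim : ∃ ζ : R, IsPrimitiveRoot ζ ℓ := by
    haveI : NeZero ℓ := ⟨(Fact.out : ℓ.Prime).ne_zero⟩
    haveI : NeZero (ℓ : κ) := ⟨hl.1⟩
    obtain ⟨ζ, hζ⟩ := HasEnoughRootsOfUnity.exists_primitiveRoot κ ℓ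
    exact ⟨algebraMap κ R ζ, hζ.map_of_injective (algebraMap κ R).injective⟩
  have htop := hPROL ℓ R M hprim hC.gal hC.pow (LD δ) hroot
  apply AlgEquiv.ext
  intro z
  have h1 : z ∈ LD δ := by rw [htop]; trivial
  exact LD_fix h1

end Pool.Agent.R925.Q
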